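import Pool.Agent.StarMM.Def
import Pool.Agent.StarIB.VF

/-! # Module E: a good direction exists

Proof. Polar coordinates in the inner integral (`StarIB.lintegral_polar` of
`Pool/Agent/StarIB/VF.lean`, or Mathlib `Measure.lintegral...toSphere`; import
`Pool.Agent.StarIB.VF` if you like): `∫_z G(x,z) dz = ∫_{u ∈ S} ∫_{s>0} s^{m-1} G(x,s u) ds du`. The
integrand `G(x,z) = f x * (1 - f (x+z)) * ofReal (‖x‖² - ‖x+z‖²)` vanishes unless
`‖x+z‖ < ‖x‖ ≤ R`, so unless `‖z‖ ≤ 2R`: `s^{m-1} ≤ (2R)^{m-1}`. Hence (Tonelli)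
`QQ ≤ (2R)^{m-1} ∫_S PP(u) du`, and some `u ∈ S` has `PP(u) ≥` average
(`exists_laverage_le`-type lemma; `QQ < ∞` because of the bounded support, or treat the infinite
case too). `c = 1 / ((2R)^{m-1} * (volume.toSphere univ))`. -/

open MeasureTheory Set Metric Module
open scoped ENNReal

namespace StarMM

/-- the integrand -/
private noncomputable def gg {m : ℕ} (f : Eu m → ℝ≥0∞) (x z : Eu m) : ℝ≥0∞ :=
  f x * (1 - f (x + z)) * ENNReal.ofReal (‖x‖ ^ 2 - ‖x + z‖ ^ 2)

private theorem gg_meas {m : ℕ} {f : Eu m → ℝ≥0∞} (hf : Measurable f) :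
    Measurable (fun p : Eu m × Eu m => gg f p.1 p.2) := by
  unfold gg
  have h1 : Measurable (fun p : Eu m × Eu m => f p.1) := hf.comp measurable_fst
  have h2 : Measurable (fun p : Eu m × Eu m => f (p.1 + p.2)) :=
    hf.comp (measurable_fst.add measurable_snd)
  refine (h1.mul (measurable_const.sub h2)).mul ?_
  fun_prop

private theorem gg_supp {m : ℕ} {R : ℝ} {f : Eu m → ℝ≥0∞} (hf : Dens m R f)
    {x z : Eu m} (h : gg f x z ≠ 0) : ‖x‖ ≤ R ∧ ‖z‖ ≤ 2 * R ∧ ‖x + z‖ < ‖x‖ := by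
  have hx : ‖x‖ ≤ R := by
    by_contra hc
    exact h (by rw [gg, hf.supp x (not_le.1 hc)]; simp)
  have hz : ‖x + z‖ < ‖x‖ := by
    by_contra hc
    apply h
    have : ‖x‖ ^ 2 - ‖x + z‖ ^ 2 ≤ 0 := by
      have := not_lt.1 hc
      nlinarith [norm_nonneg x, norm_nonneg (x + z)]
    rw [gg, ENNReal.ofReal_of_nonpos this, mul_zero]
  refine ⟨hx, ?_, hz⟩
  have h1 : ‖z‖ ≤ ‖x + z‖ + ‖x‖ := by
    have : z = (x + z) - x := by abel
    calc ‖z‖ = ‖(x + z) - x‖ := by rw [← this]
      _ ≤ ‖x + z‖ + ‖x‖ := norm_sub_le _ _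
  linarith

private theorem gg_le {m : ℕ} {R : ℝ} {f : Eu m → ℝ≥0∞} (hf : Dens m R f)
    (x z : Eu m) : gg f x z ≤ (closedBall (0 : Eu m) R).indicator
      (fun _ => ENNReal.ofReal (R ^ 2) * (closedBall (0 : Eu m) (2 * R)).indicator 1 z) x := by
  by_cases h : gg f x z = 0
  · rw [h]; exact zero_le
  obtain ⟨hx, hz, hxz⟩ := gg_supp hf h
  have hxm : x ∈ closedBall (0 : Eu m) R := by simpa using hx
  have hzm : z ∈ closedBall (0 : Eu m) (2 * R) := by simpa using hz
  rw [indicator_of_mem hxm, indicator_of_mem hzm, Pi.one_apply, mul_one, gg]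
  have h1 : f x * (1 - f (x + z)) ≤ 1 := by
    calc f x * (1 - f (x + z)) ≤ 1 * 1 := mul_le_mul' (hf.le_one x) tsub_le_self
      _ = 1 := one_mul 1
  have h2 : ENNReal.ofReal (‖x‖ ^ 2 - ‖x + z‖ ^ 2) ≤ ENNReal.ofReal (R ^ 2) := by
    apply ENNReal.ofReal_le_ofReal
    nlinarith [norm_nonneg x, norm_nonneg (x + z)]
  calc f x * (1 - f (x + z)) * ENNReal.ofReal (‖x‖ ^ 2 - ‖x + z‖ ^ 2)
      ≤ 1 * ENNReal.ofReal (R ^ 2) := mul_le_mul' h1 h2
    _ = ENNReal.ofReal (R ^ 2) := one_mul _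

private theorem QQ_lt_top {m : ℕ} {R : ℝ} {f : Eu m → ℝ≥0∞} (hf : Dens m R f) : QQ m f < ∞ := by
  have h1 : QQ m f ≤ ∫⁻ x : Eu m, ∫⁻ z : Eu m, (closedBall (0 : Eu m) R).indicator
      (fun _ => ENNReal.ofReal (R ^ 2) * (closedBall (0 : Eu m) (2 * R)).indicator 1 z) x := by
    unfold QQ
    exact lintegral_mono fun x => lintegral_mono fun z => gg_le hf x z
  refine h1.trans_lt ?_
  have h2 : ∀ x : Eu m, ∫⁻ z : Eu m, (closedBall (0 : Eu m) R).indicator
      (fun _ => ENNReal.ofReal (R ^ 2) * (closedBall (0 : Eu m) (2 * R)).indicator 1 z) x =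
      (closedBall (0 : Eu m) R).indicator (fun _ => ENNReal.ofReal (R ^ 2) *
        volume (closedBall (0 : Eu m) (2 * R))) x := by
    intro x
    by_cases hx : x ∈ closedBall (0 : Eu m) R
    · simp only [indicator_of_mem hx]
      rw [lintegral_const_mul _ (measurable_one.indicator measurableSet_closedBall),
        lintegral_indicator_one measurableSet_closedBall]
    · simp only [indicator_of_notMem hx, lintegral_zero]
  simp only [h2]
  rw [lintegral_indicator_const measurableSet_closedBall]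
  exact ENNReal.mul_lt_top (ENNReal.mul_lt_top ENNReal.ofReal_lt_top measure_closedBall_lt_top)
    measure_closedBall_lt_top

/-- Polar coordinates `z = s u` in the inner integral of `QQ`: `QQ ≤ (2R)^{m-1} ∫_{S} PP(u) du`. -/
theorem exists_dir (m : ℕ) (hm : 1 ≤ m) (R : ℝ) (hR : 0 < R) :
    ∃ c : ℝ, 0 < c ∧ ∀ f : Eu m → ℝ≥0∞, Dens m R f →
      ∃ u : Eu m, ‖u‖ = 1 ∧ ENNReal.ofReal c * QQ m f ≤ PP m f u := by
  have hfin : finrank ℝ (Eu m) = m := finrank_euclideanSpace_fin
  have : Nontrivial (Eu m) := by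
    apply Module.nontrivial_of_finrank_pos (R := ℝ)
    omega
  set σ : Measure (sphere (0 : Eu m) 1) := (volume : Measure (Eu m)).toSphere with hσ
  set T : ℝ≥0∞ := σ univ with hT
  have hT1 : T = m * volume (ball (0 : Eu m) 1) := by
    rw [hT, hσ, Measure.toSphere_apply_univ, hfin]
  have hTt : T ≠ ∞ := by
    rw [hT1]
    exact ENNReal.mul_ne_top (ENNReal.natCast_ne_top m) measure_ball_lt_top.ne
  have hT0 : T ≠ 0 := by
    rw [hT1]
    apply mul_ne_zero
    · exact_mod_cast (by omega : m ≠ 0)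
    · exact (measure_ball_pos volume _ one_pos).ne'
  have hTr : 0 < T.toReal := ENNReal.toReal_pos hT0 hTt
  set K : ℝ := (2 * R) ^ (m - 1) with hK
  have hK0 : 0 < K := by positivity
  refine ⟨1 / (2 * K * T.toReal), by positivity, fun f hf => ?_⟩
  set c : ℝ := 1 / (2 * K * T.toReal) with hc
  have hc0 : 0 < c := by positivity
  -- the main inequality
  have hgm := gg_meas hf.meas
  have main : QQ m f ≤ ENNReal.ofReal K * ∫⁻ θ : sphere (0 : Eu m) 1, PP m f θ ∂σ := by
    have h1 : ∀ x : Eu m, ∫⁻ z : Eu m, gg f x z ≤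
        ENNReal.ofReal K * ∫⁻ θ : sphere (0 : Eu m) 1, (∫⁻ s : ℝ, gg f x (s • (θ : Eu m))) ∂σ := by
      intro x
      have hgx : Measurable (gg f x) := hgm.comp measurable_prodMk_left
      rw [StarIB.lintegral_polar (gg f x) hgx, ← lintegral_const_mul' _ _ ENNReal.ofReal_ne_top]
      refine lintegral_mono fun θ => ?_
      rw [← lintegral_const_mul' _ _ ENNReal.ofReal_ne_top]
      refine (setLIntegral_mono' (g := fun s => ENNReal.ofReal K * gg f x (s • (θ : Eu m)))
        measurableSet_Ioi fun r hr => ?_).trans (setLIntegral_le_lintegral _ _)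
      by_cases hg : gg f x (r • (θ : Eu m)) = 0
      · simp only [hg, mul_zero]; exact le_refl _
      have hr' : (0 : ℝ) < r := hr
      obtain ⟨_, hz, _⟩ := gg_supp hf hg
      have hθ : ‖(θ : Eu m)‖ = 1 := by
        have := θ.2
        rwa [mem_sphere_zero_iff_norm] at this
      rw [norm_smul, hθ, mul_one, Real.norm_eq_abs, abs_of_pos hr'] at hz
      apply mul_le_mul_left
      apply ENNReal.ofReal_le_ofReal
      rw [hfin, hK]
      exact pow_le_pow_left₀ hr'.le hz _
    calc QQ m f = ∫⁻ x : Eu m, ∫⁻ z : Eu m, gg f x z := rfl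
      _ ≤ ∫⁻ x : Eu m, ENNReal.ofReal K *
          ∫⁻ θ : sphere (0 : Eu m) 1, (∫⁻ s : ℝ, gg f x (s • (θ : Eu m))) ∂σ :=
          lintegral_mono h1
      _ = ENNReal.ofReal K * ∫⁻ x : Eu m,
          ∫⁻ θ : sphere (0 : Eu m) 1, (∫⁻ s : ℝ, gg f x (s • (θ : Eu m))) ∂σ :=
          lintegral_const_mul' _ _ ENNReal.ofReal_ne_top
      _ = ENNReal.ofReal K * ∫⁻ θ : sphere (0 : Eu m) 1, PP m f θ ∂σ := by
          congr 1
          rw [lintegral_lintegral_swap]
          · rfl
          · apply Measurable.aemeasurable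
            have h2 : Measurable (fun p : (Eu m × sphere (0 : Eu m) 1) × ℝ =>
                gg f p.1.1 (p.2 • (p.1.2 : Eu m))) := by
              apply hgm.comp (g := fun p : Eu m × Eu m => gg f p.1 p.2)
                (f := fun p : (Eu m × sphere (0 : Eu m) 1) × ℝ => (p.1.1, p.2 • (p.1.2 : Eu m)))
              fun_prop
            exact h2.lintegral_prod_right'
  by_contra hcon
  push Not at hcon
  have h3 : ∫⁻ θ : sphere (0 : Eu m) 1, PP m f θ ∂σ ≤ (ENNReal.ofReal c * QQ m f) * T := by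
    rw [hT, ← lintegral_const]
    refine lintegral_mono fun θ => (hcon θ ?_).le
    have := θ.2
    rwa [mem_sphere_zero_iff_norm] at this
  have h4 : QQ m f ≤ ENNReal.ofReal (1 / 2) * QQ m f := by
    calc QQ m f ≤ ENNReal.ofReal K * ((ENNReal.ofReal c * QQ m f) * T) :=
          main.trans (mul_le_mul_right h3 _)
      _ = (ENNReal.ofReal K * ENNReal.ofReal c * T) * QQ m f := by ring
      _ = ENNReal.ofReal (1 / 2) * QQ m f := by
          congr 1
          rw [← ENNReal.ofReal_toReal hTt, ← ENNReal.ofReal_mul hK0.le,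
            ← ENNReal.ofReal_mul (by positivity)]
          congr 1
          rw [hc]
          field_simp
  have hQt := QQ_lt_top hf
  have hQ0 : QQ m f = 0 := by
    by_contra hne
    have h5 : ENNReal.ofReal (1 / 2) * QQ m f < 1 * QQ m f := by
      apply ENNReal.mul_lt_mul_left hne hQt.ne
      rw [← ENNReal.ofReal_one]
      exact (ENNReal.ofReal_lt_ofReal_iff one_pos).2 (by norm_num)
    rw [one_mul] at h5
    exact absurd h4 (not_le.2 h5)
  obtain ⟨u, hu⟩ := exists_norm_eq (Eu m) zero_le_one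
  have := hcon u hu
  rw [hQ0, mul_zero] at this
  exact not_lt_zero this

end StarMM
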