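import Pool.Agent.StarMM.Def

/-! # Module J: Blaschke-Petkantschin formula in the affine chart

`ae_det_ne_zero`: `det (x + t 1)` is a nonzero polynomial in `t`, and `x ↦ x + t 1` preserves the
volume, so `{det = 0}` is a null set by Tonelli.
`bp`: `(∫∫ f)^m = ∫ over (y,t) ∈ (Fin m → Eu m) × (Fin m → ℝ) of ∏ f (y i, t i)`; for `det y ≠ 0`
substitute `t = (⟪y i, a⟫)_i`; Tonelli. -/

open MeasureTheory Set Metric Module
open scoped ENNReal RealInnerProductSpace

namespace StarMM

/-- the shift along the identity matrix -/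
private noncomputable def idv (m : ℕ) : Fin m → Eu m := fun i => EuclideanSpace.single i (1 : ℝ)

private lemma det_shift (m : ℕ) (x : Fin m → Eu m) (t : ℝ) :
    (Matrix.of fun i j => (x + t • idv m) i j).det =
      (-(Matrix.of fun i j => x i j)).charpoly.eval t := by
  rw [Matrix.eval_charpoly]
  congr 1
  ext i j
  simp [idv, Matrix.scalar_apply, Matrix.diagonal_apply, eq_comm]
  ring

private lemma cont_det (m : ℕ) :
    Continuous fun x : Fin m → Eu m => (Matrix.of fun i j => x i j).det := by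
  refine Continuous.matrix_det ?_
  refine continuous_matrix fun i j => ?_
  simp only [Matrix.of_apply]
  fun_prop

/-- `{det = 0}` is a null set -/
theorem ae_det_ne_zero (m : ℕ) :
    ∀ᵐ x : Fin m → Eu m, (Matrix.of fun i j => x i j).det ≠ 0 := by
  set N : Set (Fin m → Eu m) := {x | (Matrix.of fun i j => x i j).det = 0} with hN
  have hNm : MeasurableSet N := (isClosed_singleton.preimage (cont_det m)).measurableSet
  have key : ∫⁻ t : ℝ, ∫⁻ x : Fin m → Eu m, N.indicator 1 (x + t • idv m) = 0 := by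
    rw [lintegral_lintegral_swap]
    · rw [← lintegral_zero (μ := (volume : Measure (Fin m → Eu m)))]
      congr 1
      ext x
      have hfin : {t : ℝ | x + t • idv m ∈ N}.Finite := by
        refine Set.Finite.subset
          (Polynomial.finite_setOfPred_isRoot
            (Matrix.charpoly_monic (-(Matrix.of fun i j => x i j))).ne_zero) ?_
        intro t ht
        have h1 : (Matrix.of fun i j => (x + t • idv m) i j).det = 0 := ht
        rw [det_shift] at h1
        exact h1
      have h2 : (fun t : ℝ => N.indicator (1 : (Fin m → Eu m) → ℝ≥0∞) (x + t • idv m)) =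
          {t : ℝ | x + t • idv m ∈ N}.indicator 1 := by
        ext t
        simp [Set.indicator]
      rw [h2, lintegral_indicator_one hfin.measurableSet]
      exact hfin.measure_zero _
    · refine Measurable.aemeasurable ?_
      refine Measurable.comp (measurable_one.indicator hNm) ?_
      fun_prop
  have h3 : ∀ t : ℝ, ∫⁻ x : Fin m → Eu m, N.indicator 1 (x + t • idv m) = volume N := by
    intro t
    rw [lintegral_add_right_eq_self (N.indicator (1 : (Fin m → Eu m) → ℝ≥0∞)) (t • idv m)]
    exact lintegral_indicator_one hNm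
  simp_rw [h3] at key
  rw [lintegral_const] at key
  have h4 : volume N = 0 := by
    rcases mul_eq_zero.1 key with h | h
    · exact h
    · simp at h
  exact measure_eq_zero_iff_ae_notMem.1 h4

private lemma lint_fin_prod {n : ℕ} {E : Type*} [MeasurableSpace E] (μ : Measure E)
    [SigmaFinite μ] (f : Fin n → E → ℝ≥0∞) (hf : ∀ i, Measurable (f i)) :
    ∫⁻ x : Fin n → E, ∏ i, f i (x i) ∂(Measure.pi fun _ => μ) = ∏ i, ∫⁻ x, f i x ∂μ := by
  induction n with
  | zero => simp
  | succ n ih =>
    calc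
      _ = ∫⁻ x : E × (Fin n → E), f 0 x.1 * ∏ i : Fin n, f (Fin.succ i) (x.2 i)
            ∂(μ.prod (Measure.pi fun _ => μ)) := by
          rw [← ((measurePreserving_piFinSuccAbove (fun _ : Fin (n+1) => μ) 0).symm).lintegral_comp_emb
            (MeasurableEquiv.measurableEmbedding _)]
          simp_rw [MeasurableEquiv.piFinSuccAbove_symm_apply, Fin.insertNthEquiv,
            Fin.prod_univ_succ, Fin.insertNth_zero, Equiv.coe_fn_mk, Fin.cons_succ,
            Fin.cons_zero]
          rfl
      _ = (∫⁻ x, f 0 x ∂μ) * ∏ i : Fin n, ∫⁻ x, f (Fin.succ i) x ∂μ := by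
          rw [← ih (fun i => f i.succ) (fun i => hf _)]
          exact lintegral_prod_mul (f := f 0) (g := fun x : Fin n → E => ∏ i, f (Fin.succ i) (x i))
            (hf 0).aemeasurable
            (Finset.measurable_prod _ fun i _ => (hf _).comp (measurable_pi_apply i)).aemeasurable
      _ = _ := by rw [Fin.prod_univ_succ]

/-- the substitution `t_j = ⟨y_j, a⟩` -/
private lemma subst_t (m : ℕ) (y : Fin m → Eu m)
    (hy : (Matrix.of fun i j => y i j).det ≠ 0) (g : (Fin m → ℝ) → ℝ≥0∞) (hg : Measurable g) :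
    ∫⁻ t : Fin m → ℝ, g t =
      ∫⁻ a : Eu m, ENNReal.ofReal |(Matrix.of fun i j => y i j).det| *
        g (fun i => ⟪y i, a⟫) := by
  set A : Matrix (Fin m) (Fin m) ℝ := Matrix.of fun i j => y i j with hA
  have h1 := Real.map_matrix_volume_pi_eq_smul_volume_pi hy
  have hT : Measurable (Matrix.toLin' A) :=
    (LinearMap.continuous_on_pi _).measurable
  have h2 : ∫⁻ s : Fin m → ℝ, g (Matrix.toLin' A s) =
      ENNReal.ofReal |(A.det)⁻¹| * ∫⁻ t : Fin m → ℝ, g t := by
    rw [← lintegral_map hg hT, h1, lintegral_smul_measure, smul_eq_mul]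
  have h3 : ∫⁻ a : Eu m, g (fun i => ⟪y i, a⟫) = ∫⁻ s : Fin m → ℝ, g (Matrix.toLin' A s) := by
    refine Eq.trans ?_ ((PiLp.volume_preserving_ofLp (Fin m)).lintegral_comp (hg.comp hT))
    refine lintegral_congr fun a => ?_
    refine congrArg g (funext fun i => ?_)
    simp [Matrix.toLin'_apply, Matrix.mulVec, dotProduct, hA, PiLp.inner_apply, mul_comm]
  have hgm : Measurable fun a : Eu m => g (fun i => ⟪y i, a⟫) := by
    refine hg.comp (measurable_pi_lambda _ fun i => ?_)
    fun_prop
  rw [lintegral_const_mul _ hgm, h3, h2, ← mul_assoc, ← ENNReal.ofReal_mul (abs_nonneg _), ← abs_mul,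
    mul_inv_cancel₀ hy]
  simp

/-- For fixed `y_1,…,y_m` substitute `t_j = ⟨y_j,α⟩` in `∫ ∏ f(y_j,t_j) dt`. -/
theorem bp (m : ℕ) (f : Eu m × ℝ → ℝ≥0∞) (hf : Measurable f) :
    (∫⁻ y : Eu m, ∫⁻ t : ℝ, f (y, t)) ^ m = ∫⁻ a : Eu m, II m (fun y => f (y, ⟪y, a⟫)) := by
  have h1 : (∫⁻ y : Eu m, ∫⁻ t : ℝ, f (y, t)) ^ m =
      ∫⁻ z : Fin m → Eu m × ℝ, ∏ i, f (z i) := by
    rw [volume_pi, lint_fin_prod (volume : Measure (Eu m × ℝ)) (fun _ => f) (fun _ => hf)]
    simp only [Finset.prod_const, Finset.card_univ, Fintype.card_fin]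
    congr 1
    rw [← lintegral_prod f hf.aemeasurable]
    rfl
  have hm2 : Measurable fun p : (Fin m → Eu m) × (Fin m → ℝ) => ∏ i, f (p.1 i, p.2 i) := by
    refine Finset.measurable_prod _ fun i _ => hf.comp ?_
    fun_prop
  have h2 : ∫⁻ z : Fin m → Eu m × ℝ, ∏ i, f (z i) =
      ∫⁻ y : Fin m → Eu m, ∫⁻ t : Fin m → ℝ, ∏ i, f (y i, t i) := by
    rw [← lintegral_prod (fun p : (Fin m → Eu m) × (Fin m → ℝ) => ∏ i, f (p.1 i, p.2 i))
      hm2.aemeasurable]
    exact (volume_measurePreserving_arrowProdEquivProdArrow (Eu m) ℝ (Fin m)).lintegral_comp hm2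
  rw [h1, h2]
  have h3 : ∫⁻ y : Fin m → Eu m, ∫⁻ t : Fin m → ℝ, ∏ i, f (y i, t i) =
      ∫⁻ y : Fin m → Eu m, ∫⁻ a : Eu m,
        ENNReal.ofReal |(Matrix.of fun i j => y i j).det| * ∏ i, f (y i, ⟪y i, a⟫) := by
    refine lintegral_congr_ae ?_
    filter_upwards [ae_det_ne_zero m] with y hy
    refine subst_t m y hy (fun t => ∏ i, f (y i, t i)) ?_
    refine Finset.measurable_prod _ fun i _ => hf.comp ?_
    fun_prop
  rw [h3, lintegral_lintegral_swap]
  · rfl
  · refine Measurable.aemeasurable ?_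
    refine Measurable.mul ?_ ?_
    · exact (((cont_det m).comp continuous_fst).abs.measurable).ennreal_ofReal
    · refine Finset.measurable_prod _ fun i _ => hf.comp ?_
      fun_prop

end StarMM
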