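import Pool.Agent.StarMM.Def
import Pool.Agent.StarIB.Ident
import Pool.Agent.StarIB.Star

/-! # Module K: chart polar coordinates and self-adjointness of the Radon transform

`chart_polar`: `StarIB.lintegral_prodLp`, then for fixed `t ≠ 0` substitute `z = -t • y`
(factor `|t|^d`), Tonelli, `s = -t` (compare the proof of `StarIB.star_identity` in
`Pool/Agent/StarIB/Star.lean`).
`cm_one`: comparison with `(1+|y|)^{-(d+1)}`.
`cm_symm`: `StarIB.star_identity` with `a = f`, `φ(z,t) = g(z,t) * StarIB.kap |(z,t)|`: the left side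
is `KK d * cm (f * lsph g)` (`StarIB.Ident.sec_eq`, `StarIB.lintegral_orth_polar`), the right side is
`1/2 ∫_{x ∈ EP d} g x * kap ‖x‖ * ‖x‖⁻¹ * lsph f x = KK d * cm (g * lsph f)` by `chart_polar`
(`lsph f` is homogeneous of degree `0`: `StarIB.lsph_smul`; `StarIB.line_scaled`). -/

open MeasureTheory Set Metric Module
open scoped ENNReal RealInnerProductSpace

namespace StarMM

open StarIB

/-- polar coordinates `x = s (y,-1)` -/
theorem chart_polar (d : ℕ) (Φ : EP d → ℝ≥0∞) (hΦ : Measurable Φ) :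
    ∫⁻ x, Φ x = ∫⁻ y : Eu d, ∫⁻ s : ℝ, ENNReal.ofReal (|s| ^ d) *
      Φ (s • (WithLp.toLp 2 (y, (-1 : ℝ)) : EP d)) := by
  have hto : Measurable (fun p : Eu d × ℝ => (WithLp.toLp 2 p : EP d)) := measurable_toLp2
  have e1 : ∀ (t : ℝ) (y : Eu d), (WithLp.toLp 2 ((-t) • y, t) : EP d) =
      (-t) • (WithLp.toLp 2 (y, (-1 : ℝ)) : EP d) := by
    intro t y
    have h : (-t) • (WithLp.toLp 2 (y, (-1 : ℝ)) : EP d) =
        WithLp.toLp 2 ((-t) • (y, (-1 : ℝ))) := rfl
    rw [h, Prod.smul_mk, smul_eq_mul]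
    congr 2
    ring
  have hsw : Measurable (Function.uncurry (fun (z : Eu d) (t : ℝ) =>
      Φ (WithLp.toLp 2 (z, t)))) := hΦ.comp hto
  rw [lintegral_prodLp Φ hΦ, lintegral_lintegral_swap hsw.aemeasurable]
  have h1 : ∀ᵐ t : ℝ, ∫⁻ z : Eu d, Φ (WithLp.toLp 2 (z, t)) =
      ∫⁻ y : Eu d, ENNReal.ofReal (|t| ^ d) * Φ (WithLp.toLp 2 ((-t) • y, t)) := by
    have h0 : ∀ᵐ s : ℝ, s ≠ 0 := by simp [ae_iff]
    filter_upwards [h0] with t ht
    have hm1 : Measurable (fun z : Eu d => Φ (WithLp.toLp 2 (z, t))) :=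
      hΦ.comp (hto.comp measurable_prodMk_right)
    have hm2 : Measurable (fun y : Eu d => Φ (WithLp.toLp 2 ((-t) • y, t))) :=
      hm1.comp (measurable_const_smul (-t))
    rw [StarAux.lintegral_subst (fun z : Eu d => Φ (WithLp.toLp 2 (z, t))) hm1
      (neg_ne_zero.2 ht), ← lintegral_const_mul _ hm2, finrank_euclideanSpace_fin, abs_neg]
  have hmj : Measurable (fun p : ℝ × Eu d => ENNReal.ofReal (|p.1| ^ d) *
      Φ (WithLp.toLp 2 ((-p.1) • p.2, p.1))) := by
    apply Measurable.mul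
    · fun_prop
    · exact hΦ.comp (hto.comp (by fun_prop : Measurable fun p : ℝ × Eu d => ((-p.1) • p.2, p.1)))
  rw [lintegral_congr_ae h1, lintegral_lintegral_swap hmj.aemeasurable]
  refine lintegral_congr fun y => ?_
  have hm : Measurable (fun s : ℝ => ENNReal.ofReal (|s| ^ d) *
      Φ (s • (WithLp.toLp 2 (y, (-1 : ℝ)) : EP d))) := by
    apply Measurable.mul
    · fun_prop
    · exact hΦ.comp (by fun_prop)
  rw [← (Measure.measurePreserving_neg (volume : Measure ℝ)).lintegral_comp hm]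
  refine lintegral_congr fun t => ?_
  rw [e1, abs_neg]

/-- the mass of the chart measure is finite and positive -/
theorem cm_one (d : ℕ) : cm d (fun _ => 1) ≠ 0 ∧ cm d (fun _ => 1) ≠ ∞ := by
  constructor
  · intro h0
    unfold cm at h0
    rw [lintegral_eq_zero_iff (by fun_prop)] at h0
    have h1 : ∀ᵐ y : Eu d, False := by
      filter_upwards [h0] with y hy
      have hp : (0 : ℝ) < (1 + ‖y‖ ^ 2) ^ (-((d : ℝ) + 1) / 2) :=
        Real.rpow_pos_of_pos (by positivity) _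
      rw [Pi.zero_apply, mul_one, ENNReal.ofReal_eq_zero] at hy
      linarith
    rw [Filter.eventually_false_iff_eq_bot, ae_eq_bot] at h1
    exact (NeZero.ne (volume : Measure (Eu d))) h1
  · have h1 : cm d (fun _ => 1) ≤ ∫⁻ y : Eu d, ENNReal.ofReal (2 ^ (((d : ℝ) + 1) / 2)) *
        ENNReal.ofReal ((1 + ‖y‖) ^ (-((d : ℝ) + 1))) := by
      unfold cm
      refine lintegral_mono fun y => ?_
      rw [mul_one, ← ENNReal.ofReal_mul (by positivity)]
      exact ENNReal.ofReal_le_ofReal (rpow_neg_one_add_norm_sq_le y (by positivity))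
    have h2 : ∫⁻ y : Eu d, ENNReal.ofReal ((1 + ‖y‖) ^ (-((d : ℝ) + 1))) < ∞ :=
      finite_integral_one_add_norm (by rw [finrank_euclideanSpace_fin]; linarith)
    rw [lintegral_const_mul' _ _ ENNReal.ofReal_ne_top] at h1
    exact (h1.trans_lt (ENNReal.mul_lt_top ENNReal.ofReal_lt_top h2)).ne

/-- a measurable function which agrees with `lsph f` outside of the hyperplane `x.snd = 0` -/
theorem lsph_meas (d : ℕ) (hd : 1 ≤ d) (f : EP d → ℝ≥0∞) (hf : Measurable f)
    (homf : ∀ x, x ≠ 0 → ∀ s : ℝ, s ≠ 0 → f (s • x) = f x) :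
    ∃ L : EP d → ℝ≥0∞, Measurable L ∧ ∀ w : EP d, w.snd ≠ 0 → L w = lsph f w := by
  have hΘ : Measurable (Function.uncurry
      (fun (_ : EP d) (x : EP d) => f x * StarAux.kap ‖x‖)) :=
    (hf.comp measurable_snd).mul (StarAux.measurable_kap.comp
      (measurable_norm.comp measurable_snd))
  have hfr : finrank ℝ (EP d) = d + 1 := Ident.finrank_EE d
  refine ⟨fun w => (StarAux.KK d)⁻¹ * (ENNReal.ofReal (‖w‖ / |w.snd|) *
    ∫⁻ z : Eu d, (fun (_ : EP d) (x : EP d) => f x * StarAux.kap ‖x‖) w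
      (WithLp.toLp 2 (z, -⟪w.fst, z⟫ / w.snd))), ?_, ?_⟩
  · refine Measurable.const_mul ?_ _
    refine Measurable.mul ?_ (measurable_kernel' (F := Eu d) _ hΘ)
    refine ENNReal.measurable_ofReal.comp ?_
    exact measurable_norm.div (continuous_abs.measurable.comp measurable_snd2)
  · intro w hw
    have hw0 : w ≠ 0 := by
      rintro rfl
      exact hw rfl
    have h1 := inner_eq (F := Eu d) (fun (_ : EP d) (x : EP d) => f x * StarAux.kap ‖x‖) hΘ w hw
    have h2 := lintegral_orth_polar (E := EP d) (by omega) w hw0 f hf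
      (fun x hx s hs => homf x hx s hs.ne') StarAux.kap StarAux.measurable_kap
    have h3 : finrank ℝ (EP d) - 2 = d - 1 := by omega
    rw [h3] at h2
    change (StarAux.KK d)⁻¹ * _ = _
    rw [← h1, h2]
    have h4 : ∫⁻ r in Ioi (0 : ℝ), ENNReal.ofReal (r ^ (d - 1)) * StarAux.kap r =
        StarAux.KK d := rfl
    rw [h4, mul_comm (lsph f w), ← mul_assoc,
      ENNReal.inv_mul_cancel (StarAux.KK_ne_zero d) (StarAux.KK_ne_top d), one_mul]

/-- self-adjointness of the spherical Radon transform with respect to the chart mean -/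
theorem cm_symm (d : ℕ) (hd : 1 ≤ d) (f g : EP d → ℝ≥0∞) (hf : Measurable f) (hg : Measurable g)
    (homf : ∀ x, x ≠ 0 → ∀ s : ℝ, s ≠ 0 → f (s • x) = f x)
    (homg : ∀ x, x ≠ 0 → ∀ s : ℝ, s ≠ 0 → g (s • x) = g x) :
    cm d (fun x => f x * lsph g x) = cm d (fun x => g x * lsph f x) := by
  have hto : Measurable (fun p : Eu d × ℝ => (WithLp.toLp 2 p : EP d)) := measurable_toLp2
  have hfr : finrank ℝ (EP d) = d + 1 := Ident.finrank_EE d
  obtain ⟨L, hL, hLe⟩ := lsph_meas d hd f hf homf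
  set φ : Eu d × ℝ → ℝ≥0∞ := fun p => g (WithLp.toLp 2 p) *
    StarAux.kap ‖(WithLp.toLp 2 p : EP d)‖ with hφ
  have hφm : Measurable φ :=
    (hg.comp hto).mul (StarAux.measurable_kap.comp (measurable_norm.comp hto))
  have hst := star_identity (F := Eu d) (by rw [finrank_euclideanSpace_fin]; exact hd) f hf homf
    φ hφm
  rw [finrank_euclideanSpace_fin] at hst
  -- the left side
  have hlhs : ∫⁻ y : Eu d, ENNReal.ofReal ((1 + ‖y‖ ^ 2) ^ (-(d : ℝ) / 2)) *
      f (WithLp.toLp 2 (y, -1)) * ∫⁻ z : Eu d, φ (z, ⟪z, y⟫) =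
      StarAux.KK d * cm d (fun x => f x * lsph g x) := by
    unfold cm
    rw [← lintegral_const_mul' _ _ (StarAux.KK_ne_top d)]
    refine lintegral_congr fun y => ?_
    have h1 : ∫⁻ z : Eu d, φ (z, ⟪z, y⟫) = ENNReal.ofReal ((1 + ‖y‖ ^ 2) ^ (-(1 : ℝ) / 2)) *
        (lsph g (WithLp.toLp 2 (y, (-1 : ℝ))) * StarAux.KK d) := by
      have h2 := Ident.sec_eq φ hφm y
      have h3 := lintegral_orth_polar (E := EP d) (by omega) (WithLp.toLp 2 (y, (-1 : ℝ)))
        (Ident.toLp_ne y) g hg (fun x hx s hs => homg x hx s hs.ne') StarAux.kap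
        StarAux.measurable_kap
      have h4 : finrank ℝ (EP d) - 2 = d - 1 := by omega
      rw [h4] at h3
      have h5 : ∫⁻ z : Eu d, φ (z, ⟪z, y⟫) = sec φ y := rfl
      rw [h5, h2]
      congr 1
    rw [h1]
    have hp : (0 : ℝ) < 1 + ‖y‖ ^ 2 := by positivity
    have e1 : (1 + ‖y‖ ^ 2) ^ (-((d : ℝ) + 1) / 2) =
        (1 + ‖y‖ ^ 2) ^ (-(d : ℝ) / 2) * (1 + ‖y‖ ^ 2) ^ (-(1 : ℝ) / 2) := by
      rw [← Real.rpow_add hp]; congr 1; ring
    rw [e1, ENNReal.ofReal_mul (by positivity)]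
    ring
  -- the right side
  have hrhs : ∫⁻ z : Eu d, ∫⁻ t : ℝ, φ (z, t) * (ENNReal.ofReal ((√(‖z‖ ^ 2 + t ^ 2))⁻¹) *
      lsph f (WithLp.toLp 2 (z, t))) = 2 * (StarAux.KK d * cm d (fun x => g x * lsph f x)) := by
    set Φ : EP d → ℝ≥0∞ := fun x => g x * StarAux.kap ‖x‖ * (ENNReal.ofReal (‖x‖⁻¹) * L x)
      with hΦ
    have hΦm : Measurable Φ := by
      refine (hg.mul (StarAux.measurable_kap.comp measurable_norm)).mul (Measurable.mul ?_ hL)
      exact ENNReal.measurable_ofReal.comp measurable_norm.inv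
    have h1 : ∫⁻ z : Eu d, ∫⁻ t : ℝ, φ (z, t) * (ENNReal.ofReal ((√(‖z‖ ^ 2 + t ^ 2))⁻¹) *
        lsph f (WithLp.toLp 2 (z, t))) = ∫⁻ x, Φ x := by
      rw [lintegral_prodLp Φ hΦm]
      refine lintegral_congr fun z => lintegral_congr_ae ?_
      have h0 : ∀ᵐ s : ℝ, s ≠ 0 := by simp [ae_iff]
      filter_upwards [h0] with t ht
      have h2 : L (WithLp.toLp 2 (z, t)) = lsph f (WithLp.toLp 2 (z, t)) :=
        hLe (WithLp.toLp 2 (z, t)) ht
      simp only [hΦ, hφ]
      rw [h2, Ident.norm_toLp]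
    rw [h1, chart_polar d Φ hΦm]
    unfold cm
    rw [← lintegral_const_mul' _ _ (StarAux.KK_ne_top d), ← lintegral_const_mul' _ _ (by norm_num)]
    refine lintegral_congr fun y => ?_
    have hp : (0 : ℝ) < 1 + ‖y‖ ^ 2 := by positivity
    have hρ : 0 < √(1 + ‖y‖ ^ 2) := Real.sqrt_pos.2 hp
    have hn : ‖(WithLp.toLp 2 (y, (-1 : ℝ)) : EP d)‖ = √(1 + ‖y‖ ^ 2) := by
      rw [Ident.norm_toLp]
      congr 1
      ring
    have h3 : ∀ᵐ s : ℝ, ENNReal.ofReal (|s| ^ d) * Φ (s • (WithLp.toLp 2 (y, (-1 : ℝ)) : EP d)) =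
        (g (WithLp.toLp 2 (y, (-1 : ℝ))) * lsph f (WithLp.toLp 2 (y, (-1 : ℝ))) *
          ENNReal.ofReal ((√(1 + ‖y‖ ^ 2))⁻¹)) *
        (ENNReal.ofReal (|s| ^ (d - 1)) * StarAux.kap (|s| * √(1 + ‖y‖ ^ 2))) := by
      have h0 : ∀ᵐ s : ℝ, s ≠ 0 := by simp [ae_iff]
      filter_upwards [h0] with s hs
      have hs' : 0 < |s| := abs_pos.2 hs
      have h4 : L (s • (WithLp.toLp 2 (y, (-1 : ℝ)) : EP d)) =
          lsph f (WithLp.toLp 2 (y, (-1 : ℝ))) := by
        rw [hLe _ ?_, lsph_smul f _ s hs]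
        rw [← WithLp.toLp_smul]
        change (s • (y, (-1 : ℝ))).2 ≠ 0
        simpa using hs
      simp only [hΦ]
      rw [h4, homg _ (Ident.toLp_ne y) s hs, norm_smul, hn, Real.norm_eq_abs, mul_inv,
        ENNReal.ofReal_mul (by positivity)]
      have h5 : ENNReal.ofReal (|s| ^ d) * ENNReal.ofReal (|s|⁻¹) =
          ENNReal.ofReal (|s| ^ (d - 1)) := by
        rw [← ENNReal.ofReal_mul (by positivity)]
        congr 1
        obtain ⟨k, rfl⟩ : ∃ k, d = k + 1 := ⟨d - 1, by omega⟩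
        rw [Nat.add_sub_cancel, pow_succ]
        field_simp
      rw [← h5]
      ring
    rw [lintegral_congr_ae h3, lintegral_const_mul, StarAux.line_scaled d hd hρ]
    · have e6 : (√(1 + ‖y‖ ^ 2))⁻¹ * (√(1 + ‖y‖ ^ 2) ^ d)⁻¹ =
          (1 + ‖y‖ ^ 2) ^ (-((d : ℝ) + 1) / 2) := by
        rw [← mul_inv, ← pow_succ', Real.sqrt_eq_rpow, ← Real.rpow_natCast,
          ← Real.rpow_mul hp.le, ← Real.rpow_neg hp.le]
        congr 1
        push_cast
        ring
      rw [← e6, ENNReal.ofReal_mul (by positivity)]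
      ring
    · refine Measurable.mul (by fun_prop) (StarAux.measurable_kap.comp (by fun_prop))
  rw [hlhs, hrhs, ← mul_assoc, ENNReal.inv_mul_cancel (by norm_num) (by norm_num), one_mul] at hst
  exact (ENNReal.mul_right_inj (StarAux.KK_ne_zero d) (StarAux.KK_ne_top d)).1 hst

end StarMM
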