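import Pool.Agent.StarMM.Def

/-! # Module F2: closeness to the ball

`close`: with `B = ball 0 r`, mass equality gives `∫_{B} (1-f) = ∫_{Bᶜ} f =: δ` and
`EE2 f - EE2 B = ∫_{Bᶜ} (|x|²-r²) f + ∫_B (r²-|x|²)(1-f)`. For `s > 0`:
`δ ≤ volume {x : r² - s < |x|² < r²} + (1/s) ∫_B (r²-|x|²)(1-f)`, choose `s` with first term `≤ ε/2`
(continuity of the measure along the decreasing sets, intersection empty), `η = s ε / 2`.
`II_bal_le`: `1 ≤ ∏ f (x i) + ∑ (1 - f (x i))` for `x i ∈ B` (numbers in `[0,1]`),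
`|det| ≤ C₁` on `B^m` (`Matrix.det_le` or the trivial bound), so
`II (bal r) ≤ II f + C₁ * m * volume(B)^(m-1) * ∫_B (1-f)`. -/

open MeasureTheory Set Metric Module
open scoped ENNReal

namespace StarMM

theorem close_prod_sum {ι : Type*} (s : Finset ι) (t : ι → ℝ≥0∞) (ht : ∀ i, t i ≤ 1) :
    1 ≤ ∏ i ∈ s, t i + ∑ i ∈ s, (1 - t i) := by
  classical
  induction s using Finset.induction_on with
  | empty => simp
  | insert a s ha ih =>
    rw [Finset.prod_insert ha, Finset.sum_insert ha]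
    have h1 : t a ≤ t a * ∏ i ∈ s, t i + ∑ i ∈ s, (1 - t i) := by
      calc t a = t a * 1 := (mul_one _).symm
        _ ≤ t a * (∏ i ∈ s, t i + ∑ i ∈ s, (1 - t i)) := by gcongr
        _ = t a * ∏ i ∈ s, t i + t a * ∑ i ∈ s, (1 - t i) := mul_add _ _ _
        _ ≤ t a * ∏ i ∈ s, t i + ∑ i ∈ s, (1 - t i) := by
          gcongr
          exact mul_le_of_le_one_left zero_le (ht a)
    calc (1 : ℝ≥0∞) = t a + (1 - t a) := (add_tsub_cancel_of_le (ht a)).symm
      _ ≤ (t a * ∏ i ∈ s, t i + ∑ i ∈ s, (1 - t i)) + (1 - t a) := by gcongr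
      _ = _ := by ring

theorem close_prodint {n : ℕ} {E : Type*} [MeasureSpace E] [SigmaFinite (volume : Measure E)]
    (i : Fin (n + 1)) {g : E → ℝ≥0∞} (hg : Measurable g) {B : Set E} (hB : MeasurableSet B) :
    ∫⁻ x : Fin (n + 1) → E, g (x i) * ∏ j : Fin n, B.indicator (1 : E → ℝ≥0∞) (x (i.succAbove j)) =
      (∫⁻ y, g y) * volume B ^ n := by
  have hmp := volume_preserving_piFinSuccAbove (fun _ : Fin (n + 1) => E) i
  have hind : Measurable (B.indicator (1 : E → ℝ≥0∞)) := measurable_one.indicator hB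
  have hF : Measurable (fun y : Fin n → E => ∏ j : Fin n, B.indicator (1 : E → ℝ≥0∞) (y j)) := by
    fun_prop
  have h1 : ∫⁻ x : Fin (n + 1) → E,
      g (x i) * ∏ j : Fin n, B.indicator (1 : E → ℝ≥0∞) (x (i.succAbove j)) =
      ∫⁻ p : E × (Fin n → E), g p.1 * ∏ j : Fin n, B.indicator (1 : E → ℝ≥0∞) (p.2 j) := by
    rw [← hmp.lintegral_comp (by fun_prop)]
    rfl
  have h2 : (fun y : Fin n → E => ∏ j : Fin n, B.indicator (1 : E → ℝ≥0∞) (y j)) =
      (Set.pi univ (fun _ => B)).indicator 1 := by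
    funext y
    by_cases hy : y ∈ Set.pi univ (fun _ : Fin n => B)
    · rw [indicator_of_mem hy, Pi.one_apply]
      apply Finset.prod_eq_one
      intro j _
      rw [indicator_of_mem (hy j (mem_univ j)), Pi.one_apply]
    · rw [indicator_of_notMem hy]
      simp only [Set.mem_pi, mem_univ, forall_const, not_forall] at hy
      obtain ⟨j, hj⟩ := hy
      exact Finset.prod_eq_zero (Finset.mem_univ j) (indicator_of_notMem hj _)
  rw [h1, Measure.volume_eq_prod, lintegral_prod_mul hg.aemeasurable hF.aemeasurable, h2,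
    lintegral_indicator_one (MeasurableSet.univ_pi fun _ => hB), volume_pi_pi]
  simp

/-- quantitative bathtub principle -/
theorem close (m : ℕ) {r : ℝ} (hr : 0 ≤ r) (ε : ℝ) (hε : 0 < ε) :
    ∃ η : ℝ, 0 < η ∧ ∀ (R : ℝ) (f : Eu m → ℝ≥0∞), Dens m R f →
      ∫⁻ x, f x = volume (ball (0 : Eu m) r) →
      EE2 m f ≤ EE2 m (bal m r) + ENNReal.ofReal η →
      ∫⁻ x in ball (0 : Eu m) r, (1 - f x) ≤ ENNReal.ofReal ε := by
  set B : Set (Eu m) := ball 0 r with hB
  have hBm : MeasurableSet B := measurableSet_ball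
  have hBfin : volume B ≠ ∞ := measure_ball_lt_top.ne
  let A : ℕ → Set (Eu m) := fun n => {x | x ∈ B ∧ r ^ 2 - 1 / ((n : ℝ) + 1) < ‖x‖ ^ 2}
  have hAm : ∀ n, MeasurableSet (A n) := fun n => by
    have h2 : MeasurableSet {x : Eu m | r ^ 2 - 1 / ((n : ℝ) + 1) < ‖x‖ ^ 2} :=
      measurableSet_lt measurable_const (by fun_prop)
    exact hBm.inter h2
  have hAB : ∀ n, A n ⊆ B := fun n x hx => hx.1
  have hAanti : Antitone A := by
    intro n k hnk x hx
    refine ⟨hx.1, lt_of_le_of_lt ?_ hx.2⟩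
    have h1 : 1 / ((k : ℝ) + 1) ≤ 1 / ((n : ℝ) + 1) := by
      have : (n : ℝ) ≤ k := by exact_mod_cast hnk
      apply one_div_le_one_div_of_le (by positivity)
      linarith
    linarith
  have hAinter : ⋂ n, A n = ∅ := by
    ext x
    simp only [mem_iInter, mem_empty_iff_false, iff_false, not_forall]
    by_cases hx : x ∈ B
    · have h1 : ‖x‖ < r := by simpa [hB] using hx
      have h2 : ‖x‖ ^ 2 < r ^ 2 := by
        have := norm_nonneg x
        nlinarith
      obtain ⟨n, hn⟩ := exists_nat_one_div_lt (sub_pos.2 h2)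
      refine ⟨n, fun h => ?_⟩
      have := h.2
      linarith
    · exact ⟨0, fun h => hx h.1⟩
  have hA0 := tendsto_measure_iInter_atTop (μ := (volume : Measure (Eu m))) (s := A)
    (fun n => (hAm n).nullMeasurableSet) hAanti
    ⟨0, ((measure_mono (hAB 0)).trans_lt hBfin.lt_top).ne⟩
  rw [hAinter, measure_empty] at hA0
  obtain ⟨n, hn⟩ : ∃ n, volume (A n) ≤ ENNReal.ofReal (ε / 2) := by
    have h1 : (0 : ℝ≥0∞) < ENNReal.ofReal (ε / 2) := ENNReal.ofReal_pos.2 (by linarith)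
    have h2 := hA0.eventually (eventually_le_nhds h1)
    exact h2.exists
  set s : ℝ := 1 / ((n : ℝ) + 1) with hs
  have hs0 : 0 < s := by positivity
  refine ⟨s * (ε / 2), by positivity, fun R f hf hmass hE => ?_⟩
  have hfm := hf.meas
  have hgm : Measurable (fun x => 1 - f x) := measurable_const.sub hfm
  have hf1 : ∀ x, f x + (1 - f x) = 1 := fun x => add_tsub_cancel_of_le (hf.le_one x)
  have hNm : Measurable (fun x : Eu m => ENNReal.ofReal (‖x‖ ^ 2)) := by fun_prop
  -- masses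
  have e1 : (∫⁻ x in B, f x) + ∫⁻ x in B, (1 - f x) = volume B := by
    rw [← lintegral_add_left hfm]
    simp only [hf1]
    simp
  have hfB : ∫⁻ x in B, f x ≠ ∞ := by
    intro h
    rw [h] at e1
    rw [top_add] at e1
    exact hBfin e1.symm
  have hgB : ∫⁻ x in B, (1 - f x) ≠ ∞ := by
    intro h
    rw [h] at e1
    rw [add_top] at e1
    exact hBfin e1.symm
  have e2 : ∫⁻ x in Bᶜ, f x = ∫⁻ x in B, (1 - f x) := by
    have h1 := lintegral_add_compl f hBm (μ := volume)
    rw [hmass, ← e1] at h1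
    exact (ENNReal.add_right_inj hfB).1 h1
  -- second moments
  have e3 : EE2 m f = (∫⁻ x in B, ENNReal.ofReal (‖x‖ ^ 2) * f x) +
      ∫⁻ x in Bᶜ, ENNReal.ofReal (‖x‖ ^ 2) * f x := (lintegral_add_compl _ hBm).symm
  have hm1 : Measurable (fun x : Eu m => ENNReal.ofReal (‖x‖ ^ 2) * f x) := hNm.mul hfm
  have hm2 : Measurable (fun x : Eu m => ENNReal.ofReal (‖x‖ ^ 2) * (1 - f x)) := hNm.mul hgm
  have e4 : EE2 m (bal m r) = (∫⁻ x in B, ENNReal.ofReal (‖x‖ ^ 2) * f x) +
      ∫⁻ x in B, ENNReal.ofReal (‖x‖ ^ 2) * (1 - f x) := by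
    rw [← lintegral_add_left hm1, ← lintegral_indicator hBm]
    unfold EE2 bal
    refine lintegral_congr fun x => ?_
    by_cases hx : x ∈ B
    · rw [indicator_of_mem hx, indicator_of_mem hx, ← mul_add, hf1, Pi.one_apply]
    · rw [indicator_of_notMem hx, indicator_of_notMem hx, mul_zero]
  have hr2 : ∀ x ∈ B, ‖x‖ ^ 2 ≤ r ^ 2 := by
    intro x hx
    have h1 : ‖x‖ < r := by simpa [hB] using hx
    have := norm_nonneg x
    nlinarith
  have hfin : ∀ g : Eu m → ℝ≥0∞, (∀ x, g x ≤ 1) →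
      ∫⁻ x in B, ENNReal.ofReal (‖x‖ ^ 2) * g x ≠ ∞ := by
    intro g hg
    have h1 : ∫⁻ x in B, ENNReal.ofReal (‖x‖ ^ 2) * g x ≤ ∫⁻ x in B, ENNReal.ofReal (r ^ 2) := by
      refine setLIntegral_mono' hBm fun x hx => ?_
      calc ENNReal.ofReal (‖x‖ ^ 2) * g x ≤ ENNReal.ofReal (r ^ 2) * 1 := by
            exact mul_le_mul' (ENNReal.ofReal_le_ofReal (hr2 x hx)) (hg x)
        _ = _ := mul_one _
    rw [setLIntegral_const] at h1
    exact (h1.trans_lt (ENNReal.mul_lt_top ENNReal.ofReal_lt_top hBfin.lt_top)).ne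
  have hF1 := hfin f hf.le_one
  have hF2 := hfin (fun x => 1 - f x) (fun x => tsub_le_self)
  have e5 : ∫⁻ x in Bᶜ, ENNReal.ofReal (‖x‖ ^ 2) * f x ≤
      (∫⁻ x in B, ENNReal.ofReal (‖x‖ ^ 2) * (1 - f x)) + ENNReal.ofReal (s * (ε / 2)) := by
    rw [e3, e4, add_assoc] at hE
    exact (ENNReal.add_le_add_iff_left hF1).1 hE
  have e6 : ENNReal.ofReal (r ^ 2) * ∫⁻ x in B, (1 - f x) ≤
      ∫⁻ x in Bᶜ, ENNReal.ofReal (‖x‖ ^ 2) * f x := by
    rw [← e2, ← lintegral_const_mul _ hfm]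
    refine setLIntegral_mono' hBm.compl fun x hx => ?_
    gcongr
    have h1 : r ≤ ‖x‖ := by simpa [hB] using hx
    nlinarith
  have e7 : ENNReal.ofReal (r ^ 2) * ∫⁻ x in B, (1 - f x) =
      (∫⁻ x in B, ENNReal.ofReal (‖x‖ ^ 2) * (1 - f x)) +
      ∫⁻ x in B, ENNReal.ofReal (r ^ 2 - ‖x‖ ^ 2) * (1 - f x) := by
    rw [← lintegral_const_mul _ hgm, ← lintegral_add_left hm2]
    refine setLIntegral_congr_fun hBm fun x hx => ?_
    rw [← add_mul, ← ENNReal.ofReal_add (by positivity) (sub_nonneg.2 (hr2 x hx))]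
    congr 2
    ring
  have e8 : ∫⁻ x in B, ENNReal.ofReal (r ^ 2 - ‖x‖ ^ 2) * (1 - f x) ≤
      ENNReal.ofReal (s * (ε / 2)) := by
    have h1 := e6.trans e5
    rw [e7] at h1
    exact (ENNReal.add_le_add_iff_left hF2).1 h1
  have hsi : (ENNReal.ofReal s)⁻¹ * ENNReal.ofReal s = 1 :=
    ENNReal.inv_mul_cancel (ENNReal.ofReal_pos.2 hs0).ne' ENNReal.ofReal_ne_top
  have hm3 : Measurable (fun x : Eu m => ENNReal.ofReal (r ^ 2 - ‖x‖ ^ 2) * (1 - f x)) := by
    fun_prop
  have e9 : ∫⁻ x in B, (1 - f x) ≤ volume (A n) +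
      (ENNReal.ofReal s)⁻¹ * ∫⁻ x in B, ENNReal.ofReal (r ^ 2 - ‖x‖ ^ 2) * (1 - f x) := by
    have h1 : ∫⁻ x in B, (1 - f x) ≤ ∫⁻ x in B, ((A n).indicator 1 x +
        (ENNReal.ofReal s)⁻¹ * (ENNReal.ofReal (r ^ 2 - ‖x‖ ^ 2) * (1 - f x))) := by
      refine setLIntegral_mono' hBm fun x hx => ?_
      by_cases hxA : x ∈ A n
      · rw [indicator_of_mem hxA, Pi.one_apply]
        exact tsub_le_self.trans le_self_add
      · rw [indicator_of_notMem hxA, zero_add]
        have h2 : s ≤ r ^ 2 - ‖x‖ ^ 2 := by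
          by_contra hcon
          push Not at hcon
          exact hxA ⟨hx, by linarith⟩
        calc 1 - f x = 1 * (1 - f x) := (one_mul _).symm
          _ = (ENNReal.ofReal s)⁻¹ * ENNReal.ofReal s * (1 - f x) := by rw [hsi]
          _ ≤ (ENNReal.ofReal s)⁻¹ * ENNReal.ofReal (r ^ 2 - ‖x‖ ^ 2) * (1 - f x) := by gcongr
          _ = _ := mul_assoc _ _ _
    refine h1.trans ?_
    rw [lintegral_add_left (measurable_one.indicator (hAm n)), lintegral_const_mul _ hm3,
      lintegral_indicator_one (hAm n)]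
    exact add_le_add (Measure.restrict_apply_le _ _) le_rfl
  calc ∫⁻ x in B, (1 - f x) ≤ volume (A n) +
      (ENNReal.ofReal s)⁻¹ * ∫⁻ x in B, ENNReal.ofReal (r ^ 2 - ‖x‖ ^ 2) * (1 - f x) := e9
    _ ≤ ENNReal.ofReal (ε / 2) + (ENNReal.ofReal s)⁻¹ * ENNReal.ofReal (s * (ε / 2)) := by gcongr
    _ = ENNReal.ofReal (ε / 2) + ENNReal.ofReal (ε / 2) := by
        rw [ENNReal.ofReal_mul hs0.le, ← mul_assoc, hsi, one_mul]
    _ = ENNReal.ofReal ε := by
        rw [← ENNReal.ofReal_add (by linarith) (by linarith)]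
        congr 1
        ring

/-- `II` of the ball is at most `II f` plus a multiple of `∫_{B} (1 - f)` -/
theorem II_bal_le (m : ℕ) {r : ℝ} (hr : 0 ≤ r) :
    ∃ C : ℝ, 0 ≤ C ∧ ∀ (R : ℝ) (f : Eu m → ℝ≥0∞), Dens m R f →
      II m (bal m r) ≤ II m f + ENNReal.ofReal C * ∫⁻ x in ball (0 : Eu m) r, (1 - f x) := by
  rcases m with _ | n
  · refine ⟨0, le_refl _, fun R f hf => ?_⟩
    unfold II
    simp
  set B : Set (Eu (n + 1)) := ball 0 r with hB
  have hBm : MeasurableSet B := measurableSet_ball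
  have hBfin : volume B ≠ ∞ := measure_ball_lt_top.ne
  set C1 : ℝ := ((n + 1).factorial : ℝ) * r ^ (n + 1) with hC1
  set V : ℝ := (volume B).toReal with hV
  have hC10 : 0 ≤ C1 := by positivity
  have hV0 : 0 ≤ V := ENNReal.toReal_nonneg
  refine ⟨C1 * ((n + 1) * V ^ n), by positivity, fun R f hf => ?_⟩
  have hf1 : Measurable (B.indicator fun y => 1 - f y) :=
    (measurable_const.sub hf.meas).indicator hBm
  have hpt : ∀ x : Fin (n + 1) → Eu (n + 1),
      ENNReal.ofReal |(Matrix.of fun i j => x i j).det| * ∏ i, bal (n + 1) r (x i) ≤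
      ENNReal.ofReal |(Matrix.of fun i j => x i j).det| * ∏ i, f (x i) +
      ENNReal.ofReal C1 * ∑ i, ((B.indicator fun y => 1 - f y) (x i) *
        ∏ j : Fin n, B.indicator (1 : Eu (n + 1) → ℝ≥0∞) (x (i.succAbove j))) := by
    intro x
    by_cases hx : ∀ i, x i ∈ B
    · have h1 : ∏ i, bal (n + 1) r (x i) = 1 := by
        apply Finset.prod_eq_one
        intro i _
        exact indicator_of_mem (hx i) _
      have h2 : ∀ i, (B.indicator fun y => 1 - f y) (x i) *
          ∏ j : Fin n, B.indicator (1 : Eu (n + 1) → ℝ≥0∞) (x (i.succAbove j)) = 1 - f (x i) := by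
        intro i
        rw [indicator_of_mem (hx i), Finset.prod_eq_one, mul_one]
        intro j _
        exact indicator_of_mem (hx _) _
      have h3 : |(Matrix.of fun i j => x i j).det| ≤ C1 := by
        have h4 := Matrix.det_le (A := Matrix.of fun i j => x i j) (abv := AbsoluteValue.abs)
          (x := r) (fun i j => by
            have h5 : ‖x i j‖ ≤ ‖x i‖ := PiLp.norm_apply_le (x i) j
            have h6 : ‖x i‖ < r := by simpa [hB] using hx i
            exact (h5.trans h6.le))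
        simpa [hC1] using h4
      rw [h1, mul_one]
      simp only [h2]
      calc ENNReal.ofReal |(Matrix.of fun i j => x i j).det| =
          ENNReal.ofReal |(Matrix.of fun i j => x i j).det| * 1 := (mul_one _).symm
        _ ≤ ENNReal.ofReal |(Matrix.of fun i j => x i j).det| *
            (∏ i, f (x i) + ∑ i, (1 - f (x i))) := by
            gcongr
            exact close_prod_sum Finset.univ (fun i => f (x i)) (fun i => hf.le_one _)
        _ = ENNReal.ofReal |(Matrix.of fun i j => x i j).det| * ∏ i, f (x i) +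
            ENNReal.ofReal |(Matrix.of fun i j => x i j).det| * ∑ i, (1 - f (x i)) := mul_add _ _ _
        _ ≤ _ := by
            gcongr
    · push Not at hx
      obtain ⟨i, hi⟩ := hx
      have h1 : ∏ i, bal (n + 1) r (x i) = 0 :=
        Finset.prod_eq_zero (Finset.mem_univ i) (indicator_of_notMem hi _)
      rw [h1, mul_zero]
      exact zero_le
  unfold II
  refine (lintegral_mono hpt).trans ?_
  have hm1 : ∀ i : Fin (n + 1), Measurable (fun x : Fin (n + 1) → Eu (n + 1) =>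
      (B.indicator fun y => 1 - f y) (x i) *
        ∏ j : Fin n, B.indicator (1 : Eu (n + 1) → ℝ≥0∞) (x (i.succAbove j))) := by
    intro i
    have hind : Measurable (B.indicator (1 : Eu (n + 1) → ℝ≥0∞)) := measurable_one.indicator hBm
    fun_prop
  rw [lintegral_add_right _ ((Finset.measurable_fun_sum _ fun i _ => hm1 i).const_mul _),
    lintegral_const_mul _ (Finset.measurable_fun_sum _ fun i _ => hm1 i),
    lintegral_finsetSum _ (fun i _ => hm1 i)]
  simp only [close_prodint _ hf1 hBm]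
  rw [lintegral_indicator hBm, Finset.sum_const, Finset.card_univ, Fintype.card_fin, nsmul_eq_mul]
  refine add_le_add le_rfl (le_of_eq ?_)
  have hVv : volume B = ENNReal.ofReal V := (ENNReal.ofReal_toReal hBfin).symm
  have h7 : ENNReal.ofReal ((n : ℝ) + 1) = ((n + 1 : ℕ) : ℝ≥0∞) := by
    rw [← ENNReal.ofReal_natCast]
    push_cast
    rfl
  have h8 : ENNReal.ofReal (C1 * ((n + 1) * V ^ n)) =
      ENNReal.ofReal C1 * (((n + 1 : ℕ) : ℝ≥0∞) * ENNReal.ofReal V ^ n) := by
    rw [ENNReal.ofReal_mul hC10, ENNReal.ofReal_mul (p := (n : ℝ) + 1) (by positivity),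
      ENNReal.ofReal_pow hV0, h7]
  rw [hVv, h8]
  ring

end StarMM
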