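import Mathlib

/-!
# MP_f3a9fd_gt, moment method: definitions

`Eu m = ℝ^m`, the random simplex functional `II`, Steiner symmetrisation `symm` along the axis `0`
(for densities `0 ≤ f ≤ 1`: every line is filled up to a centred interval), second moment `EE2`,
pair functionals `PP` (in one direction) and `QQ`.
-/

open MeasureTheory Set Metric Module
open scoped ENNReal RealInnerProductSpace

namespace StarMM

/-- `ℝ^m` -/
abbrev Eu (m : ℕ) := EuclideanSpace ℝ (Fin m)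

/-- `∫ |det(x_1,…,x_m)| f(x_1)⋯f(x_m) dx`, the random simplex functional. -/
noncomputable def II (m : ℕ) (f : Eu m → ℝ≥0∞) : ℝ≥0∞ :=
  ∫⁻ x : Fin m → Eu m, ENNReal.ofReal |(Matrix.of fun i j => x i j).det| * ∏ i, f (x i)

/-- the point of `ℝ^{m+1}` with coordinate `0` equal to `t` and the others given by `y` -/
noncomputable def pt {m : ℕ} (t : ℝ) (y : Fin m → ℝ) : Eu (m + 1) :=
  WithLp.toLp 2 (Fin.cons t y : Fin (m + 1) → ℝ)

/-- integral of `f` over the line parallel to the axis `0` through `(0,y)` -/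
noncomputable def len {m : ℕ} (f : Eu (m + 1) → ℝ≥0∞) (y : Fin m → ℝ) : ℝ≥0∞ :=
  ∫⁻ t : ℝ, f (pt t y)

/-- Steiner symmetrisation along the axis `0`, with filling up: the indicator function of
`{x : 2 |x_0| < len f (x_1,…,x_m)}` -/
noncomputable def symm {m : ℕ} (f : Eu (m + 1) → ℝ≥0∞) : Eu (m + 1) → ℝ≥0∞ :=
  {x : Eu (m + 1) | ENNReal.ofReal (2 * |x 0|) < len f (fun j => x j.succ)}.indicator 1

/-- bounded densities: measurable, `≤ 1`, supported in the closed ball of radius `R` -/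
structure Dens (m : ℕ) (R : ℝ) (f : Eu m → ℝ≥0∞) : Prop where
  meas : Measurable f
  le_one : ∀ x, f x ≤ 1
  supp : ∀ x, R < ‖x‖ → f x = 0

/-- second moment -/
noncomputable def EE2 (m : ℕ) (f : Eu m → ℝ≥0∞) : ℝ≥0∞ := ∫⁻ x, ENNReal.ofReal (‖x‖ ^ 2) * f x

/-- pair functional -/
noncomputable def QQ (m : ℕ) (f : Eu m → ℝ≥0∞) : ℝ≥0∞ :=
  ∫⁻ x : Eu m, ∫⁻ z : Eu m, f x * (1 - f (x + z)) * ENNReal.ofReal (‖x‖ ^ 2 - ‖x + z‖ ^ 2)

/-- pair functional in the direction `u` -/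
noncomputable def PP (m : ℕ) (f : Eu m → ℝ≥0∞) (u : Eu m) : ℝ≥0∞ :=
  ∫⁻ x : Eu m, ∫⁻ s : ℝ, f x * (1 - f (x + s • u)) *
    ENNReal.ofReal (‖x‖ ^ 2 - ‖x + s • u‖ ^ 2)

/-- indicator function of the open ball of radius `r` -/
noncomputable def bal (m : ℕ) (r : ℝ) : Eu m → ℝ≥0∞ := (ball (0 : Eu m) r).indicator 1

/-- `ℝ^d × ℝ` with its Euclidean norm -/
abbrev EP (d : ℕ) := WithLp 2 (EuclideanSpace ℝ (Fin d) × ℝ)

/-- chart mean: `∫ h(y,-1) (1+|y|²)^{-(d+1)/2} dy`; for even `h`, homogeneous of degree `0`, this is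
half of the integral of `h` over the unit sphere -/
noncomputable def cm (d : ℕ) (h : EP d → ℝ≥0∞) : ℝ≥0∞ :=
  ∫⁻ y : Eu d, ENNReal.ofReal ((1 + ‖y‖ ^ 2) ^ (-((d : ℝ) + 1) / 2)) *
    h (WithLp.toLp 2 (y, (-1 : ℝ)))

end StarMM
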