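import Pool.Agent.StarMM.Simplex
import Pool.Agent.StarMM.BP
import Pool.Agent.StarMM.Chart

/-! # Module L: the endpoint inequality (Busemann's intersection inequality) -/

open MeasureTheory Set Metric Module
open scoped ENNReal RealInnerProductSpace

namespace StarMM

open StarIB

/-- even functions on the line -/
theorem lintegral_even (g : ℝ → ℝ≥0∞) (hg : Measurable g) :
    ∫⁻ s : ℝ, g |s| = 2 * ∫⁻ s in Ioi (0 : ℝ), g s := by
  set h : ℝ → ℝ≥0∞ := (Ioi (0 : ℝ)).indicator g with hh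
  have hm : Measurable h := hg.indicator measurableSet_Ioi
  have hi : ∫⁻ s, h s = ∫⁻ s in Ioi (0 : ℝ), g s := by
    rw [hh, lintegral_indicator measurableSet_Ioi]
  have h1 : ∀ᵐ s : ℝ, g |s| = h s + h (-s) := by
    have h0 : ∀ᵐ s : ℝ, s ≠ 0 := by simp [ae_iff]
    filter_upwards [h0] with s hs
    rcases lt_or_gt_of_ne hs with h' | h'
    · rw [abs_of_neg h', hh, indicator_of_notMem (by simp [h'.le]), indicator_of_mem (by simp [h']),
        zero_add]
    · rw [abs_of_pos h', hh, indicator_of_mem (by simpa using h'), indicator_of_notMem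
        (by simp [h'.le]), add_zero]
  rw [lintegral_congr_ae h1, lintegral_add_left hm,
    (Measure.measurePreserving_neg (volume : Measure ℝ)).lintegral_comp hm, hi, two_mul]

/-- the body with `ρ^d = F` -/
def KF (d : ℕ) (F : EP d → ℝ) : Set (EP d) := {y | y = 0 ∨ ‖y‖ ^ (d : ℝ) < F y}

section KFsec

variable {d : ℕ} (hd : 1 ≤ d) (F : EP d → ℝ)
    (contF : ContinuousOn F {x | x ≠ 0}) (posF : ∀ x, x ≠ 0 → 0 < F x)
    (homF : ∀ x, x ≠ 0 → ∀ s : ℝ, s ≠ 0 → F (s • x) = F x)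

include hd contF posF homF

theorem measurableSet_KF : MeasurableSet (KF d F) := by
  have : Nontrivial (EP d) := by
    apply Module.nontrivial_of_finrank_pos (R := ℝ)
    rw [Ident.finrank_EE]; omega
  apply IsOpen.measurableSet
  exact Ident.isOpen_K (d : ℝ) (by exact_mod_cast hd) F (fun x hx s hs => homF x hx s hs.ne')
    contF posF

theorem tot_KF : ∫⁻ x, (KF d F).indicator 1 x =
    ENNReal.ofReal (2 / ((d : ℝ) + 1)) *
      cm d (fun x => ENNReal.ofReal (F x ^ (((d : ℝ) + 1) / d))) := by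
  have hd0 : (0 : ℝ) < d := by exact_mod_cast hd
  have hK := measurableSet_KF hd F contF posF homF
  rw [chart_polar d _ (measurable_one.indicator hK), cm, ← lintegral_const_mul']
  swap
  · exact ENNReal.ofReal_ne_top
  apply lintegral_congr
  intro y
  set w : EP d := WithLp.toLp 2 (y, (-1 : ℝ)) with hw
  have hw0 : w ≠ 0 := Ident.toLp_ne y
  have hN : ‖w‖ = √(1 + ‖y‖ ^ 2) := by
    rw [hw, Ident.norm_toLp]
    congr 1
    simp only
    ring
  have hp : (0 : ℝ) < 1 + ‖y‖ ^ 2 := by positivity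
  have hNpos : 0 < ‖w‖ := norm_pos_iff.2 hw0
  have hFw := posF w hw0
  set b : ℝ := F w ^ ((d : ℝ)⁻¹) / ‖w‖ with hb
  have hb0 : 0 < b := by positivity
  have h1 : ∀ s : ℝ, ENNReal.ofReal (|s| ^ d) * (KF d F).indicator 1 (s • w) =
      (fun r : ℝ => ENNReal.ofReal (r ^ (d + 1 - 1)) * (Iio b).indicator 1 r) |s| := by
    intro s
    simp only [Nat.add_sub_cancel]
    by_cases hs : s = 0
    · subst hs
      simp [show d ≠ 0 by omega]
    · congr 1
      have hiff : s • w ∈ KF d F ↔ |s| ∈ Iio b := by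
        have hsw : s • w ≠ 0 := smul_ne_zero hs hw0
        have hs' : 0 < |s| := abs_pos.2 hs
        rw [KF, mem_ofPred_eq, or_iff_right hsw, homF w hw0 s hs, norm_smul, Real.norm_eq_abs,
          mem_Iio, hb, lt_div_iff₀ hNpos,
          Real.lt_rpow_inv_iff_of_pos (by positivity) hFw.le hd0]
      by_cases h : |s| ∈ Iio b
      · rw [indicator_of_mem h, indicator_of_mem (hiff.2 h)]; rfl
      · rw [indicator_of_notMem h, indicator_of_notMem (fun h' => h (hiff.1 h'))]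
  rw [lintegral_congr h1, lintegral_even (fun r : ℝ => ENNReal.ofReal (r ^ (d + 1 - 1)) *
      (Iio b).indicator 1 r) (by
    apply Measurable.mul (by fun_prop)
    exact measurable_one.indicator measurableSet_Iio), Ident.int_lt (d + 1) (by omega) b hb0.le,
    ← ENNReal.ofReal_mul (by positivity), ← ENNReal.ofReal_mul (by positivity)]
  have h2 : ∀ X : ℝ, (2 : ℝ≥0∞) * ENNReal.ofReal X = ENNReal.ofReal (2 * X) := fun X => by
    rw [ENNReal.ofReal_mul (by norm_num)]; simp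
  rw [h2]
  congr 1
  have h3 : b ^ (d + 1) = (1 + ‖y‖ ^ 2) ^ (-((d : ℝ) + 1) / 2) * F w ^ (((d : ℝ) + 1) / d) := by
    rw [hb, div_pow, ← Real.rpow_natCast, ← Real.rpow_mul hFw.le, hN, Real.sqrt_eq_rpow,
      ← Real.rpow_natCast, ← Real.rpow_mul hp.le, div_eq_mul_inv, ← Real.rpow_neg hp.le, mul_comm]
    congr 2
    · push_cast; ring
    · push_cast; field_simp
  rw [h3]
  push_cast
  field_simp

theorem sec_KF (a : Eu d) :
    ∫⁻ y : Eu d, (KF d F).indicator 1 (WithLp.toLp 2 (y, ⟪y, a⟫)) =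
      ENNReal.ofReal ((1 + ‖a‖ ^ 2) ^ (-(1 : ℝ) / 2)) * (ENNReal.ofReal ((d : ℝ)⁻¹) *
        lsph (fun x => ENNReal.ofReal (F x)) (WithLp.toLp 2 (a, (-1 : ℝ)))) := by
  have hd0 : (0 : ℝ) < d := by exact_mod_cast hd
  have hK := measurableSet_KF hd F contF posF homF
  have hm : Measurable (fun p : EuclideanSpace ℝ (Fin d) × ℝ =>
      (KF d F).indicator (1 : EP d → ℝ≥0∞) (WithLp.toLp 2 p)) :=
    (measurable_one.indicator hK).comp (WithLp.measurable_toLp ..)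
  have h := Ident.sec_polar hd (fun p : EuclideanSpace ℝ (Fin d) × ℝ =>
      (KF d F).indicator (1 : EP d → ℝ≥0∞) (WithLp.toLp 2 p)) hm a
  unfold sec at h
  rw [h]
  congr 1
  unfold lsph
  rw [← lintegral_const_mul' _ _ ENNReal.ofReal_ne_top]
  apply lintegral_congr
  intro θ
  have hθ : ‖((θ : (ℝ ∙ (WithLp.toLp 2 (a, (-1 : ℝ)) : EP d))ᗮ) : EP d)‖ = 1 := by
    have := θ.2
    rw [mem_sphere_zero_iff_norm] at this
    exact this
  have h2 := Ident.radial_K d hd (d : ℝ) hd0 F (fun x hx s hs => homF x hx s hs.ne') posF _ hθ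
  rw [div_self hd0.ne', Real.rpow_one] at h2
  rw [← ENNReal.ofReal_mul (by positivity), inv_mul_eq_div, ← h2]
  rfl

end KFsec

/-- a linear automorphism with `‖A y‖² = ‖y‖² + ⟨y,a⟩²` -/
theorem exists_lin (d : ℕ) (a : Eu d) :
    ∃ A : Eu d ≃ₗ[ℝ] Eu d, ∀ y, ‖A y‖ ^ 2 = ‖y‖ ^ 2 + ⟪y, a⟫ ^ 2 := by
  set W := (ℝ ∙ (WithLp.toLp 2 (a, (-1 : ℝ)) : EP d))ᗮ with hW
  have h1 : (-1 : ℝ) ≠ 0 := by norm_num
  have hfin : finrank ℝ W = finrank ℝ (Eu d) := (orthT a (-1 : ℝ) h1).finrank_eq.symm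
  set bW : OrthonormalBasis (Fin (finrank ℝ (Eu d))) ℝ W :=
    (stdOrthonormalBasis ℝ W).reindex (finCongr hfin)
  set Ψ : Eu d ≃ₗᵢ[ℝ] W := (stdOrthonormalBasis ℝ (Eu d)).repr.trans bW.repr.symm with hΨ
  refine ⟨(orthT a (-1 : ℝ) h1).trans Ψ.symm.toLinearEquiv, fun y => ?_⟩
  have h2 : ‖((orthT a (-1 : ℝ) h1).trans Ψ.symm.toLinearEquiv) y‖ = ‖orthT a (-1 : ℝ) h1 y‖ := by
    rw [LinearEquiv.trans_apply]
    exact Ψ.symm.norm_map _
  rw [h2, ← real_inner_self_eq_norm_sq, orthT_inner, real_inner_self_eq_norm_sq, real_inner_comm]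
  ring

/-- sections of the unit ball are ellipsoids -/
theorem ball_sec (d : ℕ) (a : Eu d) (A : Eu d ≃ₗ[ℝ] Eu d)
    (hA : ∀ y, ‖A y‖ ^ 2 = ‖y‖ ^ 2 + ⟪y, a⟫ ^ 2) (hd : 1 ≤ d) (y : Eu d) :
    (KF d (fun _ => 1)).indicator (1 : EP d → ℝ≥0∞) (WithLp.toLp 2 (y, ⟪y, a⟫)) =
      bal d 1 (A y) := by
  have hd0 : (0 : ℝ) < d := by exact_mod_cast hd
  have hn : ‖(WithLp.toLp 2 (y, ⟪y, a⟫) : EP d)‖ = ‖A y‖ := by
    rw [← sq_eq_sq₀ (norm_nonneg _) (norm_nonneg _), hA, Ident.norm_toLp_sq]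
  have hiff : (WithLp.toLp 2 (y, ⟪y, a⟫) : EP d) ∈ KF d (fun _ => 1) ↔ A y ∈ ball (0 : Eu d) 1 := by
    rw [KF, mem_ofPred_eq, mem_ball_zero_iff, ← hn]
    constructor
    · rintro (h | h)
      · rw [h, norm_zero]; exact one_pos
      · by_contra hcon
        rw [not_lt] at hcon
        exact absurd h (not_lt.2 (Real.one_le_rpow hcon hd0.le))
    · intro h
      by_cases h0 : (WithLp.toLp 2 (y, ⟪y, a⟫) : EP d) = 0
      · exact Or.inl h0
      · right
        exact Real.rpow_lt_one (norm_nonneg _) h hd0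
  unfold bal
  by_cases h : A y ∈ ball (0 : Eu d) 1
  · rw [indicator_of_mem h, indicator_of_mem (hiff.2 h)]; rfl
  · rw [indicator_of_notMem h, indicator_of_notMem (fun h' => h (hiff.1 h'))]

/-- `∫ |section|^{d+1}` in terms of the Radon transform of `F` -/
theorem int_sec_pow {d : ℕ} (hd : 1 ≤ d) (F : EP d → ℝ)
    (contF : ContinuousOn F {x | x ≠ 0}) (posF : ∀ x, x ≠ 0 → 0 < F x)
    (homF : ∀ x, x ≠ 0 → ∀ s : ℝ, s ≠ 0 → F (s • x) = F x) :
    ∫⁻ a : Eu d, (∫⁻ y : Eu d, (KF d F).indicator 1 (WithLp.toLp 2 (y, ⟪y, a⟫))) ^ (d + 1) =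
      ENNReal.ofReal ((d : ℝ)⁻¹) ^ (d + 1) *
        cm d (fun x => (lsph (fun z => ENNReal.ofReal (F z)) x) ^ (d + 1)) := by
  rw [cm, ← lintegral_const_mul' _ _ (ENNReal.pow_ne_top ENNReal.ofReal_ne_top)]
  apply lintegral_congr
  intro a
  rw [sec_KF hd F contF posF homF a, mul_pow, mul_pow, ← ENNReal.ofReal_pow (by positivity)]
  have hp : (0 : ℝ) < 1 + ‖a‖ ^ 2 := by positivity
  have e1 : ((1 + ‖a‖ ^ 2) ^ (-(1 : ℝ) / 2)) ^ (d + 1) = (1 + ‖a‖ ^ 2) ^ (-((d : ℝ) + 1) / 2) := by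
    rw [← Real.rpow_natCast, ← Real.rpow_mul hp.le]
    congr 1
    push_cast
    ring
  rw [e1]
  ring

theorem bp_KF {d : ℕ} (hd : 1 ≤ d) (F : EP d → ℝ)
    (contF : ContinuousOn F {x | x ≠ 0}) (posF : ∀ x, x ≠ 0 → 0 < F x)
    (homF : ∀ x, x ≠ 0 → ∀ s : ℝ, s ≠ 0 → F (s • x) = F x) :
    (ENNReal.ofReal (2 / ((d : ℝ) + 1)) *
      cm d (fun x => ENNReal.ofReal (F x ^ (((d : ℝ) + 1) / d)))) ^ d =
    ∫⁻ a : Eu d, II d (fun y => (KF d F).indicator 1 (WithLp.toLp 2 (y, ⟪y, a⟫))) := by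
  have hK := measurableSet_KF hd F contF posF homF
  have hm : Measurable (fun p : Eu d × ℝ => (KF d F).indicator (1 : EP d → ℝ≥0∞)
      (WithLp.toLp 2 p)) := (measurable_one.indicator hK).comp (WithLp.measurable_toLp ..)
  have h := bp d _ hm
  rw [← h, ← tot_KF hd F contF posF homF, lintegral_prodLp _ (measurable_one.indicator hK)]

/-- The normalised Radon transform `F ↦ lsph F / ω` maps `L^{(d+1)/d}` to `L^{d+1}` with norm `1`. -/
theorem endpoint (d : ℕ) (hd : 2 ≤ d) (ω : ℝ) (hω : 0 < ω)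
    (hω' : ∀ w : EP d, w ≠ 0 → lsph (fun _ : EP d => 1) w = ENNReal.ofReal ω)
    (F : EP d → ℝ) (contF : ContinuousOn F {x | x ≠ 0}) (posF : ∀ x, x ≠ 0 → 0 < F x)
    (homF : ∀ x, x ≠ 0 → ∀ s : ℝ, s ≠ 0 → F (s • x) = F x) :
    cm d (fun x => (lsph (fun z => ENNReal.ofReal (F z)) x / ENNReal.ofReal ω) ^ (d + 1)) *
        (cm d (fun _ => 1)) ^ (d - 1) ≤
      (cm d (fun x => ENNReal.ofReal (F x ^ (((d : ℝ) + 1) / d)))) ^ d := by
  have hd1 : 1 ≤ d := by omega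
  have hd0 : (0 : ℝ) < d := by exact_mod_cast hd1
  obtain ⟨κ, hκ, hle, heq⟩ := simplex d hd1
  -- equality for the unit ball
  have hball : (ENNReal.ofReal (2 / ((d : ℝ) + 1)) * cm d (fun _ => 1)) ^ d =
      ENNReal.ofReal κ * (ENNReal.ofReal ((d : ℝ)⁻¹) ^ (d + 1) * (ENNReal.ofReal ω ^ (d + 1) *
        cm d (fun _ => 1))) := by
    have c1 : ContinuousOn (fun _ : EP d => (1 : ℝ)) {x | x ≠ 0} := continuousOn_const
    have h1 := bp_KF hd1 (fun _ : EP d => (1 : ℝ)) c1 (fun _ _ => one_pos) (fun _ _ _ _ => rfl)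
    have h2 := int_sec_pow hd1 (fun _ : EP d => (1 : ℝ)) c1 (fun _ _ => one_pos)
      (fun _ _ _ _ => rfl)
    simp only [Real.one_rpow, ENNReal.ofReal_one] at h1 h2
    have h3 : cm d (fun x => (lsph (fun _ : EP d => 1) x) ^ (d + 1)) =
        ENNReal.ofReal ω ^ (d + 1) * cm d (fun _ => 1) := by
      unfold cm
      rw [← lintegral_const_mul' _ _ (ENNReal.pow_ne_top ENNReal.ofReal_ne_top)]
      apply lintegral_congr
      intro y
      dsimp only
      rw [hω' _ (Ident.toLp_ne y)]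
      ring
    rw [h1, ← h3, ← h2, ← lintegral_const_mul' _ _ ENNReal.ofReal_ne_top]
    apply lintegral_congr
    intro a
    obtain ⟨A, hA⟩ := exists_lin d a
    have h4 : ∀ y : Eu d, (KF d (fun _ => 1)).indicator (1 : EP d → ℝ≥0∞)
        (WithLp.toLp 2 (y, ⟪y, a⟫)) = bal d 1 (A y) := ball_sec d a A hA hd1
    have h5 : (fun y : Eu d => (KF d (fun _ => 1)).indicator (1 : EP d → ℝ≥0∞)
        (WithLp.toLp 2 (y, ⟪y, a⟫))) = fun y => bal d 1 (A y) := funext h4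
    rw [h5, heq A]
  -- the inequality for `F`
  have hF : ENNReal.ofReal κ * (ENNReal.ofReal ((d : ℝ)⁻¹) ^ (d + 1) *
      cm d (fun x => (lsph (fun z => ENNReal.ofReal (F z)) x) ^ (d + 1))) ≤
      (ENNReal.ofReal (2 / ((d : ℝ) + 1)) *
        cm d (fun x => ENNReal.ofReal (F x ^ (((d : ℝ) + 1) / d)))) ^ d := by
    rw [bp_KF hd1 F contF posF homF, ← int_sec_pow hd1 F contF posF homF,
      ← lintegral_const_mul' _ _ ENNReal.ofReal_ne_top]
    apply lintegral_mono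
    intro a
    have hnt : Nontrivial (EP d) := by
      apply Module.nontrivial_of_finrank_pos (R := ℝ)
      rw [Ident.finrank_EE]; omega
    obtain ⟨m, M, hm, hmM, hb⟩ := Ident.exists_bounds F (fun x hx s hs => homF x hx s hs.ne')
      contF posF
    have hK := measurableSet_KF hd1 F contF posF homF
    apply hle (M ^ ((d : ℝ)⁻¹))
    refine ⟨?_, fun y => ?_, fun y hy => ?_⟩
    · apply (measurable_one.indicator hK).comp
      apply (WithLp.measurable_toLp ..).comp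
      fun_prop
    · by_cases h : (WithLp.toLp 2 (y, ⟪y, a⟫) : EP d) ∈ KF d F
      · rw [indicator_of_mem h]; rfl
      · rw [indicator_of_notMem h]; exact zero_le_one
    · rw [indicator_of_notMem]
      have hM0 : 0 < M := hm.trans_le hmM
      have hyn : ‖y‖ ≤ ‖(WithLp.toLp 2 (y, ⟪y, a⟫) : EP d)‖ := by
        rw [Ident.norm_toLp]
        apply Real.le_sqrt_of_sq_le
        simp only
        nlinarith [sq_nonneg (⟪y, a⟫ : ℝ)]
      have hpos : 0 < ‖(WithLp.toLp 2 (y, ⟪y, a⟫) : EP d)‖ :=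
        lt_of_lt_of_le (lt_of_le_of_lt (by positivity) hy) hyn
      rintro (h | h)
      · rw [h, norm_zero] at hpos; exact lt_irrefl _ hpos
      · have h1 := (hb _ (norm_pos_iff.1 hpos)).2
        have h2 : ‖(WithLp.toLp 2 (y, ⟪y, a⟫) : EP d)‖ ^ (d : ℝ) < M := lt_of_lt_of_le h h1
        rw [← Real.lt_rpow_inv_iff_of_pos hpos.le hM0.le hd0] at h2
        exact absurd (lt_of_lt_of_le hy hyn) (not_lt.2 h2.le)
  -- combine
  set X := cm d (fun x => (lsph (fun z => ENNReal.ofReal (F z)) x / ENNReal.ofReal ω) ^ (d + 1))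
    with hX
  set Y := cm d (fun x => ENNReal.ofReal (F x ^ (((d : ℝ) + 1) / d))) with hY
  set O := cm d (fun _ => 1) with hO
  obtain ⟨hO0, hOt⟩ := cm_one d
  rw [← hO] at hO0 hOt
  have hω0 : ENNReal.ofReal ω ≠ 0 := by rw [Ne, ENNReal.ofReal_eq_zero, not_le]; exact hω
  have hXe : cm d (fun x => (lsph (fun z => ENNReal.ofReal (F z)) x) ^ (d + 1)) =
      ENNReal.ofReal ω ^ (d + 1) * X := by
    rw [hX]
    unfold cm
    rw [← lintegral_const_mul' _ _ (ENNReal.pow_ne_top ENNReal.ofReal_ne_top)]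
    apply lintegral_congr
    intro y
    dsimp only
    rw [ENNReal.div_eq_inv_mul, mul_pow, mul_left_comm, ← mul_assoc (ENNReal.ofReal ω ^ (d + 1)),
      ← mul_pow, ENNReal.mul_inv_cancel hω0 ENNReal.ofReal_ne_top, one_pow, one_mul]
  rw [hXe] at hF
  set k : ℝ≥0∞ := ENNReal.ofReal κ * (ENNReal.ofReal ((d : ℝ)⁻¹) ^ (d + 1) *
    ENNReal.ofReal ω ^ (d + 1)) with hk
  set t : ℝ≥0∞ := ENNReal.ofReal (2 / ((d : ℝ) + 1)) with ht
  have ht0 : t ≠ 0 := by rw [ht, Ne, ENNReal.ofReal_eq_zero, not_le]; positivity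
  have htt : t ≠ ∞ := ENNReal.ofReal_ne_top
  have hb2 : (t ^ d * O ^ (d - 1)) * O = k * O := by
    rw [mul_assoc, ← pow_succ, Nat.sub_add_cancel hd1, ← mul_pow, hball, hk]
    ring
  have hb3 : t ^ d * O ^ (d - 1) = k := (ENNReal.mul_left_inj hO0 hOt).1 hb2
  have hF2 : k * X ≤ t ^ d * Y ^ d := by
    rw [← mul_pow]
    refine le_trans (le_of_eq ?_) hF
    rw [hk]; ring
  rw [← hb3] at hF2
  have htd : t ^ d ≠ 0 := pow_ne_zero _ ht0
  have htd' : t ^ d ≠ ∞ := ENNReal.pow_ne_top htt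
  apply (ENNReal.mul_le_mul_iff_right htd htd').1
  refine le_trans (le_of_eq ?_) hF2
  ring

end StarMM
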