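import Mathlib

/-! # Module N: the moment method (abstract form)

Proof of `moment`. `M(s) = log ∫ f^s`, `L(s) = log ∫ g^s`, both convex by `lyapunov`, `M 0 = L 0 = 0`,
`L 1 = M i`, `M 1 = L i`, `M (i+1) = L (i+1) = μ`, `L (d+1) ≤ d * M (i (d+1)/d)`.
(1) Jensen (`i * M 1 ≤ M i`, `i * L 1 ≤ L i`): `M i ≥ i * M 1 = i * L i ≥ i² * L 1 = i² * M i`, so
`M i ≤ 0`; likewise `L i ≤ 0`. (2) convexity of `M` on `i ≤ i + i/d ≤ i+1`:
`d M(i+i/d) ≤ (d-i) M i + i μ`; convexity of `L` on `i ≤ i+1 ≤ d+1`: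
`(d+1-i) μ ≤ (d-i) L i + L (d+1)`; so `(d+1-2i) μ ≤ (d-i) (M i + L i)`. (3) convexity on
`1 ≤ i ≤ i+1`: `i M i ≤ M 1 + (i-1) μ`, `i L i ≤ L 1 + (i-1) μ`, so `M i + L i ≤ 2 μ`. (2), (3) give
`(1-d) μ ≤ 0`, `μ ≥ 0`, then (2) with `d+1-2i ≥ 0` and `M i, L i ≤ 0` gives `M i = L i = 0` (note
`d - i > 0`). So `∫ f = ∫ f^i = 1` and `x^i - 1 - i (x-1) ≥ 0` with equality only at `x = 1`. -/

open MeasureTheory Set
open scoped ENNReal

namespace StarMM

private theorem mo_bounds (m M : ℝ) (hm : 0 < m) (hmM : m ≤ M) (s : ℝ) :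
    0 < min (m ^ s) (M ^ s) ∧ ∀ x, m ≤ x → x ≤ M →
      min (m ^ s) (M ^ s) ≤ x ^ s ∧ x ^ s ≤ max (m ^ s) (M ^ s) := by
  have hM : 0 < M := hm.trans_le hmM
  refine ⟨lt_min (Real.rpow_pos_of_pos hm _) (Real.rpow_pos_of_pos hM _), fun x h1 h2 => ?_⟩
  have hx : 0 < x := hm.trans_le h1
  rcases le_total 0 s with hs | hs
  · exact ⟨(min_le_left _ _).trans (Real.rpow_le_rpow hm.le h1 hs),
      (Real.rpow_le_rpow hx.le h2 hs).trans (le_max_right _ _)⟩
  · exact ⟨(min_le_right _ _).trans (Real.rpow_le_rpow_of_nonpos hx h2 hs),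
      (Real.rpow_le_rpow_of_nonpos hm h1 hs).trans (le_max_left _ _)⟩

private theorem mo_int {Ω : Type*} [MeasurableSpace Ω] (P : Measure Ω) [IsProbabilityMeasure P]
    (f : Ω → ℝ) (hf : Measurable f) (m M : ℝ) (hm : 0 < m) (hb : ∀ x, m ≤ f x ∧ f x ≤ M) (s : ℝ) :
    Integrable (fun x => f x ^ s) P ∧ 0 < ∫ x, f x ^ s ∂P := by
  obtain ⟨ω⟩ := nonempty_of_isProbabilityMeasure P
  have hmM : m ≤ M := (hb ω).1.trans (hb ω).2
  obtain ⟨h0, h1⟩ := mo_bounds m M hm hmM s
  have hint : Integrable (fun x => f x ^ s) P := by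
    refine Integrable.of_bound (hf.pow_const s).aestronglyMeasurable (max (m ^ s) (M ^ s))
      (Filter.Eventually.of_forall fun x => ?_)
    have h2 := h1 (f x) (hb x).1 (hb x).2
    rw [Real.norm_of_nonneg (h0.le.trans h2.1)]
    exact h2.2
  refine ⟨hint, h0.trans_le ?_⟩
  have h2 : ∫ _ : Ω, min (m ^ s) (M ^ s) ∂P ≤ ∫ x, f x ^ s ∂P :=
    integral_mono (integrable_const _) hint fun x => (h1 (f x) (hb x).1 (hb x).2).1
  simpa using h2

/-- Lyapunov's inequality -/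
theorem lyapunov {Ω : Type*} [MeasurableSpace Ω] (P : Measure Ω) [IsProbabilityMeasure P]
    (f : Ω → ℝ) (hf : Measurable f) (m M : ℝ) (hm : 0 < m) (hb : ∀ x, m ≤ f x ∧ f x ≤ M)
    (a b θ : ℝ) (h0 : 0 ≤ θ) (h1 : θ ≤ 1) :
    Real.log (∫ x, f x ^ ((1 - θ) * a + θ * b) ∂P) ≤
      (1 - θ) * Real.log (∫ x, f x ^ a ∂P) + θ * Real.log (∫ x, f x ^ b ∂P) := by
  obtain ⟨ia, pa⟩ := mo_int P f hf m M hm hb a
  obtain ⟨ib, pb⟩ := mo_int P f hf m M hm hb b
  obtain ⟨ic, pc⟩ := mo_int P f hf m M hm hb ((1 - θ) * a + θ * b)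
  set A := ∫ x, f x ^ a ∂P with hA
  set B := ∫ x, f x ^ b ∂P with hB
  have hD : 0 < A ^ (1 - θ) * B ^ θ := by positivity
  have hpt : ∀ x, f x ^ ((1 - θ) * a + θ * b) ≤
      A ^ (1 - θ) * B ^ θ * ((1 - θ) * (f x ^ a / A) + θ * (f x ^ b / B)) := by
    intro x
    have hx : 0 < f x := hm.trans_le (hb x).1
    have h2 := Real.geom_mean_le_arith_mean2_weighted (sub_nonneg.2 h1) h0
      (show 0 ≤ f x ^ a / A by positivity) (show 0 ≤ f x ^ b / B by positivity) (by ring)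
    have h3 : f x ^ ((1 - θ) * a + θ * b) =
        A ^ (1 - θ) * B ^ θ * ((f x ^ a / A) ^ (1 - θ) * (f x ^ b / B) ^ θ) := by
      rw [Real.div_rpow (by positivity) pa.le, Real.div_rpow (by positivity) pb.le,
        ← Real.rpow_mul hx.le, ← Real.rpow_mul hx.le, Real.rpow_add hx,
        mul_comm (1 - θ) a, mul_comm θ b]
      field_simp
    rw [h3]
    exact mul_le_mul_of_nonneg_left h2 hD.le
  have hint : ∫ x, f x ^ ((1 - θ) * a + θ * b) ∂P ≤ A ^ (1 - θ) * B ^ θ := by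
    have h4 : Integrable (fun x => (1 - θ) * (f x ^ a / A) + θ * (f x ^ b / B)) P :=
      ((ia.div_const _).const_mul _).add ((ib.div_const _).const_mul _)
    have h5 := integral_mono ic (h4.const_mul (A ^ (1 - θ) * B ^ θ)) hpt
    refine h5.trans (le_of_eq ?_)
    rw [integral_const_mul, integral_add ((ia.div_const _).const_mul _)
      ((ib.div_const _).const_mul _), integral_const_mul, integral_const_mul, integral_div,
      integral_div, ← hA, ← hB, div_self pa.ne', div_self pb.ne']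
    ring
  refine (Real.log_le_log pc hint).trans (le_of_eq ?_)
  rw [Real.log_mul (by positivity) (by positivity), Real.log_rpow pa, Real.log_rpow pb]

/-- with `M(s) = log ∫ f^s`, `Λ(s) = log ∫ g^s`: `M(i), Λ(i) ≤ 0`, `M(i+1) = Λ(i+1) = μ`,
`(d+1-2i) μ ≤ (d-i)(M(i)+Λ(i))`, `M(i)+Λ(i) ≤ 2 μ`, hence `μ = 0`, `M(i) = Λ(i) = 0`. -/
theorem moment {Ω : Type*} [MeasurableSpace Ω] (P : Measure Ω) [IsProbabilityMeasure P]
    (f g : Ω → ℝ) (hf : Measurable f) (hg : Measurable g) (m M : ℝ) (hm : 0 < m)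
    (hbf : ∀ x, m ≤ f x ∧ f x ≤ M) (hbg : ∀ x, m ≤ g x ∧ g x ≤ M)
    (d i : ℝ) (hd : 2 ≤ d) (hi : 1 < i) (hid : i ≤ (d + 1) / 2)
    (e1 : ∫ x, g x ∂P = ∫ x, f x ^ i ∂P) (e2 : ∫ x, f x ∂P = ∫ x, g x ^ i ∂P)
    (e3 : ∫ x, f x ^ (i + 1) ∂P = ∫ x, g x ^ (i + 1) ∂P)
    (e4 : ∫ x, g x ^ (d + 1) ∂P ≤ (∫ x, f x ^ (i * ((d + 1) / d)) ∂P) ^ d) :
    ∀ᵐ x ∂P, f x = 1 := by
  obtain ⟨F, hF⟩ : ∃ F : ℝ → ℝ, ∀ s, F s = Real.log (∫ x, f x ^ s ∂P) := ⟨_, fun _ => rfl⟩
  obtain ⟨G, hG⟩ : ∃ G : ℝ → ℝ, ∀ s, G s = Real.log (∫ x, g x ^ s ∂P) := ⟨_, fun _ => rfl⟩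
  have hd0 : 0 < d := by linarith
  have hi0 : 0 < i := by linarith
  have lF : ∀ a b θ, 0 ≤ θ → θ ≤ 1 → F ((1 - θ) * a + θ * b) ≤ (1 - θ) * F a + θ * F b := by
    intro a b θ h0 h1
    rw [hF, hF, hF]
    exact lyapunov P f hf m M hm hbf a b θ h0 h1
  have lG : ∀ a b θ, 0 ≤ θ → θ ≤ 1 → G ((1 - θ) * a + θ * b) ≤ (1 - θ) * G a + θ * G b := by
    intro a b θ h0 h1
    rw [hG, hG, hG]
    exact lyapunov P g hg m M hm hbg a b θ h0 h1
  have F0 : F 0 = 0 := by rw [hF]; simp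
  have G0 : G 0 = 0 := by rw [hG]; simp
  have r1 : G 1 = F i := by
    rw [hG, hF, ← e1]
    simp
  have r2 : F 1 = G i := by
    rw [hF, hG, ← e2]
    simp
  have r3 : F (i + 1) = G (i + 1) := by rw [hF, hG, e3]
  have r4 : G (d + 1) ≤ d * F (i * ((d + 1) / d)) := by
    rw [hG, hF, ← Real.log_rpow (mo_int P f hf m M hm hbf _).2]
    exact Real.log_le_log (mo_int P g hg m M hm hbg _).2 e4
  -- (1)
  have j1 : i * F 1 ≤ F i := by
    have h := lF 0 i (1 / i) (by positivity) (by rw [div_le_one hi0]; exact hi.le)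
    rw [F0, mul_zero, zero_add, zero_add, one_div, inv_mul_cancel₀ hi0.ne'] at h
    have h2 := mul_le_mul_of_nonneg_left h hi0.le
    rwa [← mul_assoc, mul_inv_cancel₀ hi0.ne', one_mul] at h2
  have j2 : i * G 1 ≤ G i := by
    have h := lG 0 i (1 / i) (by positivity) (by rw [div_le_one hi0]; exact hi.le)
    rw [G0, mul_zero, zero_add, zero_add, one_div, inv_mul_cancel₀ hi0.ne'] at h
    have h2 := mul_le_mul_of_nonneg_left h hi0.le
    rwa [← mul_assoc, mul_inv_cancel₀ hi0.ne', one_mul] at h2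
  rw [r2] at j1
  rw [r1] at j2
  have n1 : F i ≤ 0 := by
    by_contra hcon
    rw [not_le] at hcon
    have h2 := mul_le_mul_of_nonneg_left j2 hi0.le
    have h5 : 1 < i * i := by nlinarith
    have h3 : 1 * F i < i * i * F i := mul_lt_mul_of_pos_right h5 hcon
    linarith
  have n2 : G i ≤ 0 := by
    by_contra hcon
    rw [not_le] at hcon
    have h2 := mul_le_mul_of_nonneg_left j1 hi0.le
    have h5 : 1 < i * i := by nlinarith
    have h3 : 1 * G i < i * i * G i := mul_lt_mul_of_pos_right h5 hcon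
    linarith
  -- (2)
  have hlt : i < d := by linarith
  have k1 : d * F (i * ((d + 1) / d)) ≤ (d - i) * F i + i * F (i + 1) := by
    have h := lF i (i + 1) (i / d) (by positivity) (by rw [div_le_one hd0]; exact hlt.le)
    have e : (1 - i / d) * i + i / d * (i + 1) = i * ((d + 1) / d) := by
      field_simp
      ring
    rw [e] at h
    have h2 := mul_le_mul_of_nonneg_left h hd0.le
    refine h2.trans (le_of_eq ?_)
    field_simp
  have hdi : 0 < d + 1 - i := by linarith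
  have k2 : (d + 1 - i) * G (i + 1) ≤ (d - i) * G i + G (d + 1) := by
    have h := lG i (d + 1) (1 / (d + 1 - i)) (by positivity)
      (by rw [div_le_one hdi]; linarith)
    have e : (1 - 1 / (d + 1 - i)) * i + 1 / (d + 1 - i) * (d + 1) = i + 1 := by
      field_simp
      ring
    rw [e] at h
    have h2 := mul_le_mul_of_nonneg_left h hdi.le
    refine h2.trans (le_of_eq ?_)
    field_simp
    ring
  -- (3)
  have l1 : i * F i ≤ F 1 + (i - 1) * F (i + 1) := by
    have h := lF 1 (i + 1) ((i - 1) / i) (div_nonneg (by linarith) hi0.le)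
      (by rw [div_le_one hi0]; linarith)
    have e : (1 - (i - 1) / i) * 1 + (i - 1) / i * (i + 1) = i := by
      field_simp
      ring
    rw [e] at h
    have h2 := mul_le_mul_of_nonneg_left h hi0.le
    refine h2.trans (le_of_eq ?_)
    field_simp
    ring
  have l2 : i * G i ≤ G 1 + (i - 1) * G (i + 1) := by
    have h := lG 1 (i + 1) ((i - 1) / i) (div_nonneg (by linarith) hi0.le)
      (by rw [div_le_one hi0]; linarith)
    have e : (1 - (i - 1) / i) * 1 + (i - 1) / i * (i + 1) = i := by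
      field_simp
      ring
    rw [e] at h
    have h2 := mul_le_mul_of_nonneg_left h hi0.le
    refine h2.trans (le_of_eq ?_)
    field_simp
    ring
  rw [r2] at l1
  rw [r1] at l2
  have t1 : (d + 1 - 2 * i) * G (i + 1) ≤ (d - i) * (F i + G i) := by
    rw [r3] at k1
    linarith
  have t2 : F i + G i ≤ 2 * G (i + 1) := by
    rw [r3] at l1
    have h : (i - 1) * (F i + G i) ≤ (i - 1) * (2 * G (i + 1)) := by linarith
    exact le_of_mul_le_mul_left h (by linarith)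
  have t3 : 0 ≤ G (i + 1) := by
    have h := mul_le_mul_of_nonneg_left t2 (show 0 ≤ d - i by linarith)
    by_contra hcon
    rw [not_le] at hcon
    nlinarith
  have t4 : 0 ≤ F i + G i := by
    have h : 0 ≤ (d + 1 - 2 * i) * G (i + 1) := mul_nonneg (by linarith) t3
    by_contra hcon
    rw [not_le] at hcon
    nlinarith
  have z1 : F i = 0 := by linarith
  have z2 : G i = 0 := by linarith
  obtain ⟨ii, pi'⟩ := mo_int P f hf m M hm hbf i
  have s1 : ∫ x, f x ^ i ∂P = 1 := by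
    rw [hF] at z1
    exact Real.eq_one_of_pos_of_log_eq_zero pi' z1
  have s2 : ∫ x, f x ∂P = 1 := by
    rw [hG, ← e2] at z2
    refine Real.eq_one_of_pos_of_log_eq_zero ?_ z2
    have := (mo_int P f hf m M hm hbf 1).2
    simpa using this
  have i1 : Integrable f P := by
    have := (mo_int P f hf m M hm hbf 1).1
    simpa using this
  have hnn : 0 ≤ fun x => f x ^ i - (1 + i * (f x - 1)) := by
    intro x
    have hx : 0 < f x := hm.trans_le (hbf x).1
    have h := one_add_mul_self_le_rpow_one_add (s := f x - 1) (by linarith) hi.le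
    rw [add_sub_cancel] at h
    simp only [Pi.zero_apply]
    linarith
  have hi3 : Integrable (fun x => i * (f x - 1)) P :=
    (i1.sub (integrable_const _)).const_mul _
  have hi2 : Integrable (fun x => 1 + i * (f x - 1)) P :=
    (integrable_const _).add hi3
  have hz : ∫ x, (f x ^ i - (1 + i * (f x - 1))) ∂P = 0 := by
    rw [integral_sub ii hi2, integral_add (integrable_const _) hi3, integral_const_mul,
      integral_sub i1 (integrable_const _), s1, s2]
    simp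
  have hae := (integral_eq_zero_iff_of_nonneg hnn (ii.sub hi2)).1 hz
  filter_upwards [hae] with x hx
  by_contra hne
  have hx0 : 0 < f x := hm.trans_le (hbf x).1
  have h := one_add_mul_self_lt_rpow_one_add (s := f x - 1) (by linarith)
    (sub_ne_zero.2 hne) hi
  rw [add_sub_cancel] at h
  simp only [Pi.zero_apply] at hx
  linarith

end StarMM
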