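import Pool.Agent.StarMM.Endpoint
import Pool.Agent.StarMM.Moment
import Pool.Agent.StarIB.Final2

/-! # Module O: solutions are constant for `1 < i ≤ (d+1)/2`; the theorem for star bodies -/

open MeasureTheory Set Metric Module Filter Topology
open scoped ENNReal RealInnerProductSpace Pointwise

namespace StarMM

open StarIB

section Norm

variable {E : Type*} [NormedAddCommGroup E] [InnerProductSpace ℝ E] [FiniteDimensional ℝ E]
  [MeasurableSpace E] [BorelSpace E]

theorem sphInt_scale (i lam : ℝ) (hlam : 0 < lam) (v : E → ℝ) (hv : ∀ x, x ≠ 0 → 0 < v x) (x : E) :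
    sphInt (fun y => (lam * v y) ^ i) x = lam ^ i * sphInt (fun y => (v y) ^ i) x := by
  have h1 : sphInt (fun y => (lam * v y) ^ i) x = sphInt (fun y => lam ^ i * (v y) ^ i) x := by
    apply sphInt_congr
    intro y hy
    exact Real.mul_rpow hlam.le (hv y (ne_zero_of_unit hy)).le
  rw [h1]
  unfold sphInt
  rw [integral_const_mul]

/-- normalisation of a solution -/
theorem normalize {i c₁ c₂ ω : ℝ} (hi : 1 < i) (hc₁ : 0 < c₁) (hc₂ : 0 < c₂) (hω : 0 < ω)
    {u v : E → ℝ} (h : Sol i c₁ c₂ u v) :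
    ∃ lam mu : ℝ, 0 < lam ∧ 0 < mu ∧
      Sol i ω⁻¹ ω⁻¹ (fun x => lam * u x) (fun x => mu * v x) := by
  set A := c₁ * ω with hA
  set B := c₂ * ω with hB
  have hA0 : 0 < A := by positivity
  have hB0 : 0 < B := by positivity
  have hi2 : i * i - 1 ≠ 0 := by nlinarith
  set mu : ℝ := (A ^ i * B) ^ ((i * i - 1)⁻¹) with hmu
  set lam : ℝ := mu ^ i / A with hlam
  have hmu0 : 0 < mu := by positivity
  have hlam0 : 0 < lam := by positivity
  have e1 : mu ^ (i * i) = mu * (A ^ i * B) := by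
    have : mu ^ (i * i - 1) = A ^ i * B := by
      rw [hmu, ← Real.rpow_mul (by positivity), inv_mul_cancel₀ hi2, Real.rpow_one]
    rw [← this, ← Real.rpow_one_add' hmu0.le (by nlinarith)]
    congr 1
    ring
  have e2 : mu * c₂ = ω⁻¹ * lam ^ i := by
    rw [hlam, Real.div_rpow (by positivity) hA0.le, ← Real.rpow_mul hmu0.le, e1, hB]
    field_simp
  have e3 : lam * c₁ = ω⁻¹ * mu ^ i := by
    rw [hlam, hA]
    field_simp
  refine ⟨lam, mu, hlam0, hmu0, ?_, ?_, ?_, ?_, ?_, ?_, ?_, ?_⟩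
  · intro x hx s hs
    rw [h.hom_u x hx s hs]
  · intro x hx s hs
    rw [h.hom_v x hx s hs]
  · exact continuousOn_const.mul h.cont_u
  · exact continuousOn_const.mul h.cont_v
  · intro x hx
    exact mul_pos hlam0 (h.pos_u x hx)
  · intro x hx
    exact mul_pos hmu0 (h.pos_v x hx)
  · intro x hx
    rw [sphInt_scale i mu hmu0 v h.pos_v, h.eq_u x hx, ← mul_assoc, e3, mul_assoc]
  · intro x hx
    rw [sphInt_scale i lam hlam0 u h.pos_u, h.eq_v x hx, ← mul_assoc, e2, mul_assoc]

end Norm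

section ChartM

variable {d : ℕ}

/-- the chart measure -/
noncomputable def chartM (d : ℕ) : Measure (Eu d) :=
  (volume : Measure (Eu d)).withDensity
    (fun y => ENNReal.ofReal ((1 + ‖y‖ ^ 2) ^ (-((d : ℝ) + 1) / 2)))

/-- the probability measure of the chart -/
noncomputable def chartP (d : ℕ) : Measure (Eu d) := (cm d (fun _ => 1))⁻¹ • chartM d

theorem measurable_chart : Measurable (fun y : Eu d => (WithLp.toLp 2 (y, (-1 : ℝ)) : EP d)) :=
  (WithLp.measurable_toLp ..).comp (by fun_prop)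

theorem lintegral_chartM (h : EP d → ℝ≥0∞) (hh : Measurable h) :
    ∫⁻ y, h (WithLp.toLp 2 (y, (-1 : ℝ))) ∂(chartM d) = cm d h := by
  unfold chartM cm
  rw [lintegral_withDensity_eq_lintegral_mul]
  · rfl
  · fun_prop
  · exact hh.comp measurable_chart

theorem lintegral_chartP (h : EP d → ℝ≥0∞) (hh : Measurable h) :
    ∫⁻ y, h (WithLp.toLp 2 (y, (-1 : ℝ))) ∂(chartP d) = (cm d (fun _ => 1))⁻¹ * cm d h := by
  unfold chartP
  rw [lintegral_smul_measure, lintegral_chartM h hh, smul_eq_mul]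

instance : IsProbabilityMeasure (chartP d) := by
  constructor
  have h := lintegral_chartP (d := d) (fun _ => 1) measurable_const
  rw [lintegral_one] at h
  rw [h]
  obtain ⟨h0, ht⟩ := cm_one d
  exact ENNReal.inv_mul_cancel h0 ht

theorem integral_chartP (φ : EP d → ℝ) (hφ : Measurable φ) (h0 : ∀ x, x ≠ 0 → 0 ≤ φ x) :
    ∫ y, φ (WithLp.toLp 2 (y, (-1 : ℝ))) ∂(chartP d) =
      ((cm d (fun _ => 1))⁻¹ * cm d (fun x => ENNReal.ofReal (φ x))).toReal := by
  rw [← lintegral_chartP _ hφ.ennreal_ofReal, integral_eq_lintegral_of_nonneg_ae]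
  · exact Eventually.of_forall fun y => h0 _ (Ident.toLp_ne y)
  · exact (hφ.comp measurable_chart).aestronglyMeasurable

theorem cm_congr {g h : EP d → ℝ≥0∞} (hgh : ∀ x, x ≠ 0 → g x = h x) : cm d g = cm d h := by
  unfold cm
  apply lintegral_congr
  intro y
  rw [hgh _ (Ident.toLp_ne y)]

theorem cm_const_mul (c : ℝ≥0∞) (hc : c ≠ ∞) (h : EP d → ℝ≥0∞) :
    cm d (fun x => c * h x) = c * cm d h := by
  unfold cm
  rw [← lintegral_const_mul' _ _ hc]
  apply lintegral_congr
  intro y
  ring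

end ChartM

/-- A normalised solution on `ℝ^d × ℝ` is constant for `1 < i ≤ (d+1)/2`. -/
theorem sol_one {d : ℕ} (hd : 2 ≤ d) {i ω : ℝ} (hi : 1 < i) (hid : i ≤ ((d : ℝ) + 1) / 2)
    (hω : 0 < ω) (hω' : ∀ w : EP d, w ≠ 0 → lsph (fun _ : EP d => 1) w = ENNReal.ofReal ω)
    {u v : EP d → ℝ} (h : Sol i ω⁻¹ ω⁻¹ u v) (x : EP d) (hx : x ≠ 0) : u x = 1 := by
  have hd1 : 1 ≤ d := by omega
  have hd0 : (0 : ℝ) < d := by exact_mod_cast hd1
  have hnt : Nontrivial (EP d) := by
    apply Module.nontrivial_of_finrank_pos (R := ℝ)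
    rw [Ident.finrank_EE]; omega
  have hv : Sol i ω⁻¹ ω⁻¹ v u := ⟨h.hom_v, h.hom_u, h.cont_v, h.cont_u, h.pos_v, h.pos_u,
    h.eq_v, h.eq_u⟩
  -- homogeneity including negative factors
  have homu : ∀ x, x ≠ 0 → ∀ s : ℝ, s ≠ 0 → u (s • x) = u x := by
    intro x hx s hs
    rcases lt_or_gt_of_ne hs with h' | h'
    · have e : s • x = -((-s) • x) := by rw [neg_smul, neg_neg]
      rw [e, h.even_u _ (smul_ne_zero (by linarith) hx), h.hom_u x hx _ (by linarith)]
    · exact h.hom_u x hx s h'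
  have homv : ∀ x, x ≠ 0 → ∀ s : ℝ, s ≠ 0 → v (s • x) = v x := by
    intro x hx s hs
    rcases lt_or_gt_of_ne hs with h' | h'
    · have e : s • x = -((-s) • x) := by rw [neg_smul, neg_neg]
      rw [e, hv.even_u _ (smul_ne_zero (by linarith) hx), h.hom_v x hx _ (by linarith)]
    · exact h.hom_v x hx s h'
  have hum : Measurable u := measurable_of_continuousOn_compl_singleton 0 h.cont_u
  have hvm : Measurable v := measurable_of_continuousOn_compl_singleton 0 h.cont_v
  -- the powers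
  set U : EP d → ℝ≥0∞ := fun x => ENNReal.ofReal (u x ^ i) with hU
  set V : EP d → ℝ≥0∞ := fun x => ENNReal.ofReal (v x ^ i) with hV
  have hUm : Measurable U := (hum.pow_const i).ennreal_ofReal
  have hVm : Measurable V := (hvm.pow_const i).ennreal_ofReal
  have hUh : ∀ x, x ≠ 0 → ∀ s : ℝ, s ≠ 0 → U (s • x) = U x := by
    intro x hx s hs
    simp only [hU, homu x hx s hs]
  have hVh : ∀ x, x ≠ 0 → ∀ s : ℝ, s ≠ 0 → V (s • x) = V x := by
    intro x hx s hs
    simp only [hV, homv x hx s hs]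
  have eqv : ∀ x, x ≠ 0 → ENNReal.ofReal (v x) = ENNReal.ofReal ω⁻¹ * lsph U x := by
    intro x hx
    rw [h.eq_v x hx, ENNReal.ofReal_mul (by positivity), ← lsph_ofReal]
    · exact h.cont_u.rpow_const (fun y hy => Or.inl (h.pos_u y hy).ne')
    · intro y hy
      exact (Real.rpow_pos_of_pos (h.pos_u y hy) i).le
  have equ : ∀ x, x ≠ 0 → ENNReal.ofReal (u x) = ENNReal.ofReal ω⁻¹ * lsph V x := by
    intro x hx
    rw [h.eq_u x hx, ENNReal.ofReal_mul (by positivity), ← lsph_ofReal]
    · exact h.cont_v.rpow_const (fun y hy => Or.inl (h.pos_v y hy).ne')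
    · intro y hy
      exact (Real.rpow_pos_of_pos (h.pos_v y hy) i).le
  have hωω : ENNReal.ofReal ω⁻¹ * ENNReal.ofReal ω = 1 := by
    rw [← ENNReal.ofReal_mul (by positivity), inv_mul_cancel₀ hω.ne', ENNReal.ofReal_one]
  -- mean values
  have mean1 : ∀ W : EP d → ℝ≥0∞, Measurable W →
      (∀ x, x ≠ 0 → ∀ s : ℝ, s ≠ 0 → W (s • x) = W x) →
      cm d (fun x => ENNReal.ofReal ω⁻¹ * lsph W x) = cm d W := by
    intro W hW hWh
    rw [cm_const_mul _ ENNReal.ofReal_ne_top]
    have e1 := cm_symm d hd1 (fun _ => 1) W measurable_const hW (fun _ _ _ _ => rfl) hWh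
    simp only [one_mul] at e1
    rw [e1]
    have e2 : cm d (fun x => W x * lsph (fun _ : EP d => 1) x) = cm d (fun x =>
        ENNReal.ofReal ω * W x) := cm_congr fun x hx => by rw [hω' x hx, mul_comm]
    rw [e2, cm_const_mul _ ENNReal.ofReal_ne_top, ← mul_assoc, hωω, one_mul]
  have m1 : cm d (fun x => ENNReal.ofReal (v x)) = cm d U := by
    rw [cm_congr eqv, mean1 U hUm hUh]
  have m2 : cm d (fun x => ENNReal.ofReal (u x)) = cm d V := by
    rw [cm_congr equ, mean1 V hVm hVh]
  have m3 : cm d (fun x => ENNReal.ofReal (u x ^ (i + 1))) =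
      cm d (fun x => ENNReal.ofReal (v x ^ (i + 1))) := by
    have e1 : cm d (fun x => ENNReal.ofReal (u x ^ (i + 1))) =
        cm d (fun x => ENNReal.ofReal ω⁻¹ * (U x * lsph V x)) := by
      apply cm_congr
      intro x hx
      have hp := h.pos_u x hx
      rw [Real.rpow_add hp, Real.rpow_one, ENNReal.ofReal_mul (by positivity), equ x hx]
      simp only [hU]
      ring
    have e2 : cm d (fun x => ENNReal.ofReal (v x ^ (i + 1))) =
        cm d (fun x => ENNReal.ofReal ω⁻¹ * (V x * lsph U x)) := by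
      apply cm_congr
      intro x hx
      have hp := h.pos_v x hx
      rw [Real.rpow_add hp, Real.rpow_one, ENNReal.ofReal_mul (by positivity), eqv x hx]
      simp only [hV]
      ring
    rw [e1, e2, cm_const_mul _ ENNReal.ofReal_ne_top, cm_const_mul _ ENNReal.ofReal_ne_top,
      cm_symm d hd1 U V hUm hVm hUh hVh]
  -- endpoint inequality
  have m4 := endpoint d hd ω hω hω' (fun x => u x ^ i)
    (h.cont_u.rpow_const (fun y hy => Or.inl (h.pos_u y hy).ne'))
    (fun x hx => Real.rpow_pos_of_pos (h.pos_u x hx) i)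
    (fun x hx s hs => by rw [homu x hx s hs])
  obtain ⟨hO0, hOt⟩ := cm_one d
  set O := cm d (fun _ => 1) with hO
  -- bounds
  obtain ⟨m, M, hm, hmM, hbu⟩ := Ident.exists_bounds u h.hom_u h.cont_u h.pos_u
  obtain ⟨m', M', hm', hmM', hbv⟩ := Ident.exists_bounds v h.hom_v h.cont_v h.pos_v
  set f : Eu d → ℝ := fun y => u (WithLp.toLp 2 (y, (-1 : ℝ))) with hf
  set g : Eu d → ℝ := fun y => v (WithLp.toLp 2 (y, (-1 : ℝ))) with hg
  have hfb : ∀ y, min m m' ≤ f y ∧ f y ≤ max M M' := fun y =>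
    ⟨(min_le_left _ _).trans (hbu _ (Ident.toLp_ne y)).1,
      (hbu _ (Ident.toLp_ne y)).2.trans (le_max_left _ _)⟩
  have hgb : ∀ y, min m m' ≤ g y ∧ g y ≤ max M M' := fun y =>
    ⟨(min_le_right _ _).trans (hbv _ (Ident.toLp_ne y)).1,
      (hbv _ (Ident.toLp_ne y)).2.trans (le_max_right _ _)⟩
  have hI : ∀ (w : EP d → ℝ) (_ : Measurable w) (_ : ∀ x, x ≠ 0 → 0 < w x) (p : ℝ),
      ∫ y, (w (WithLp.toLp 2 (y, (-1 : ℝ)))) ^ p ∂(chartP d) =
        (O⁻¹ * cm d (fun x => ENNReal.ofReal (w x ^ p))).toReal := by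
    intro w hw hwp p
    exact integral_chartP (fun x => w x ^ p) (hw.pow_const p)
      (fun x hx => (Real.rpow_pos_of_pos (hwp x hx) p).le)
  have hI1 : ∀ (w : EP d → ℝ) (_ : Measurable w) (_ : ∀ x, x ≠ 0 → 0 < w x),
      ∫ y, w (WithLp.toLp 2 (y, (-1 : ℝ))) ∂(chartP d) =
        (O⁻¹ * cm d (fun x => ENNReal.ofReal (w x))).toReal := by
    intro w hw hwp
    exact integral_chartP w hw (fun x hx => (hwp x hx).le)
  have hmom := moment (chartP d) f g (hum.comp measurable_chart) (hvm.comp measurable_chart)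
    (min m m') (max M M') (lt_min hm hm') hfb hgb (d : ℝ) i (by exact_mod_cast hd) hi hid
    (by
      simp only [hf, hg]
      rw [hI1 v hvm h.pos_v, hI u hum h.pos_u, m1])
    (by
      simp only [hf, hg]
      rw [hI1 u hum h.pos_u, hI v hvm h.pos_v, m2])
    (by
      simp only [hf, hg]
      rw [hI u hum h.pos_u, hI v hvm h.pos_v, m3])
    (by
      simp only [hf, hg]
      rw [hI u hum h.pos_u, hI v hvm h.pos_v, ENNReal.toReal_rpow]
      apply ENNReal.toReal_mono
      · apply ENNReal.rpow_ne_top_of_nonneg hd0.le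
        apply ENNReal.mul_ne_top (ENNReal.inv_ne_top.2 hO0)
        -- finiteness
        have hle : cm d (fun x => ENNReal.ofReal (u x ^ (i * (((d : ℝ) + 1) / d)))) ≤
            cm d (fun _ => ENNReal.ofReal (M ^ (i * (((d : ℝ) + 1) / d))) * 1) := by
          unfold cm
          apply lintegral_mono
          intro y
          dsimp only
          rw [mul_one]
          gcongr
          · exact (h.pos_u _ (Ident.toLp_ne y)).le
          · exact (hbu _ (Ident.toLp_ne y)).2
        rw [cm_const_mul _ ENNReal.ofReal_ne_top] at hle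
        exact ne_top_of_le_ne_top (ENNReal.mul_ne_top ENNReal.ofReal_ne_top hOt) hle
      · have e1 : cm d (fun x => ENNReal.ofReal (v x ^ ((d : ℝ) + 1))) =
            cm d (fun x => (lsph (fun z => ENNReal.ofReal (u z ^ i)) x / ENNReal.ofReal ω) ^
              (d + 1)) := by
          apply cm_congr
          intro x hx
          have hp := h.pos_v x hx
          have e2 : v x ^ ((d : ℝ) + 1) = v x ^ (d + 1) := by
            rw [← Real.rpow_natCast]
            push_cast
            rfl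
          rw [e2, ENNReal.ofReal_pow hp.le, eqv x hx, ENNReal.div_eq_inv_mul,
            ENNReal.ofReal_inv_of_pos hω]
        have e3 : (fun x => ENNReal.ofReal ((u x ^ i) ^ (((d : ℝ) + 1) / d))) =ᶠ[⊤] fun x =>
            ENNReal.ofReal ((u x ^ i) ^ (((d : ℝ) + 1) / d)) := EventuallyEq.rfl
        have e4 : cm d (fun x => ENNReal.ofReal ((u x ^ i) ^ (((d : ℝ) + 1) / d))) =
            cm d (fun x => ENNReal.ofReal (u x ^ (i * (((d : ℝ) + 1) / d)))) := by
          apply cm_congr
          intro x hx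
          rw [← Real.rpow_mul (h.pos_u x hx).le]
        rw [e4] at m4
        rw [e1, ENNReal.rpow_natCast, mul_pow]
        set X := cm d (fun x => (lsph (fun z => ENNReal.ofReal (u z ^ i)) x / ENNReal.ofReal ω) ^
          (d + 1)) with hX
        set Y := cm d (fun x => ENNReal.ofReal (u x ^ (i * (((d : ℝ) + 1) / d)))) with hY
        calc O⁻¹ * X = O⁻¹ ^ d * (X * O ^ (d - 1)) := by
              have e5 : O⁻¹ ^ d = O⁻¹ * O⁻¹ ^ (d - 1) := by
                rw [← pow_succ', Nat.sub_add_cancel hd1]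
              have e6 : O⁻¹ ^ (d - 1) * O ^ (d - 1) = 1 := by
                rw [← mul_pow, ENNReal.inv_mul_cancel hO0 hOt, one_pow]
              calc O⁻¹ * X = O⁻¹ * X * (O⁻¹ ^ (d - 1) * O ^ (d - 1)) := by rw [e6, mul_one]
                _ = O⁻¹ * O⁻¹ ^ (d - 1) * (X * O ^ (d - 1)) := by ring
                _ = _ := by rw [← e5]
          _ ≤ O⁻¹ ^ d * Y ^ d := by gcongr)
  -- everywhere in the chart
  have hfc : Continuous f := by
    have hc : Continuous (fun y : Eu d => (WithLp.toLp 2 (y, (-1 : ℝ)) : EP d)) := by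
      have h1 : Continuous (fun p : EuclideanSpace ℝ (Fin d) × ℝ => (WithLp.toLp 2 p : EP d)) :=
        WithLp.prod_continuous_toLp 2 _ _
      exact h1.comp (by fun_prop)
    exact h.cont_u.comp_continuous hc (fun y => Ident.toLp_ne y)
  have hvol : ∀ᵐ y : Eu d, f y = 1 := by
    have h1 : (volume : Measure (Eu d)) ≪ chartP d := by
      have h2 : (volume : Measure (Eu d)) ≪ chartM d := by
        unfold chartM
        apply withDensity_absolutelyContinuous'
        · fun_prop
        · refine Eventually.of_forall fun y => ?_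
          rw [Ne, ENNReal.ofReal_eq_zero, not_le]
          have hp : (0 : ℝ) < 1 + ‖y‖ ^ 2 := by positivity
          exact Real.rpow_pos_of_pos hp _
      refine h2.trans ?_
      unfold chartP
      exact Measure.absolutelyContinuous_smul (ENNReal.inv_ne_zero.2 hOt)
    exact h1.ae_le hmom
  have hall : ∀ y, f y = 1 := by
    have h1 : f =ᵐ[volume] fun _ => (1 : ℝ) := hvol
    have h2 := (hfc.ae_eq_iff_eq volume continuous_const).1 h1
    intro y
    exact congrFun h2 y
  -- everywhere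
  have hne0 : ∀ z : EP d, z.snd ≠ 0 → u z = 1 := by
    intro z hz
    have e1 : z = (-z.snd) • (WithLp.toLp 2 ((-(z.snd)⁻¹) • z.fst, (-1 : ℝ)) : EP d) := by
      apply WithLp.ofLp_injective
      refine Prod.ext ?_ ?_
      · change z.fst = (-z.snd) • ((-(z.snd)⁻¹) • z.fst)
        rw [smul_smul]
        have : -z.snd * -(z.snd)⁻¹ = 1 := by field_simp
        rw [this, one_smul]
      · change z.snd = (-z.snd) • (-1 : ℝ)
        simp
    rw [e1, homu _ (Ident.toLp_ne _) _ (neg_ne_zero.2 hz)]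
    exact hall _
  by_cases hx2 : x.snd = 0
  · -- limit
    set γ : ℝ → EP d := fun t => x + t • (WithLp.toLp 2 ((0 : Eu d), (1 : ℝ)) : EP d) with hγ
    have hγc : Continuous γ := by fun_prop
    have hγ0 : γ 0 = x := by simp [hγ]
    have hsnd : ∀ t, (γ t).snd = t := by
      intro t
      have : (γ t).snd = x.snd + t • (1 : ℝ) := rfl
      rw [this, hx2]; simp
    have hcont : ContinuousAt u x := h.cont_u.continuousAt (isOpen_ne.mem_nhds hx)
    have hlim : Tendsto (fun t => u (γ t)) (𝓝[≠] 0) (𝓝 (u x)) := by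
      have h1 : Tendsto γ (𝓝[≠] 0) (𝓝 x) := by
        have := hγc.tendsto 0
        rw [hγ0] at this
        exact this.mono_left nhdsWithin_le_nhds
      exact hcont.tendsto.comp h1
    have hlim2 : Tendsto (fun t => u (γ t)) (𝓝[≠] 0) (𝓝 1) := by
      apply tendsto_const_nhds.congr'
      filter_upwards [self_mem_nhdsWithin] with t ht
      exact (hne0 _ (by rw [hsnd]; exact ht)).symm
    exact tendsto_nhds_unique hlim hlim2
  · exact hne0 x hx2

section Main

variable {E : Type*} [NormedAddCommGroup E] [InnerProductSpace ℝ E] [FiniteDimensional ℝ E]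
  [MeasurableSpace E] [BorelSpace E]

/-- a solution is constant, `1 < i ≤ (d+1)/2` -/
theorem sol_const_M {d : ℕ} (hE : finrank ℝ E = d + 1) (hd : 2 ≤ d) {i c₁ c₂ : ℝ} (hi : 1 < i)
    (hid : i ≤ ((d : ℝ) + 1) / 2) (hc₁ : 0 < c₁) (hc₂ : 0 < c₂) {u v : E → ℝ}
    (h : Sol i c₁ c₂ u v) (a b : E) (ha : a ≠ 0) (hb : b ≠ 0) : u a = u b := by
  obtain ⟨ω, hω, hω'⟩ := lsph_one_const (E := EP d) (by rw [Ident.finrank_EE]; omega)
  have hE2 : finrank ℝ (EP d) = d + 1 := Ident.finrank_EE d
  set Φ : EP d ≃ₗᵢ[ℝ] E := ((stdOrthonormalBasis ℝ (EP d)).reindex (finCongr hE2)).repr.trans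
    ((stdOrthonormalBasis ℝ E).reindex (finCongr hE)).repr.symm with hΦ
  have h' := h.transfer Φ
  obtain ⟨lam, mu, hlam, hmu, hs⟩ := normalize hi hc₁ hc₂ hω h'
  have key : ∀ x : E, x ≠ 0 → lam * u x = 1 := by
    intro x hx
    have hx' : Φ.symm x ≠ 0 := by simpa using hx
    have := sol_one hd hi hid hω hω' hs (Φ.symm x) hx'
    simpa using this
  have h1 := key a ha
  have h2 := key b hb
  exact mul_left_cancel₀ hlam.ne' (h1.trans h2.symm)

theorem main_M {d : ℕ} (hE : finrank ℝ E = d + 1) (hd : 2 ≤ d) {i : ℝ} (hi : 1 < i)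
    (hid : i ≤ ((d : ℝ) + 1) / 2) (L : Set E) (hL : IsStarBody L) :
    (∃ (x : E) (r : ℝ), 0 < r ∧ (x = 0 ∨ ∀ y ∈ L, -y ∈ L) ∧
      interBody i (interBody i L) = (fun y => x + r • y) '' L) ↔
    ∃ a : ℝ, 0 ≤ a ∧ L = closedBall (0 : E) a := by
  have hn : 3 ≤ finrank ℝ E := by omega
  have hn' : (3 : ℝ) ≤ finrank ℝ E := by exact_mod_cast hn
  have hnt : Nontrivial E := Module.nontrivial_of_finrank_pos (R := ℝ) (by omega)
  constructor
  · rintro ⟨x, r, hr, hx, h⟩
    have hx0 : x = 0 := by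
      rcases hx with hx | hx
      · exact hx
      · exact translation_zero i hL hx hr h
    have h' : interBody i (interBody i L) = r • L := by
      rw [h, hx0]
      simp only [zero_add]
      rfl
    have hrad0 : ∀ x : E, ‖x‖ = 1 → 0 ≤ radial L x := fun x hx =>
      (radial_set hL (ne_zero_of_unit hx)).1
    by_cases hne : ∃ x : E, ‖x‖ = 1 ∧ radial L x ≠ 0
    · have hsol := sol_of_starBody hn i r (by linarith) hr L hL h' hne
      obtain ⟨e, he⟩ := exists_norm_eq E (zero_le_one)
      refine ⟨radial L e, hrad0 e he, ?_⟩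
      apply eq_ball_of_radial_const hL (hrad0 e he)
      intro y hy
      have hc₁ : 0 < (r * ((finrank ℝ E : ℝ) - 1))⁻¹ := by
        have : 0 < (finrank ℝ E : ℝ) - 1 := by linarith
        positivity
      have hc₂ : 0 < ((finrank ℝ E : ℝ) - 1)⁻¹ := by
        have : 0 < (finrank ℝ E : ℝ) - 1 := by linarith
        positivity
      have := sol_const_M hE hd hi hid hc₁ hc₂ hsol y e (ne_zero_of_unit hy) (ne_zero_of_unit he)
      simp only [hy, he, inv_one, one_smul] at this
      exact this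
    · push Not at hne
      exact ⟨0, le_rfl, eq_ball_of_radial_const hL le_rfl hne⟩
  · rintro ⟨a, ha, rfl⟩
    obtain ⟨k, hk, hk'⟩ := exists_const (E := E) (by omega) i
    have h2 : interBody i (interBody i (closedBall (0 : E) a)) =
        closedBall 0 (k * (k * a ^ i) ^ i) := by
      rw [hk' a ha, hk' _ (by positivity)]
    rcases ha.eq_or_lt with h0 | h0
    · refine ⟨0, 1, one_pos, Or.inl rfl, ?_⟩
      rw [h2, ← h0, Real.zero_rpow (by linarith), mul_zero, Real.zero_rpow (by linarith), mul_zero]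
      simp
    · refine ⟨0, k * (k * a ^ i) ^ i / a, by positivity, Or.inl rfl, ?_⟩
      rw [h2]
      have h3 : (fun y : E => (0 : E) + (k * (k * a ^ i) ^ i / a) • y) '' closedBall (0 : E) a =
          (k * (k * a ^ i) ^ i / a) • closedBall (0 : E) a := by
        simp only [zero_add]; rfl
      rw [h3, smul_closedBall _ _ ha, smul_zero, Real.norm_eq_abs, abs_of_pos (by positivity),
        div_mul_cancel₀ _ h0.ne']

end Main

end StarMM
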