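import Pool.Agent.StarMM.Def

/-! # Module C: gain of the second moment on a line

Proof. `l = ∫ h` is finite, `a = l/2`. All integrals are finite (bounded integrands with support in
`[-R,R]`; note `a ≤ R`), so work with real integrals or with `ENNReal` additions. As
`∫ h = ∫ 1_{|t|<a} = l`: `G := ∫ t² h - ∫_{|t|<a} t² = ∫ (t²-a²) (h - 1_{|t|<a}) =
∫ h(s) (s²-a²)⁺ ds + ∫ (1-h(t)) (a²-t²)⁺ dt`. Since `(s²-t²)⁺ ≤ (s²-a²)⁺ + (a²-t²)⁺`, and since the
integrand of the double integral vanishes unless `|t| < |s| ≤ R`: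
`∫∫ h(s)(1-h(t))(s²-t²)⁺ ≤ ∫ h(s)(s²-a²)⁺ ds * 2R + 2a * ∫ (1-h(t))(a²-t²)⁺ dt ≤ 2R * G`
(`∫_{|t| ≤ R} (1-h) ≤ 2R`, `∫ h = 2a ≤ 2R`). -/

open MeasureTheory Set Metric Module
open scoped ENNReal

namespace StarMM

theorem gain_one (h : ℝ → ℝ≥0∞) (hm : Measurable h) (h1 : ∀ t, h t ≤ 1) (R : ℝ) (hR0 : 0 ≤ R)
    (hR : ∀ t, R < |t| → h t = 0) :
    (∫⁻ s : ℝ, ∫⁻ t : ℝ, h s * (1 - h t) * ENNReal.ofReal (s ^ 2 - t ^ 2)) +
        ENNReal.ofReal (2 * R) * ∫⁻ t : ℝ, ENNReal.ofReal (t ^ 2) *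
          ({s : ℝ | ENNReal.ofReal (2 * |s|) < ∫⁻ s', h s'}.indicator (1 : ℝ → ℝ≥0∞) t) ≤
      ENNReal.ofReal (2 * R) * ∫⁻ t : ℝ, ENNReal.ofReal (t ^ 2) * h t := by
  obtain ⟨l, hl⟩ : ∃ l, l = ∫⁻ s', h s' := ⟨_, rfl⟩
  rw [← hl]
  have hball : volume (Icc (-R) R) = ENNReal.ofReal (2 * R) := by
    rw [Real.volume_Icc]; congr 1; ring
  have hl_le : l ≤ ENNReal.ofReal (2 * R) := by
    rw [hl, ← hball, ← lintegral_indicator_one measurableSet_Icc]
    refine lintegral_mono fun t => ?_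
    by_cases ht : t ∈ Icc (-R) R
    · rw [indicator_of_mem ht]; exact h1 t
    · rw [indicator_of_notMem ht, hR t]
      rw [lt_abs]
      by_contra hcon
      push Not at hcon
      exact ht ⟨by linarith [hcon.2], hcon.1⟩
  have hfin : l ≠ ⊤ := ne_top_of_le_ne_top ENNReal.ofReal_ne_top hl_le
  obtain ⟨a, ha0, hla⟩ : ∃ a : ℝ, 0 ≤ a ∧ l = ENNReal.ofReal (2 * a) := by
    refine ⟨l.toReal / 2, by positivity, ?_⟩
    rw [mul_div_cancel₀ _ (two_ne_zero), ENNReal.ofReal_toReal hfin]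
  have haR : a ≤ R := by
    have := hl_le
    rw [hla] at this
    have := (ENNReal.ofReal_le_ofReal_iff (by positivity)).1 this
    linarith
  have hS : {s : ℝ | ENNReal.ofReal (2 * |s|) < l} = {s : ℝ | |s| < a} := by
    ext s
    simp only [mem_ofPred_eq]
    rw [hla, ENNReal.ofReal_lt_ofReal_iff']
    constructor
    · rintro ⟨h, _⟩; linarith
    · intro h
      have := abs_nonneg s
      exact ⟨by linarith, by linarith⟩
  rw [hS]
  have hSm : MeasurableSet {s : ℝ | |s| < a} := measurableSet_lt measurable_norm measurable_const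
  have hSv : volume {s : ℝ | |s| < a} = l := by
    have : {s : ℝ | |s| < a} = Ioo (-a) a := by
      ext s; simp [abs_lt]
    rw [this, Real.volume_Ioo, hla]; congr 1; ring
  -- real form of h
  have hx : ∀ t, ∃ x : ℝ, 0 ≤ x ∧ x ≤ 1 ∧ h t = ENNReal.ofReal x ∧
      1 - h t = ENNReal.ofReal (1 - x) := by
    intro t
    have ht : h t ≠ ⊤ := ne_top_of_le_ne_top ENNReal.one_ne_top (h1 t)
    refine ⟨(h t).toReal, ENNReal.toReal_nonneg, ?_, (ENNReal.ofReal_toReal ht).symm, ?_⟩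
    · have := ENNReal.toReal_mono ENNReal.one_ne_top (h1 t)
      simpa using this
    · rw [ENNReal.ofReal_sub _ ENNReal.toReal_nonneg, ENNReal.ofReal_toReal ht, ENNReal.ofReal_one]
  set A : ℝ≥0∞ := ∫⁻ s : ℝ, h s * ENNReal.ofReal (s ^ 2 - a ^ 2) with hA
  set B : ℝ≥0∞ := ∫⁻ t : ℝ, (1 - h t) * ENNReal.ofReal (a ^ 2 - t ^ 2) with hB
  set C : ℝ≥0∞ := ∫⁻ t : ℝ, ENNReal.ofReal (t ^ 2) *
    ({s : ℝ | |s| < a}.indicator (1 : ℝ → ℝ≥0∞) t) with hC
  have m1 : Measurable fun t : ℝ => 1 - h t := measurable_const.sub hm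
  have mA : Measurable fun s : ℝ => h s * ENNReal.ofReal (s ^ 2 - a ^ 2) := by fun_prop
  have mB : Measurable fun t : ℝ => (1 - h t) * ENNReal.ofReal (a ^ 2 - t ^ 2) :=
    m1.mul (by fun_prop)
  have mI : Measurable ({s : ℝ | |s| < a}.indicator (1 : ℝ → ℝ≥0∞)) :=
    measurable_one.indicator hSm
  have mC : Measurable fun t : ℝ => ENNReal.ofReal (t ^ 2) *
      ({s : ℝ | |s| < a}.indicator (1 : ℝ → ℝ≥0∞) t) := Measurable.mul (by fun_prop) mI
  -- key identity
  have key : A + B + C = ∫⁻ t : ℝ, ENNReal.ofReal (t ^ 2) * h t := by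
    have e1 : A + B + C + ENNReal.ofReal (a ^ 2) * l =
        (∫⁻ t : ℝ, ENNReal.ofReal (t ^ 2) * h t) + ENNReal.ofReal (a ^ 2) * l := by
      have mAB : Measurable fun t : ℝ => h t * ENNReal.ofReal (t ^ 2 - a ^ 2) +
        (1 - h t) * ENNReal.ofReal (a ^ 2 - t ^ 2) := mA.add mB
      have mABC : Measurable fun t : ℝ => h t * ENNReal.ofReal (t ^ 2 - a ^ 2) +
        (1 - h t) * ENNReal.ofReal (a ^ 2 - t ^ 2) + ENNReal.ofReal (t ^ 2) *
        ({s : ℝ | |s| < a}.indicator (1 : ℝ → ℝ≥0∞) t) := mAB.add mC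
      have mt : Measurable fun t : ℝ => ENNReal.ofReal (t ^ 2) * h t :=
        Measurable.mul (by fun_prop) hm
      conv_lhs => rw [hl, hA, hB, hC, ← lintegral_const_mul _ hm, ← lintegral_add_left mA,
        ← lintegral_add_left mAB, ← lintegral_add_left mABC]
      conv_rhs => rw [← hSv, ← lintegral_indicator_one hSm, ← lintegral_const_mul _ mI,
        ← lintegral_add_left mt]
      refine lintegral_congr fun t => ?_
      obtain ⟨x, hx0, hx1, e, e'⟩ := hx t
      rw [e, show (1 : ℝ≥0∞) - ENNReal.ofReal x = ENNReal.ofReal (1 - x) by rw [← e, e']]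
      by_cases ht : |t| < a
      · rw [indicator_of_mem (show t ∈ {s : ℝ | |s| < a} from ht)]
        have h2 : t ^ 2 < a ^ 2 := by
          rw [← sq_abs t]; exact pow_lt_pow_left₀ ht (abs_nonneg t) two_ne_zero
        rw [ENNReal.ofReal_of_nonpos (show t ^ 2 - a ^ 2 ≤ 0 by linarith)]
        simp only [mul_zero, zero_add, Pi.one_apply, mul_one]
        rw [← ENNReal.ofReal_mul (by linarith), ← ENNReal.ofReal_mul (by positivity),
          ← ENNReal.ofReal_mul (by positivity),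
          ← ENNReal.ofReal_add (mul_nonneg (by linarith) (by linarith)) (by positivity),
          ← ENNReal.ofReal_add (add_nonneg (mul_nonneg (by linarith) (by linarith)) (by positivity))
            (by positivity),
          ← ENNReal.ofReal_add (by positivity) (by positivity)]
        congr 1; ring
      · rw [indicator_of_notMem (show t ∉ {s : ℝ | |s| < a} from ht)]
        have h2 : a ^ 2 ≤ t ^ 2 := by
          rw [← sq_abs t]; exact pow_le_pow_left₀ ha0 (not_lt.1 ht) 2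
        rw [ENNReal.ofReal_of_nonpos (show a ^ 2 - t ^ 2 ≤ 0 by linarith)]
        simp only [mul_zero, add_zero]
        rw [← ENNReal.ofReal_mul (by linarith), ← ENNReal.ofReal_mul (by positivity),
          ← ENNReal.ofReal_mul (by positivity),
          ← ENNReal.ofReal_add (mul_nonneg (by linarith) (by linarith)) (by positivity)]
        congr 1; ring
    exact (ENNReal.add_left_inj (ENNReal.mul_ne_top ENNReal.ofReal_ne_top hfin)).1 e1
  -- the double integral
  have dbl : (∫⁻ s : ℝ, ∫⁻ t : ℝ, h s * (1 - h t) * ENNReal.ofReal (s ^ 2 - t ^ 2)) ≤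
      ENNReal.ofReal (2 * R) * (A + B) := by
    have hp : ∀ s t : ℝ, h s * (1 - h t) * ENNReal.ofReal (s ^ 2 - t ^ 2) ≤
        h s * ENNReal.ofReal (s ^ 2 - a ^ 2) * (Icc (-R) R).indicator 1 t +
          h s * ((1 - h t) * ENNReal.ofReal (a ^ 2 - t ^ 2)) := by
      intro s t
      by_cases hs : R < |s|
      · rw [hR s hs]; simp
      by_cases hst : s ^ 2 - t ^ 2 ≤ 0
      · rw [ENNReal.ofReal_of_nonpos hst]; simp
      push Not at hs hst
      have ht : |t| ≤ |s| := by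
        have : t ^ 2 ≤ s ^ 2 := by linarith
        exact sq_le_sq.1 this
      have htR : t ∈ Icc (-R) R := by
        have := abs_le.1 (ht.trans hs)
        exact ⟨this.1, this.2⟩
      rw [indicator_of_mem htR, Pi.one_apply, mul_one]
      have h3 : ENNReal.ofReal (s ^ 2 - t ^ 2) ≤
          ENNReal.ofReal (s ^ 2 - a ^ 2) + ENNReal.ofReal (a ^ 2 - t ^ 2) := by
        have : s ^ 2 - t ^ 2 = (s ^ 2 - a ^ 2) + (a ^ 2 - t ^ 2) := by ring
        rw [this]; exact ENNReal.ofReal_add_le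
      calc h s * (1 - h t) * ENNReal.ofReal (s ^ 2 - t ^ 2)
          ≤ h s * (1 - h t) *
            (ENNReal.ofReal (s ^ 2 - a ^ 2) + ENNReal.ofReal (a ^ 2 - t ^ 2)) := by gcongr
        _ = h s * (1 - h t) * ENNReal.ofReal (s ^ 2 - a ^ 2) +
            h s * ((1 - h t) * ENNReal.ofReal (a ^ 2 - t ^ 2)) := by ring
        _ ≤ h s * 1 * ENNReal.ofReal (s ^ 2 - a ^ 2) +
            h s * ((1 - h t) * ENNReal.ofReal (a ^ 2 - t ^ 2)) := by
            gcongr
            exact tsub_le_self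
        _ = _ := by rw [mul_one]
    have hin : ∀ s : ℝ, (∫⁻ t : ℝ, h s * (1 - h t) * ENNReal.ofReal (s ^ 2 - t ^ 2)) ≤
        h s * ENNReal.ofReal (s ^ 2 - a ^ 2) * ENNReal.ofReal (2 * R) + h s * B := by
      intro s
      refine (lintegral_mono (hp s)).trans ?_
      rw [lintegral_add_right _ (mB.const_mul _), lintegral_const_mul _ mB,
        lintegral_const_mul _ (measurable_one.indicator measurableSet_Icc),
        lintegral_indicator_one measurableSet_Icc, hball]
    refine (lintegral_mono hin).trans ?_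
    rw [lintegral_add_left (mA.mul_const _), lintegral_mul_const _ mA, lintegral_mul_const _ hm,
      ← hl, ← hA]
    calc A * ENNReal.ofReal (2 * R) + l * B ≤
        A * ENNReal.ofReal (2 * R) + ENNReal.ofReal (2 * R) * B := by gcongr
      _ = ENNReal.ofReal (2 * R) * (A + B) := by ring
  calc _ ≤ ENNReal.ofReal (2 * R) * (A + B) + ENNReal.ofReal (2 * R) * C := by gcongr
    _ = ENNReal.ofReal (2 * R) * (A + B + C) := by ring
    _ = _ := by rw [key]
    _ ≤ _ := le_rfl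

end StarMM
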