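import Pool.Agent.StarMM.Steiner
import Pool.Agent.StarMM.GainOne

/-! # Module D: mass, support and second moment of the symmetrised density

Everything by `lintegral_pt` (coordinates `(t,y)`). `symm_mass`: on each line the set
`{t : 2|t| < l}` has measure `l = len f y` (finite). `symm_dens`: if `R < ‖pt t y‖` and `2|t| < len f y`:
`f (pt · y)` vanishes for `t² > R² - |y|²`, so `len f y ≤ 2 √(R² - |y|²)⁺`, contradiction.
`gain`: `‖pt t y‖² = t² + ∑ y j²`; write both sides as integrals over `y` and use `gain_one` for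
`h t = f (pt t y)`; the term `|y|² * (∫ h)` is the same for `f` and `symm f`, and
`‖pt t y‖² - ‖pt t y + s • e0‖² = t² - (t+s)²`, substitute `t' = t + s`. -/

open MeasureTheory Set Metric Module
open scoped ENNReal

namespace StarMM

/-- the first basis vector -/
noncomputable def e0 (m : ℕ) : Eu (m + 1) := EuclideanSpace.single 0 1

theorem pt_zero {m : ℕ} (t : ℝ) (y : Fin m → ℝ) : pt t y 0 = t := by
  simp [pt]

theorem pt_succ {m : ℕ} (t : ℝ) (y : Fin m → ℝ) (j : Fin m) : pt t y j.succ = y j := by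
  simp [pt]

theorem pt_eta {m : ℕ} (x : Eu (m + 1)) : pt (x 0) (fun j => x j.succ) = x := by
  ext i
  refine Fin.cases ?_ (fun j => ?_) i
  · rw [pt_zero]
  · rw [pt_succ]

theorem norm_pt_sq {m : ℕ} (t : ℝ) (y : Fin m → ℝ) : ‖pt t y‖ ^ 2 = t ^ 2 + ∑ j, y j ^ 2 := by
  rw [EuclideanSpace.norm_sq_eq, Fin.sum_univ_succ]
  simp only [pt_zero, pt_succ, Real.norm_eq_abs, sq_abs]

theorem pt_add {m : ℕ} (t s : ℝ) (y : Fin m → ℝ) : pt t y + s • e0 m = pt (t + s) y := by
  ext i
  refine Fin.cases ?_ (fun j => ?_) i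
  · simp [pt_zero, e0]
  · simp [pt_succ, e0]

theorem symm_pt {m : ℕ} (f : Eu (m + 1) → ℝ≥0∞) (t : ℝ) (y : Fin m → ℝ) :
    symm f (pt t y) = {s : ℝ | ENNReal.ofReal (2 * |s|) < len f y}.indicator 1 t := by
  have : (fun j : Fin m => pt t y j.succ) = y := by
    funext j; exact pt_succ t y j
  by_cases h : ENNReal.ofReal (2 * |t|) < len f y
  · rw [indicator_of_mem (show t ∈ {s : ℝ | ENNReal.ofReal (2 * |s|) < len f y} from h), symm,
      indicator_of_mem]
    · rfl
    · simp only [mem_ofPred_eq, pt_zero, this]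
      exact h
  · rw [indicator_of_notMem (show t ∉ {s : ℝ | ENNReal.ofReal (2 * |s|) < len f y} from h), symm,
      indicator_of_notMem]
    simp only [mem_ofPred_eq, pt_zero, this]
    exact h

theorem vol_sym (l : ℝ≥0∞) : volume {t : ℝ | ENNReal.ofReal (2 * |t|) < l} = l := by
  induction l using ENNReal.recTopCoe with
  | top =>
    have : {t : ℝ | ENNReal.ofReal (2 * |t|) < ⊤} = univ := by
      ext t
      simp only [mem_ofPred_eq, mem_univ, iff_true]
      exact ENNReal.ofReal_lt_top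
    rw [this]; simp
  | coe a =>
    have : {t : ℝ | ENNReal.ofReal (2 * |t|) < (a : ℝ≥0∞)} = Ioo (-((a : ℝ) / 2)) ((a : ℝ) / 2) := by
      ext t
      simp only [mem_ofPred_eq, mem_Ioo]
      rw [← abs_lt, ← ENNReal.ofReal_coe_nnreal, ENNReal.ofReal_lt_ofReal_iff']
      constructor
      · rintro ⟨h, _⟩; linarith
      · intro h
        have := abs_nonneg t
        exact ⟨by linarith, by linarith⟩
    rw [this, Real.volume_Ioo, show (a : ℝ) / 2 - -((a : ℝ) / 2) = a by ring,
      ENNReal.ofReal_coe_nnreal]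

theorem meas_ind (l : ℝ≥0∞) : MeasurableSet {t : ℝ | ENNReal.ofReal (2 * |t|) < l} := by
  refine measurableSet_lt ?_ measurable_const
  fun_prop

theorem symm_mass {m : ℕ} {R : ℝ} (f : Eu (m + 1) → ℝ≥0∞) (hf : Dens (m + 1) R f) :
    ∫⁻ x, symm f x = ∫⁻ x, f x := by
  rw [lintegral_pt _ (measurable_symm f hf.meas), lintegral_pt f hf.meas]
  refine lintegral_congr fun y => ?_
  simp_rw [symm_pt]
  rw [lintegral_indicator_one (meas_ind _), vol_sym]
  rfl

theorem symm_dens {m : ℕ} {R : ℝ} (f : Eu (m + 1) → ℝ≥0∞) (hf : Dens (m + 1) R f) :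
    Dens (m + 1) R (symm f) := by
  refine ⟨measurable_symm f hf.meas, fun x => ?_, fun x hx => ?_⟩
  · unfold symm
    refine (indicator_le_self' (fun _ _ => zero_le) x).trans ?_
    simp
  · obtain ⟨t, y, rfl⟩ : ∃ t y, x = pt t y := ⟨_, _, (pt_eta x).symm⟩
    rw [symm_pt]
    by_contra hne
    have hlt : ENNReal.ofReal (2 * |t|) < len f y := by
      by_contra h
      exact hne (indicator_of_notMem (show t ∉ {s : ℝ | ENNReal.ofReal (2 * |s|) < len f y} from h) _)
    have hex : ∃ s : ℝ, |t| ≤ |s| ∧ f (pt s y) ≠ 0 := by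
      by_contra hcon
      push Not at hcon
      refine absurd hlt (not_lt.2 ?_)
      have h2 : volume {s : ℝ | |s| < |t|} = ENNReal.ofReal (2 * |t|) := by
        have : {s : ℝ | |s| < |t|} = Ioo (-|t|) |t| := by
          ext s; simp [abs_lt]
        rw [this, Real.volume_Ioo]; congr 1; ring
      have hm' : MeasurableSet {s : ℝ | |s| < |t|} := measurableSet_lt measurable_norm measurable_const
      rw [← h2, ← lintegral_indicator_one hm', len]
      refine lintegral_mono fun s => ?_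
      by_cases hs : |s| < |t|
      · rw [indicator_of_mem (show s ∈ {s : ℝ | |s| < |t|} from hs)]; exact hf.le_one _
      · rw [hcon s (not_lt.1 hs)]; exact zero_le
    obtain ⟨s, hs, hfs⟩ := hex
    have h3 : ‖pt s y‖ ≤ R := by
      by_contra h; exact hfs (hf.supp _ (not_le.1 h))
    have h4 : ‖pt t y‖ ≤ ‖pt s y‖ := by
      refine le_of_sq_le_sq ?_ (norm_nonneg _)
      rw [norm_pt_sq, norm_pt_sq]
      have := sq_le_sq.2 hs
      linarith
    linarith

theorem measurable_len {m : ℕ} (f : Eu (m + 1) → ℝ≥0∞) (hf : Measurable f) :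
    Measurable (len f) := by
  have h : Measurable fun p : (Fin m → ℝ) × ℝ => f (pt p.2 p.1) :=
    hf.comp (measurable_pt.comp measurable_swap)
  exact h.lintegral_prod_right'

theorem gain {m : ℕ} {R : ℝ} (hR : 0 ≤ R) (f : Eu (m + 1) → ℝ≥0∞) (hf : Dens (m + 1) R f) :
    PP (m + 1) f (e0 m) + ENNReal.ofReal (2 * R) * EE2 (m + 1) (symm f) ≤
      ENNReal.ofReal (2 * R) * EE2 (m + 1) f := by
  have hfm := hf.meas
  have hpt : Measurable fun p : (Fin m → ℝ) × ℝ => pt p.2 p.1 := measurable_pt.comp measurable_swap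
  have hfp : Measurable fun p : (Fin m → ℝ) × ℝ => f (pt p.2 p.1) := hfm.comp hpt
  -- PP
  have e1 : PP (m + 1) f (e0 m) = ∫⁻ y : Fin m → ℝ, ∫⁻ t : ℝ, ∫⁻ s : ℝ,
      f (pt t y) * (1 - f (pt s y)) * ENNReal.ofReal (t ^ 2 - s ^ 2) := by
    have hmeas : Measurable fun p : Eu (m + 1) × ℝ => f p.1 * (1 - f (p.1 + p.2 • e0 m)) *
        ENNReal.ofReal (‖p.1‖ ^ 2 - ‖p.1 + p.2 • e0 m‖ ^ 2) := by
      have a1 : Measurable fun p : Eu (m + 1) × ℝ => p.1 + p.2 • e0 m := by fun_prop
      refine Measurable.mul (Measurable.mul (hfm.comp measurable_fst)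
        (measurable_const.sub (hfm.comp a1))) ?_
      fun_prop
    unfold PP
    rw [lintegral_pt _ hmeas.lintegral_prod_right']
    refine lintegral_congr fun y => lintegral_congr fun t => ?_
    rw [← lintegral_add_left_eq_self (fun s => f (pt t y) * (1 - f (pt s y)) *
      ENNReal.ofReal (t ^ 2 - s ^ 2)) t]
    refine lintegral_congr fun s => ?_
    simp only [pt_add, norm_pt_sq]
    congr 2; ring
  have e2 : ∀ g : Eu (m + 1) → ℝ≥0∞, Measurable g → EE2 (m + 1) g = ∫⁻ y : Fin m → ℝ,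
      ((∫⁻ t : ℝ, ENNReal.ofReal (t ^ 2) * g (pt t y)) +
        ENNReal.ofReal (∑ j, y j ^ 2) * ∫⁻ t : ℝ, g (pt t y)) := by
    intro g hg
    unfold EE2
    rw [lintegral_pt _ (by fun_prop)]
    refine lintegral_congr fun y => ?_
    have hgy : Measurable fun t : ℝ => g (pt t y) :=
      hg.comp (hpt.comp (measurable_const.prodMk measurable_id))
    have hgt : Measurable fun t : ℝ => ENNReal.ofReal (t ^ 2) * g (pt t y) :=
      Measurable.mul (by fun_prop) hgy
    rw [← lintegral_const_mul _ hgy, ← lintegral_add_left hgt]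
    refine lintegral_congr fun t => ?_
    rw [norm_pt_sq, ENNReal.ofReal_add (sq_nonneg t) (Finset.sum_nonneg fun j _ => sq_nonneg _),
      add_mul]
  rw [e1, e2 f hfm, e2 _ (measurable_symm f hfm)]
  have mF : Measurable fun y : Fin m → ℝ => ∫⁻ t : ℝ, ∫⁻ s : ℝ,
      f (pt t y) * (1 - f (pt s y)) * ENNReal.ofReal (t ^ 2 - s ^ 2) := by
    have h3 : Measurable fun p : ((Fin m → ℝ) × ℝ) × ℝ =>
        f (pt p.1.2 p.1.1) * (1 - f (pt p.2 p.1.1)) * ENNReal.ofReal (p.1.2 ^ 2 - p.2 ^ 2) := by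
      refine Measurable.mul (Measurable.mul (hfp.comp measurable_fst)
        (measurable_const.sub (hfp.comp
          ((measurable_fst.comp measurable_fst).prodMk measurable_snd)))) ?_
      fun_prop
    exact (h3.lintegral_prod_right').lintegral_prod_right'
  have mS : Measurable fun p : (Fin m → ℝ) × ℝ => ENNReal.ofReal (p.2 ^ 2) * symm f (pt p.2 p.1) :=
    Measurable.mul (by fun_prop) ((measurable_symm f hfm).comp hpt)
  have mT : Measurable fun p : (Fin m → ℝ) × ℝ => ENNReal.ofReal (p.2 ^ 2) * f (pt p.2 p.1) :=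
    Measurable.mul (by fun_prop) hfp
  have mS2 : Measurable fun y : Fin m → ℝ => ((∫⁻ t : ℝ, ENNReal.ofReal (t ^ 2) * symm f (pt t y)) +
        ENNReal.ofReal (∑ j, y j ^ 2) * ∫⁻ t : ℝ, symm f (pt t y)) := by
    refine Measurable.add mS.lintegral_prod_right' (Measurable.mul (by fun_prop)
      (measurable_len _ (measurable_symm f hfm)))
  have mT2 : Measurable fun y : Fin m → ℝ => ((∫⁻ t : ℝ, ENNReal.ofReal (t ^ 2) * f (pt t y)) +
        ENNReal.ofReal (∑ j, y j ^ 2) * ∫⁻ t : ℝ, f (pt t y)) := by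
    refine Measurable.add mT.lintegral_prod_right' (Measurable.mul (by fun_prop)
      (measurable_len _ hfm))
  rw [← lintegral_const_mul _ mS2, ← lintegral_const_mul _ mT2, ← lintegral_add_left mF]
  refine lintegral_mono fun y => ?_
  have hyy : Measurable fun t : ℝ => f (pt t y) :=
    hfm.comp (hpt.comp (measurable_const.prodMk measurable_id))
  have g1 := gain_one (fun t => f (pt t y)) hyy (fun t => hf.le_one _) R hR (fun t ht => by
    refine hf.supp _ ?_
    have : R ^ 2 < ‖pt t y‖ ^ 2 := by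
      rw [norm_pt_sq]
      have h5 : R ^ 2 < t ^ 2 := by
        rw [← sq_abs t]; exact pow_lt_pow_left₀ ht hR two_ne_zero
      have h6 : 0 ≤ ∑ j, y j ^ 2 := Finset.sum_nonneg fun j _ => sq_nonneg _
      linarith
    exact lt_of_pow_lt_pow_left₀ 2 (norm_nonneg _) this)
  have hlen : ∫⁻ t : ℝ, symm f (pt t y) = ∫⁻ t : ℝ, f (pt t y) := by
    simp_rw [symm_pt]
    rw [lintegral_indicator_one (meas_ind _), vol_sym]
    rfl
  rw [hlen]
  simp_rw [symm_pt]
  rw [mul_add, mul_add, ← add_assoc]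
  exact add_le_add_left g1 _

end StarMM
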