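import Pool.Agent.StarMM.Def

/-! # Module G: linear invariance

`II_linear`: the matrix with rows `A (x i)` is `X * Mᵀ`, so its determinant is `det A * det X`;
change of variables `x ↦ (i ↦ A (x i))` on `Fin m → Eu m` (`LinearMap.det_pi`: determinant
`(det A)^m`, `Measure.map_linearMap_addHaar_eq_smul_addHaar`, or product of measures), total factor
`|det A|^{m+1}`. `exists_isom`: reflection (`Submodule.reflection_sub`). -/

open MeasureTheory Set Metric Module
open scoped ENNReal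

namespace StarMM

theorem Lin_det (m : ℕ) (A : Eu m →ₗ[ℝ] Eu m) (x : Fin m → Eu m) :
    (Matrix.of fun i j => A (x i) j).det = LinearMap.det A * (Matrix.of fun i j => x i j).det := by
  have hb : ∀ (y : Eu m) (j : Fin m), (PiLp.basisFun 2 ℝ (Fin m)).repr y j = y j := by
    intro y j
    rw [PiLp.basisFun_repr]
  have h1 : (Matrix.of fun i j => A (x i) j) = (Matrix.of fun i j => x i j) *
      (LinearMap.toMatrix (PiLp.basisFun 2 ℝ (Fin m)) (PiLp.basisFun 2 ℝ (Fin m)) A).transpose := by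
    ext i j
    rw [Matrix.mul_apply, Matrix.of_apply]
    have h2 := LinearMap.toMatrix_mulVec_repr (PiLp.basisFun 2 ℝ (Fin m))
      (PiLp.basisFun 2 ℝ (Fin m)) A (x i)
    have h3 := congrFun h2 j
    rw [hb, Matrix.mulVec, dotProduct] at h3
    rw [← h3]
    apply Finset.sum_congr rfl
    intro k _
    rw [Matrix.transpose_apply, Matrix.of_apply, hb, mul_comm]
  rw [h1, Matrix.det_mul, Matrix.det_transpose, LinearMap.det_toMatrix, mul_comm]

theorem Lin_cov {E : Type*} [NormedAddCommGroup E] [NormedSpace ℝ E] [MeasurableSpace E]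
    [BorelSpace E] [FiniteDimensional ℝ E] (μ : Measure E) [μ.IsAddHaarMeasure]
    (Φ : E →ₗ[ℝ] E) (hΦ : LinearMap.det Φ ≠ 0) (g : E → ℝ≥0∞) (hg : Measurable g) :
    ∫⁻ x, g x ∂μ = ENNReal.ofReal |LinearMap.det Φ| * ∫⁻ x, g (Φ x) ∂μ := by
  have h1 := Measure.map_linearMap_addHaar_eq_smul_addHaar μ hΦ
  have hm : Measurable Φ := (LinearMap.continuous_of_finiteDimensional Φ).measurable
  have h2 : ∫⁻ x, g (Φ x) ∂μ = ENNReal.ofReal |(LinearMap.det Φ)⁻¹| * ∫⁻ x, g x ∂μ := by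
    rw [← lintegral_map hg hm, h1, lintegral_smul_measure, smul_eq_mul]
  rw [h2, ← mul_assoc, ← ENNReal.ofReal_mul (abs_nonneg _), ← abs_mul, mul_inv_cancel₀ hΦ]
  simp

theorem II_linear (m : ℕ) (A : Eu m ≃ₗ[ℝ] Eu m) (f : Eu m → ℝ≥0∞) (hf : Measurable f) :
    II m f = ENNReal.ofReal (|LinearMap.det (A : Eu m →ₗ[ℝ] Eu m)| ^ (m + 1)) *
      II m (fun x => f (A x)) := by
  have hA : LinearMap.det (A : Eu m →ₗ[ℝ] Eu m) ≠ 0 := by
    have := LinearEquiv.isUnit_det' A
    exact this.ne_zero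
  obtain ⟨Φ, hΦ⟩ : ∃ Φ : (Fin m → Eu m) →ₗ[ℝ] (Fin m → Eu m),
      Φ = LinearMap.pi fun i => (A : Eu m →ₗ[ℝ] Eu m).comp (LinearMap.proj i) := ⟨_, rfl⟩
  have hΦx : ∀ x i, Φ x i = A (x i) := by
    intro x i
    rw [hΦ]
    rfl
  have hdet : LinearMap.det Φ = LinearMap.det (A : Eu m →ₗ[ℝ] Eu m) ^ m := by
    rw [hΦ, LinearMap.det_pi (fun _ : Fin m => (A : Eu m →ₗ[ℝ] Eu m))]
    simp
  have hΦ0 : LinearMap.det Φ ≠ 0 := by
    rw [hdet]
    exact pow_ne_zero _ hA
  have hmeas : Measurable fun x : Fin m → Eu m =>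
      ENNReal.ofReal |(Matrix.of fun i j => x i j).det| * ∏ i, f (x i) := by
    apply Measurable.mul
    · apply Measurable.ennreal_ofReal
      have : Continuous fun x : Fin m → Eu m => |(Matrix.of fun i j => x i j).det| := by
        apply Continuous.abs
        apply Continuous.matrix_det
        fun_prop
      exact this.measurable
    · exact Finset.measurable_prod _ fun i _ => hf.comp (measurable_pi_apply i)
  have h := Lin_cov (volume : Measure (Fin m → Eu m)) Φ hΦ0 _ hmeas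
  unfold II
  rw [h, hdet, abs_pow, pow_succ, ENNReal.ofReal_mul (by positivity), mul_assoc]
  congr 1
  rw [← lintegral_const_mul']
  · apply lintegral_congr
    intro x
    simp_rw [hΦx]
    have := Lin_det m (A : Eu m →ₗ[ℝ] Eu m) x
    simp only [LinearEquiv.coe_coe] at this
    rw [this, abs_mul, ENNReal.ofReal_mul (abs_nonneg _), mul_assoc]
  · exact ENNReal.ofReal_ne_top

theorem Lin_det_isometry (m : ℕ) (A : Eu m ≃ₗᵢ[ℝ] Eu m) :
    |LinearMap.det (A.toLinearEquiv : Eu m →ₗ[ℝ] Eu m)| = 1 := by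
  have h := Measure.map_linearMap_addHaar_eq_smul_addHaar (volume : Measure (Eu m))
    (f := (A.toLinearEquiv : Eu m →ₗ[ℝ] Eu m)) (LinearEquiv.isUnit_det' _).ne_zero
  have h2 : Measure.map (A.toLinearEquiv : Eu m →ₗ[ℝ] Eu m) (volume : Measure (Eu m)) = volume :=
    A.measurePreserving.map_eq
  rw [h2] at h
  have h3 := congrArg (fun μ : Measure (Eu m) => μ (ball 0 1)) h
  simp only [Measure.smul_apply, smul_eq_mul] at h3
  have hpos : (volume : Measure (Eu m)) (ball 0 1) ≠ 0 :=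
    (Metric.measure_ball_pos volume 0 one_pos).ne'
  have hfin : (volume : Measure (Eu m)) (ball 0 1) ≠ ⊤ := measure_ball_lt_top.ne
  have h4 : ENNReal.ofReal |(LinearMap.det (A.toLinearEquiv : Eu m →ₗ[ℝ] Eu m))⁻¹| = 1 := by
    have h5 : 1 * (volume : Measure (Eu m)) (ball 0 1) =
        ENNReal.ofReal |(LinearMap.det (A.toLinearEquiv : Eu m →ₗ[ℝ] Eu m))⁻¹| *
          (volume : Measure (Eu m)) (ball 0 1) := by
      rw [one_mul]
      exact h3
    exact ((ENNReal.mul_left_inj hpos hfin).1 h5).symm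
  rw [ENNReal.ofReal_eq_one, abs_inv, inv_eq_one] at h4
  exact h4

theorem II_isometry (m : ℕ) (A : Eu m ≃ₗᵢ[ℝ] Eu m) (f : Eu m → ℝ≥0∞) (hf : Measurable f) :
    II m (fun x => f (A x)) = II m f := by
  rw [II_linear m A.toLinearEquiv f hf, Lin_det_isometry]
  simp

theorem EE2_isometry (m : ℕ) (A : Eu m ≃ₗᵢ[ℝ] Eu m) (f : Eu m → ℝ≥0∞) (hf : Measurable f) :
    EE2 m (fun x => f (A x)) = EE2 m f := by
  unfold EE2
  have hm : Measurable fun x : Eu m => ENNReal.ofReal (‖x‖ ^ 2) * f x :=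
    (by fun_prop : Measurable fun x : Eu m => ENNReal.ofReal (‖x‖ ^ 2)).mul hf
  rw [← A.measurePreserving.lintegral_comp hm]
  apply lintegral_congr
  intro x
  rw [A.norm_map]

theorem PP_isometry (m : ℕ) (A : Eu m ≃ₗᵢ[ℝ] Eu m) (f : Eu m → ℝ≥0∞) (hf : Measurable f)
    (u : Eu m) : PP m (fun x => f (A x)) u = PP m f (A u) := by
  unfold PP
  have hm : Measurable fun x : Eu m => ∫⁻ s : ℝ, f x * (1 - f (x + s • A u)) *
      ENNReal.ofReal (‖x‖ ^ 2 - ‖x + s • A u‖ ^ 2) := by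
    apply Measurable.lintegral_prod_right'
      (f := fun p : Eu m × ℝ => f p.1 * (1 - f (p.1 + p.2 • A u)) *
        ENNReal.ofReal (‖p.1‖ ^ 2 - ‖p.1 + p.2 • A u‖ ^ 2))
    have h1 : Measurable fun p : Eu m × ℝ => p.1 + p.2 • A u := by fun_prop
    apply Measurable.mul
    · exact (hf.comp measurable_fst).mul (measurable_const.sub (hf.comp h1))
    · fun_prop
  rw [← A.measurePreserving.lintegral_comp hm]
  apply lintegral_congr
  intro x
  apply lintegral_congr
  intro s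
  have h1 : A (x + s • u) = A x + s • A u := by rw [map_add, map_smul]
  rw [← h1, A.norm_map, A.norm_map]

theorem dens_isometry (m : ℕ) {R : ℝ} (A : Eu m ≃ₗᵢ[ℝ] Eu m) (f : Eu m → ℝ≥0∞)
    (hf : Dens m R f) : Dens m R (fun x => f (A x)) where
  meas := hf.meas.comp A.continuous.measurable
  le_one := fun x => hf.le_one (A x)
  supp := fun x hx => hf.supp (A x) (by rw [A.norm_map]; exact hx)

/-- every unit vector is moved to any other one by an isometry -/
theorem exists_isom (m : ℕ) (u v : Eu m) (hu : ‖u‖ = 1) (hv : ‖v‖ = 1) :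
    ∃ A : Eu m ≃ₗᵢ[ℝ] Eu m, A u = v := by
  refine ⟨(Submodule.span ℝ {u - v})ᗮ.reflection, ?_⟩
  exact Submodule.reflection_sub (by rw [hu, hv])

end StarMM
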