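import Pool.Agent.StarMM.Def

/-! # Module A: the one dimensional rearrangement inequality, by association

Proof. `T i t = ∫_{(-∞,t]} h i - a i` maps `h i dt` to Lebesgue measure on `(-a i, a i)` and is
nondecreasing and `1`-Lipschitz, so `E i t = t - T i t` is nondecreasing. With `S = ∑ c i T i (t i)`
one has `|∑ c i t i| ≥ |S| + sgn S * ∑ c i E i (t i)`; the expectation of every term of the last sum
is nonnegative, by the flip of the other coordinates. -/

open MeasureTheory Set Metric Module
open scoped ENNReal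

namespace StarMM

namespace OD

theorem lintegral_fin_prod {n : ℕ} (f : Fin n → ℝ → ℝ≥0∞) (hf : ∀ i, Measurable (f i)) :
    ∫⁻ x : Fin n → ℝ, ∏ i, f i (x i) = ∏ i, ∫⁻ x, f i x := by
  rw [volume_pi]
  induction n with
  | zero => simp
  | succ n ih =>
    calc
      _ = ∫⁻ x : ℝ × (Fin n → ℝ), f 0 x.1 * ∏ i : Fin n, f (Fin.succ i) (x.2 i)
            ∂((volume : Measure ℝ).prod (Measure.pi fun _ => volume)) := by
          rw [← ((measurePreserving_piFinSuccAbove
            (fun _ : Fin (n+1) => (volume : Measure ℝ)) 0).symm).lintegral_comp_emb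
            (MeasurableEquiv.measurableEmbedding _)]
          simp_rw [MeasurableEquiv.piFinSuccAbove_symm_apply, Fin.insertNthEquiv,
            Fin.prod_univ_succ, Fin.insertNth_zero, Equiv.coe_fn_mk, Fin.cons_succ,
            Fin.cons_zero]
          rfl
      _ = (∫⁻ x, f 0 x) * ∏ i : Fin n, ∫⁻ x, f (Fin.succ i) x := by
          rw [← ih (fun i => f i.succ) (fun i => hf _)]
          exact lintegral_prod_mul (f := f 0) (g := fun x : Fin n → ℝ => ∏ i, f (Fin.succ i) (x i))
            (hf 0).aemeasurable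
            (Finset.measurable_prod _ fun i _ => (hf _).comp (measurable_pi_apply i)).aemeasurable
      _ = _ := by rw [Fin.prod_univ_succ]

/-- product of densities -/
theorem pi_density {n : ℕ} (h : Fin n → ℝ → ℝ≥0∞) (hm : ∀ i, Measurable (h i))
    (hfin : ∀ i, ∫⁻ t, h i t ≠ ∞) :
    Measure.pi (fun i => (volume : Measure ℝ).withDensity (h i)) =
      (volume : Measure (Fin n → ℝ)).withDensity (fun t => ∏ i, h i (t i)) := by
  have hf : ∀ i, IsFiniteMeasure ((volume : Measure ℝ).withDensity (h i)) :=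
    fun i => isFiniteMeasure_withDensity (hfin i)
  refine Measure.pi_eq fun s hs => ?_
  rw [withDensity_apply _ (MeasurableSet.univ_pi hs)]
  rw [← lintegral_indicator (MeasurableSet.univ_pi hs)]
  have h1 : ∀ x : Fin n → ℝ, (Set.univ.pi s).indicator (fun x => ∏ i, h i (x i)) x =
      ∏ i, (s i).indicator (h i) (x i) := by
    intro x
    by_cases hx : x ∈ Set.univ.pi s
    · rw [Set.indicator_of_mem hx]
      refine Finset.prod_congr rfl fun i _ => ?_
      rw [Set.indicator_of_mem (hx i (Set.mem_univ i))]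
    · rw [Set.indicator_of_notMem hx]
      simp only [Set.mem_pi, Set.mem_univ, true_imp_iff, not_forall] at hx
      obtain ⟨i, hi⟩ := hx
      symm
      rw [Finset.prod_eq_zero_iff]
      exact ⟨i, Finset.mem_univ i, Set.indicator_of_notMem hi _⟩
  simp_rw [h1]
  rw [lintegral_fin_prod]
  · refine Finset.prod_congr rfl fun i _ => ?_
    rw [lintegral_indicator (hs i), withDensity_apply _ (hs i)]
  · intro i
    exact (hm i).indicator (hs i)

/-- a density on the line -/
structure Den (h : ℝ → ℝ≥0∞) (R a : ℝ) : Prop where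
  meas : Measurable h
  le_one : ∀ t, h t ≤ 1
  supp : ∀ t, R < |t| → h t = 0
  int : ∫⁻ t, h t = ENNReal.ofReal (2 * a)
  pos : 0 < a

/-- the transport map -/
noncomputable def T (h : ℝ → ℝ≥0∞) (a : ℝ) (t : ℝ) : ℝ :=
  ((volume.withDensity h) (Iic t)).toReal - a

variable {h : ℝ → ℝ≥0∞} {R a : ℝ}

theorem Den.fin (H : Den h R a) : IsFiniteMeasure ((volume : Measure ℝ).withDensity h) :=
  isFiniteMeasure_withDensity (by rw [H.int]; exact ENNReal.ofReal_ne_top)

theorem Den.univ (H : Den h R a) :
    ((volume : Measure ℝ).withDensity h) univ = ENNReal.ofReal (2 * a) := by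
  rw [withDensity_apply _ MeasurableSet.univ, Measure.restrict_univ, H.int]

theorem Den.sub (H : Den h R a) {s t : ℝ} (hst : s ≤ t) :
    T h a t - T h a s = (((volume : Measure ℝ).withDensity h) (Ioc s t)).toReal := by
  have := H.fin
  unfold T
  have h1 : ((volume : Measure ℝ).withDensity h) (Iic t) =
      ((volume : Measure ℝ).withDensity h) (Iic s) +
        ((volume : Measure ℝ).withDensity h) (Ioc s t) := by
    rw [← Iic_union_Ioc_eq_Iic hst, measure_union _ measurableSet_Ioc]
    exact Iic_disjoint_Ioc le_rfl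
  rw [h1, ENNReal.toReal_add (measure_ne_top _ _) (measure_ne_top _ _)]
  ring

theorem Den.mono (H : Den h R a) : Monotone (T h a) := by
  intro s t hst
  have := H.sub hst
  have h2 : 0 ≤ (((volume : Measure ℝ).withDensity h) (Ioc s t)).toReal := ENNReal.toReal_nonneg
  linarith

theorem Den.lip (H : Den h R a) {s t : ℝ} (hst : s ≤ t) : T h a t - T h a s ≤ t - s := by
  rw [H.sub hst]
  apply ENNReal.toReal_le_of_le_ofReal (by linarith)
  rw [withDensity_apply _ measurableSet_Ioc]
  calc ∫⁻ x in Ioc s t, h x ≤ ∫⁻ _ in Ioc s t, 1 := lintegral_mono fun x => H.le_one x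
    _ = volume (Ioc s t) := by simp
    _ = ENNReal.ofReal (t - s) := Real.volume_Ioc

theorem Den.monoE (H : Den h R a) : Monotone (fun t => t - T h a t) := by
  intro s t hst
  have := H.lip hst
  simp only
  linarith

theorem Den.cont (H : Den h R a) : Continuous (T h a) := by
  have : LipschitzWith 1 (T h a) := by
    apply LipschitzWith.of_le_add
    intro s t
    rw [Real.dist_eq]
    rcases le_total s t with hst | hst
    · have := H.mono hst
      have h2 := abs_nonneg (s - t)
      linarith
    · have := H.lip hst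
      rw [abs_of_nonneg (by linarith)]
      linarith
  exact this.continuous

theorem ge (t : ℝ) : -a ≤ T h a t := by
  unfold T
  have : 0 ≤ ((volume.withDensity h) (Iic t)).toReal := ENNReal.toReal_nonneg
  linarith

theorem Den.le (H : Den h R a) (t : ℝ) : T h a t ≤ a := by
  unfold T
  have : ((volume.withDensity h) (Iic t)).toReal ≤ 2 * a := by
    apply ENNReal.toReal_le_of_le_ofReal (by linarith [H.pos])
    rw [← H.univ]
    exact measure_mono (subset_univ _)
  linarith

theorem Den.at_top (H : Den h R a) {t : ℝ} (ht : R ≤ t) : T h a t = a := by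
  have := H.fin
  have hz : ((volume : Measure ℝ).withDensity h) (Ioi t) = 0 := by
    rw [withDensity_apply _ measurableSet_Ioi]
    rw [setLIntegral_congr_fun (g := fun _ => 0) measurableSet_Ioi]
    · simp
    · intro x hx
      exact H.supp x (lt_of_lt_of_le (lt_of_le_of_lt ht hx) (le_abs_self x))
  have h1 : ((volume : Measure ℝ).withDensity h) Set.univ =
      ((volume : Measure ℝ).withDensity h) (Iic t) +
        ((volume : Measure ℝ).withDensity h) (Ioi t) := by
    rw [← Iic_union_Ioi (a := t), measure_union _ measurableSet_Ioi]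
    exact Iic_disjoint_Ioi le_rfl
  rw [hz, add_zero, H.univ] at h1
  unfold T
  rw [← h1, ENNReal.toReal_ofReal (by linarith [H.pos])]
  ring

theorem Den.at_bot (H : Den h R a) {t : ℝ} (ht : t < -R) : T h a t = -a := by
  have hz : ((volume : Measure ℝ).withDensity h) (Iic t) = 0 := by
    rw [withDensity_apply _ measurableSet_Iic]
    rw [setLIntegral_congr_fun (g := fun _ => 0) measurableSet_Iic]
    · simp
    · intro x hx
      have hx' : x ≤ t := hx
      exact H.supp x (lt_of_lt_of_le (by linarith) (neg_le_abs x))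
  unfold T
  rw [hz]; simp

/-- every value is attained -/
theorem Den.exists (H : Den h R a) {x : ℝ} (h1 : -a ≤ x) (h2 : x ≤ a) : ∃ t, T h a t = x := by
  have hlo : T h a (min (-R - 1) R) = -a := H.at_bot (lt_of_le_of_lt (min_le_left _ _) (by linarith))
  have hhi : T h a R = a := H.at_top le_rfl
  have := intermediate_value_Icc (f := T h a) (min_le_right (-R - 1) R) H.cont.continuousOn
  rw [hlo, hhi] at this
  obtain ⟨t, -, ht⟩ := this ⟨h1, h2⟩
  exact ⟨t, ht⟩

theorem Den.le_iff (H : Den h R a) {x : ℝ} (h1 : -a ≤ x) (h2 : x < a) :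
    ∃ t0, T h a t0 = x ∧ {t | T h a t ≤ x} = Iic t0 := by
  have hne : {t | T h a t ≤ x}.Nonempty := by
    obtain ⟨t, ht⟩ := H.exists h1 h2.le
    exact ⟨t, ht.le⟩
  have hbdd : BddAbove {t | T h a t ≤ x} := by
    refine ⟨R, fun t ht => ?_⟩
    by_contra hcon
    push Not at hcon
    have := H.at_top hcon.le
    have ht' : T h a t ≤ x := ht
    linarith
  have hcl : IsClosed {t | T h a t ≤ x} := isClosed_le H.cont continuous_const
  have hmem : sSup {t | T h a t ≤ x} ∈ {t | T h a t ≤ x} := hcl.csSup_mem hne hbdd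
  refine ⟨sSup {t | T h a t ≤ x}, ?_, ?_⟩
  · apply le_antisymm hmem
    obtain ⟨t, ht⟩ := H.exists h1 h2.le
    have h3 : t ∈ {t | T h a t ≤ x} := ht.le
    have h4 := H.mono (le_csSup hbdd h3)
    rw [ht] at h4
    exact h4
  · ext t
    constructor
    · intro ht
      exact le_csSup hbdd ht
    · intro ht
      exact le_trans (H.mono ht) hmem

/-- the transport -/
theorem Den.map (H : Den h R a) :
    ((volume : Measure ℝ).withDensity h).map (T h a) = volume.restrict (Ioo (-a) a) := by
  have := H.fin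
  have : IsFiniteMeasure (((volume : Measure ℝ).withDensity h).map (T h a)) := by infer_instance
  apply Measure.ext_of_Iic
  intro x
  rw [Measure.map_apply H.cont.measurable measurableSet_Iic, Measure.restrict_apply measurableSet_Iic]
  have hpre : T h a ⁻¹' Iic x = {t | T h a t ≤ x} := rfl
  rw [hpre]
  rcases lt_or_ge x (-a) with h1 | h1
  · have e1 : {t | T h a t ≤ x} = ∅ := by
      ext t
      constructor
      · intro ht
        have ht' : T h a t ≤ x := ht
        linarith [ge (h := h) (a := a) t]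
      · intro ht
        exact absurd ht (notMem_empty t)
    have e2 : Iic x ∩ Ioo (-a) a = ∅ := by
      ext t
      simp only [mem_inter_iff, mem_Iic, mem_Ioo, mem_empty_iff_false, iff_false]
      rintro ⟨h2, h3, h4⟩
      linarith
    rw [e1, e2]; simp
  · rcases lt_or_ge x a with h2 | h2
    · obtain ⟨t0, ht0, hset⟩ := H.le_iff h1 h2
      rw [hset]
      have e2 : Iic x ∩ Ioo (-a) a = Ioc (-a) x := by
        ext t
        simp only [mem_inter_iff, mem_Iic, mem_Ioo, mem_Ioc]
        constructor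
        · rintro ⟨h3, h4, h5⟩; exact ⟨h4, h3⟩
        · rintro ⟨h3, h4⟩; exact ⟨h4, h3, by linarith⟩
      rw [e2, Real.volume_Ioc]
      unfold T at ht0
      have h3 : ((volume.withDensity h) (Iic t0)).toReal = x - -a := by linarith
      rw [← h3, ENNReal.ofReal_toReal (measure_ne_top _ _)]
    · have e1 : {t | T h a t ≤ x} = Set.univ := by
        ext t
        constructor
        · intro _; exact mem_univ _
        · intro _; exact (H.le t).trans h2
      have e2 : Iic x ∩ Ioo (-a) a = Ioo (-a) a := by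
        ext t
        simp only [mem_inter_iff, mem_Iic, mem_Ioo]
        constructor
        · rintro ⟨h3, h4⟩; exact h4
        · rintro ⟨h3, h4⟩; exact ⟨by linarith, h3, h4⟩
      rw [e1, e2, H.univ, Real.volume_Ioo]
      congr 1; ring

/-- sign -/
noncomputable def sg (x : ℝ) : ℝ := if x < 0 then -1 else if 0 < x then 1 else 0

theorem sg_meas : Measurable sg := by
  unfold sg
  refine Measurable.ite measurableSet_Iio measurable_const ?_
  exact Measurable.ite measurableSet_Ioi measurable_const measurable_const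

theorem sg_neg (x : ℝ) : sg (-x) = - sg x := by
  unfold sg
  rcases lt_trichotomy x 0 with h | h | h
  · simp [h, not_lt.2 h.le]
  · simp [h]
  · simp [h, not_lt.2 h.le]

theorem sg_mono : Monotone sg := by
  intro x y hxy
  unfold sg
  split_ifs <;> linarith

theorem abs_sg_le (x : ℝ) : |sg x| ≤ 1 := by
  unfold sg
  split_ifs <;> simp

theorem sg_mul_self (x : ℝ) : sg x * x = |x| := by
  unfold sg
  rcases lt_trichotomy x 0 with h | h | h
  · simp [h, abs_of_neg h]
  · simp [h]
  · simp [h, not_lt.2 h.le, abs_of_pos h]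

theorem sg_mul_le (x y : ℝ) : sg x * y ≤ |y| := by
  calc sg x * y ≤ |sg x * y| := le_abs_self _
    _ = |sg x| * |y| := abs_mul _ _
    _ ≤ 1 * |y| := by gcongr; exact abs_sg_le x
    _ = |y| := one_mul _

theorem sg_add_nonneg {x r : ℝ} (hx : 0 ≤ x) : 0 ≤ sg (x + r) + sg (x - r) := by
  have h : sg (-(x - r)) ≤ sg (x + r) := sg_mono (by linarith)
  rw [sg_neg] at h
  linarith

theorem sg_add_nonpos {x r : ℝ} (hx : x ≤ 0) : sg (x + r) + sg (x - r) ≤ 0 := by
  have h : sg (x + r) ≤ sg (-(x - r)) := sg_mono (by linarith)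
  rw [sg_neg] at h
  linarith

/-- the pointwise inequality behind the flip -/
theorem flip_nonneg (H : Den h R a) {t0 : ℝ} (ht0 : T h a t0 = 0) (c t r : ℝ) :
    0 ≤ sg (c * T h a t + r) * (c * ((t - T h a t) - (t0 - T h a t0))) +
      sg (c * T h a t - r) * (c * ((t - T h a t) - (t0 - T h a t0))) := by
  rw [← add_mul]
  have e : (sg (c * T h a t + r) + sg (c * T h a t - r)) *
      (c * ((t - T h a t) - (t0 - T h a t0))) =
      (c * (sg (c * T h a t + r) + sg (c * T h a t - r))) *
      ((t - T h a t) - (t0 - T h a t0)) := by ring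
  rw [e]
  rcases lt_trichotomy (T h a t) 0 with h1 | h1 | h1
  · have h2 : t ≤ t0 := by
      by_contra hcon
      push Not at hcon
      have := H.mono hcon.le
      linarith
    have h3 := H.monoE h2
    simp only at h3
    apply mul_nonneg_of_nonpos_of_nonpos
    · rcases le_total 0 c with hc | hc
      · exact mul_nonpos_of_nonneg_of_nonpos hc (sg_add_nonpos (by nlinarith))
      · exact mul_nonpos_of_nonpos_of_nonneg hc (sg_add_nonneg (by nlinarith))
    · linarith
  · rw [h1]
    have h4 : sg (c * 0 + r) + sg (c * 0 - r) = 0 := by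
      have : c * 0 - r = -(c * 0 + r) := by ring
      rw [this, sg_neg]; ring
    rw [h4]; simp
  · have h2 : t0 ≤ t := by
      by_contra hcon
      push Not at hcon
      have := H.mono hcon.le
      linarith
    have h3 := H.monoE h2
    simp only at h3
    apply mul_nonneg
    · rcases le_total 0 c with hc | hc
      · exact mul_nonneg hc (sg_add_nonneg (by nlinarith))
      · exact mul_nonneg_of_nonpos_of_nonpos hc (sg_add_nonpos (by nlinarith))
    · linarith

/-- product measure of the densities -/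
noncomputable abbrev PP' {n : ℕ} (h : Fin n → ℝ → ℝ≥0∞) : Measure (Fin n → ℝ) :=
  Measure.pi (fun i => (volume : Measure ℝ).withDensity (h i))

section multi

variable {n : ℕ} {h : Fin n → ℝ → ℝ≥0∞} {R : ℝ} {a : Fin n → ℝ}

theorem finP (H : ∀ i, Den (h i) R (a i)) : IsFiniteMeasure (PP' h) := by
  have := fun i => (H i).fin
  infer_instance

theorem ae_bdd (H : ∀ i, Den (h i) R (a i)) : ∀ᵐ t ∂(PP' h), ∀ i, |t i| ≤ R := by
  have := fun i => (H i).fin
  rw [ae_all_iff]
  intro i
  have h1 : ∀ᵐ s ∂((volume : Measure ℝ).withDensity (h i)), |s| ≤ R := by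
    rw [ae_withDensity_iff (H i).meas]
    refine Filter.Eventually.of_forall fun s hs => ?_
    by_contra hcon
    push Not at hcon
    exact hs ((H i).supp s hcon)
  exact (Measure.tendsto_eval_ae_ae
    (μ := fun i => (volume : Measure ℝ).withDensity (h i)) (i := i)).eventually h1

theorem integ (H : ∀ i, Den (h i) R (a i)) (F : (Fin n → ℝ) → ℝ) (hF : Measurable F) (C : ℝ)
    (hC : ∀ t : Fin n → ℝ, (∀ i, |t i| ≤ R) → |F t| ≤ C) : Integrable F (PP' h) := by
  have := finP H
  refine Integrable.of_bound hF.aestronglyMeasurable C ?_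
  filter_upwards [ae_bdd H] with t ht
  exact hC t ht

theorem map_T (H : ∀ i, Den (h i) R (a i)) :
    (PP' h).map (fun t i => T (h i) (a i) (t i)) =
      Measure.pi (fun i => (volume : Measure ℝ).restrict (Ioo (-(a i)) (a i))) := by
  have := fun i => (H i).fin
  have h2 : ∀ i, IsFiniteMeasure (((volume : Measure ℝ).withDensity (h i)).map (T (h i) (a i))) :=
    fun i => by infer_instance
  rw [Measure.pi_map_pi (fun i => (H i).cont.measurable.aemeasurable)]
  congr 1
  funext i
  exact (H i).map

theorem map_neg_Ioo (a : ℝ) : ((volume : Measure ℝ).restrict (Ioo (-a) a)).map (fun x => -x) =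
    (volume : Measure ℝ).restrict (Ioo (-a) a) := by
  have h1 : MeasurePreserving (fun x : ℝ => -x) volume volume := Measure.measurePreserving_neg _
  have h2 := h1.restrict_preimage (s := Ioo (-a) a) measurableSet_Ioo
  have h3 : (fun x : ℝ => -x) ⁻¹' Ioo (-a) a = Ioo (-a) a := by
    ext x
    simp only [mem_preimage, mem_Ioo]
    constructor
    · rintro ⟨h1, h2⟩; exact ⟨by linarith, by linarith⟩
    · rintro ⟨h1, h2⟩; exact ⟨by linarith, by linarith⟩
  rw [h3] at h2
  exact h2.map_eq

/-- zero mean of the sign -/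
theorem mean_sg (H : ∀ i, Den (h i) R (a i)) (c : Fin n → ℝ) :
    ∫ t, sg (∑ j, c j * T (h j) (a j) (t j)) ∂(PP' h) = 0 := by
  have hT : Measurable (fun (t : Fin n → ℝ) i => T (h i) (a i) (t i)) :=
    measurable_pi_lambda _ fun i => (H i).cont.measurable.comp (measurable_pi_apply i)
  have hG : Measurable (fun s : Fin n → ℝ => sg (∑ j, c j * s j)) :=
    sg_meas.comp (Finset.measurable_sum _ fun j _ => (measurable_pi_apply j).const_mul _)
  have h1 : ∫ t, sg (∑ j, c j * T (h j) (a j) (t j)) ∂(PP' h) =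
      ∫ s, sg (∑ j, c j * s j)
        ∂(Measure.pi (fun i => (volume : Measure ℝ).restrict (Ioo (-(a i)) (a i)))) := by
    rw [← map_T H, integral_map hT.aemeasurable hG.aestronglyMeasurable]
  have h2 : (Measure.pi (fun i => (volume : Measure ℝ).restrict (Ioo (-(a i)) (a i)))).map
      (fun s i => -(s i)) =
      Measure.pi (fun i => (volume : Measure ℝ).restrict (Ioo (-(a i)) (a i))) := by
    have h3 : ∀ i, IsFiniteMeasure ((volume : Measure ℝ).restrict (Ioo (-(a i)) (a i))) := by
      intro i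
      exact ⟨by rw [Measure.restrict_apply_univ]; exact measure_Ioo_lt_top⟩
    have h4 : ∀ i, IsFiniteMeasure (((volume : Measure ℝ).restrict
        (Ioo (-(a i)) (a i))).map (fun x => -x)) := fun i => by infer_instance
    rw [Measure.pi_map_pi (f := fun _ x => -x) (fun i => measurable_neg.aemeasurable)]
    congr 1
    funext i
    exact map_neg_Ioo (a i)
  have h5 : ∫ s, sg (∑ j, c j * s j)
        ∂(Measure.pi (fun i => (volume : Measure ℝ).restrict (Ioo (-(a i)) (a i)))) =
      - ∫ s, sg (∑ j, c j * s j)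
        ∂(Measure.pi (fun i => (volume : Measure ℝ).restrict (Ioo (-(a i)) (a i)))) := by
    have hneg : Measurable (fun (s : Fin n → ℝ) (i : Fin n) => -(s i)) :=
      measurable_pi_lambda _ fun i => (measurable_pi_apply i).neg
    conv_lhs => rw [← h2]
    rw [integral_map hneg.aemeasurable hG.aestronglyMeasurable, ← integral_neg]
    congr 1
    funext s
    rw [← sg_neg]
    congr 1
    rw [← Finset.sum_neg_distrib]
    exact Finset.sum_congr rfl fun j _ => by ring
  rw [h1]; linarith

/-- the flip -/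
theorem assoc_nonneg (H : ∀ i, Den (h i) R (a i)) (c : Fin n → ℝ) (i : Fin n) (t0 : ℝ)
    (ht0 : T (h i) (a i) t0 = 0) :
    0 ≤ ∫ t, sg (∑ j, c j * T (h j) (a j) (t j)) *
      (c i * ((t i - T (h i) (a i) (t i)) - (t0 - T (h i) (a i) t0))) ∂(PP' h) := by
  classical
  have hfin := fun i => (H i).fin
  obtain ⟨f, hf⟩ : ∃ f : Fin n → ℝ → ℝ, ∀ j, f j = if j = i then id else T (h j) (a j) :=
    ⟨_, fun _ => rfl⟩
  obtain ⟨g, hg⟩ : ∃ g : Fin n → ℝ → ℝ, ∀ j, g j = if j = i then id else (fun x => -x) :=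
    ⟨_, fun _ => rfl⟩
  have hfi : f i = id := by rw [hf, if_pos rfl]
  have hgi : g i = id := by rw [hg, if_pos rfl]
  have hfj : ∀ j, j ≠ i → f j = T (h j) (a j) := fun j hj => by rw [hf, if_neg hj]
  have hgj : ∀ j, j ≠ i → g j = fun x => -x := fun j hj => by rw [hg, if_neg hj]
  have hfm : ∀ j, Measurable (f j) := by
    intro j
    by_cases hj : j = i
    · rw [hj, hfi]; exact measurable_id
    · rw [hfj j hj]; exact (H j).cont.measurable
  have hgm : ∀ j, Measurable (g j) := by
    intro j
    by_cases hj : j = i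
    · rw [hj, hgi]; exact measurable_id
    · rw [hgj j hj]; exact measurable_neg
  have h1 : ∀ j, IsFiniteMeasure (((volume : Measure ℝ).withDensity (h j)).map (f j)) :=
    fun j => by infer_instance
  have h2 : ∀ j, IsFiniteMeasure ((((volume : Measure ℝ).withDensity (h j)).map (f j)).map (g j)) :=
    fun j => by infer_instance
  have m1 : (PP' h).map (fun t j => f j (t j)) =
      Measure.pi (fun j => ((volume : Measure ℝ).withDensity (h j)).map (f j)) :=
    Measure.pi_map_pi (fun j => (hfm j).aemeasurable)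
  have m2 : (Measure.pi (fun j => ((volume : Measure ℝ).withDensity (h j)).map (f j))).map
      (fun t j => g j (t j)) =
      Measure.pi (fun j => ((volume : Measure ℝ).withDensity (h j)).map (f j)) := by
    rw [Measure.pi_map_pi (fun j => (hgm j).aemeasurable)]
    congr 1
    funext j
    by_cases hj : j = i
    · rw [hj, hgi, Measure.map_id]
    · rw [hgj j hj, hfj j hj, (H j).map, map_neg_Ioo]
  obtain ⟨w, hw⟩ : ∃ w : ℝ → ℝ, ∀ x, w x =
      c i * ((x - T (h i) (a i) x) - (t0 - T (h i) (a i) t0)) := ⟨_, fun _ => rfl⟩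
  have hwm : Measurable w := by
    have h3 := (H i).cont.measurable
    have h4 : w = fun x => c i * ((x - T (h i) (a i) x) - (t0 - T (h i) (a i) t0)) := funext hw
    rw [h4]
    exact ((measurable_id.sub h3).sub_const _).const_mul _
  obtain ⟨G, hG⟩ : ∃ G : (Fin n → ℝ) → ℝ, ∀ y, G y =
      sg (c i * T (h i) (a i) (y i) + ∑ j ∈ Finset.univ.erase i, c j * y j) * w (y i) :=
    ⟨_, fun _ => rfl⟩
  have hGm : Measurable G := by
    have h4 : G = fun y => sg (c i * T (h i) (a i) (y i) +
      ∑ j ∈ Finset.univ.erase i, c j * y j) * w (y i) := funext hG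
    rw [h4]
    refine Measurable.mul (sg_meas.comp ?_) (hwm.comp (measurable_pi_apply i))
    refine Measurable.add ?_ ?_
    · exact ((H i).cont.measurable.comp (measurable_pi_apply i)).const_mul _
    · exact Finset.measurable_sum _ fun j _ => (measurable_pi_apply j).const_mul _
  have hPhi : Measurable (fun (t : Fin n → ℝ) j => f j (t j)) :=
    measurable_pi_lambda _ fun j => (hfm j).comp (measurable_pi_apply j)
  have hF : Measurable (fun (t : Fin n → ℝ) j => g j (t j)) :=
    measurable_pi_lambda _ fun j => (hgm j).comp (measurable_pi_apply j)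
  have hGF : Measurable (fun (t : Fin n → ℝ) => G (fun j => g j (t j))) := hGm.comp hF
  have hGP : Measurable (fun (t : Fin n → ℝ) => G (fun j => f j (t j))) := hGm.comp hPhi
  have hGFP : Measurable (fun (t : Fin n → ℝ) => G (fun j => g j (f j (t j)))) := hGF.comp hPhi
  have i1 : ∫ t, G (fun j => f j (t j)) ∂(PP' h) =
      ∫ y, G y ∂(Measure.pi (fun j => ((volume : Measure ℝ).withDensity (h j)).map (f j))) := by
    rw [← m1, integral_map hPhi.aemeasurable hGm.aestronglyMeasurable]
  have i2 : ∫ t, G (fun j => g j (f j (t j))) ∂(PP' h) =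
      ∫ y, G y ∂(Measure.pi (fun j => ((volume : Measure ℝ).withDensity (h j)).map (f j))) := by
    conv_rhs => rw [← m2]
    rw [integral_map hF.aemeasurable hGm.aestronglyMeasurable, ← m1]
    exact (integral_map hPhi.aemeasurable hGF.aestronglyMeasurable).symm
  obtain ⟨r, hr⟩ : ∃ r : (Fin n → ℝ) → ℝ, ∀ t, r t =
      ∑ j ∈ Finset.univ.erase i, c j * T (h j) (a j) (t j) := ⟨_, fun _ => rfl⟩
  have e1 : ∀ t : Fin n → ℝ, G (fun j => f j (t j)) =
      sg (c i * T (h i) (a i) (t i) + r t) * w (t i) := by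
    intro t
    have hsum : ∑ j ∈ Finset.univ.erase i, c j * f j (t j) = r t := by
      rw [hr]
      refine Finset.sum_congr rfl fun j hj => ?_
      rw [hfj j (Finset.ne_of_mem_erase hj)]
    rw [hG, hsum, hfi]
    rfl
  have e2 : ∀ t : Fin n → ℝ, G (fun j => g j (f j (t j))) =
      sg (c i * T (h i) (a i) (t i) - r t) * w (t i) := by
    intro t
    have hsum : ∑ j ∈ Finset.univ.erase i, c j * g j (f j (t j)) = - r t := by
      rw [hr, ← Finset.sum_neg_distrib]
      refine Finset.sum_congr rfl fun j hj => ?_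
      rw [hfj j (Finset.ne_of_mem_erase hj), hgj j (Finset.ne_of_mem_erase hj)]
      ring
    rw [hG, hsum, hfi, hgi, sub_eq_add_neg]
    rfl
  have hR0 : ∀ t : Fin n → ℝ, (∀ i, |t i| ≤ R) → |w (t i)| ≤ |c i| * (R + a i + |t0|) := by
    intro t ht
    rw [hw, abs_mul, ht0]
    have h3 := ht i
    have h4 := (H i).le (t i)
    have h5 := ge (h := h i) (a := a i) (t i)
    have h6 : |T (h i) (a i) (t i)| ≤ a i := abs_le.2 ⟨h5, h4⟩
    have h7 : |t i - T (h i) (a i) (t i) - (t0 - 0)| ≤ R + a i + |t0| := by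
      have k1 := abs_sub (t i - T (h i) (a i) (t i)) (t0 - 0)
      have k2 := abs_sub (t i) (T (h i) (a i) (t i))
      rw [sub_zero] at k1 ⊢
      linarith
    exact mul_le_mul_of_nonneg_left h7 (abs_nonneg _)
  have hsgw : ∀ x y : ℝ, |sg x * y| ≤ |y| := by
    intro x y
    rw [abs_mul]
    have := abs_sg_le x
    nlinarith [abs_nonneg y]
  have int1 : Integrable (fun t : Fin n → ℝ => G (fun j => f j (t j))) (PP' h) := by
    refine integ H _ hGP (|c i| * (R + a i + |t0|)) ?_
    intro t ht
    rw [e1]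
    exact (hsgw _ _).trans (hR0 t ht)
  have int2 : Integrable (fun t : Fin n → ℝ => G (fun j => g j (f j (t j)))) (PP' h) := by
    refine integ H _ hGFP (|c i| * (R + a i + |t0|)) ?_
    intro t ht
    rw [e2]
    exact (hsgw _ _).trans (hR0 t ht)
  have hsum : 0 ≤ ∫ t, (G (fun j => f j (t j)) + G (fun j => g j (f j (t j)))) ∂(PP' h) := by
    apply integral_nonneg
    intro t
    show 0 ≤ G (fun j => f j (t j)) + G (fun j => g j (f j (t j)))
    rw [e1, e2, hw]
    exact flip_nonneg (H i) ht0 (c i) (t i) _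
  rw [integral_add int1 int2, i2, ← i1] at hsum
  have hfinal : ∫ t, sg (∑ j, c j * T (h j) (a j) (t j)) *
      (c i * ((t i - T (h i) (a i) (t i)) - (t0 - T (h i) (a i) t0))) ∂(PP' h) =
      ∫ t, G (fun j => f j (t j)) ∂(PP' h) := by
    congr 1
    funext t
    rw [e1, hw, hr, Finset.add_sum_erase Finset.univ (fun j => c j * T (h j) (a j) (t j))
      (Finset.mem_univ i)]
  rw [hfinal]; linarith

/-- the same without the constant -/
theorem assoc' (H : ∀ i, Den (h i) R (a i)) (c : Fin n → ℝ) (i : Fin n) :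
    0 ≤ ∫ t, sg (∑ j, c j * T (h j) (a j) (t j)) *
      (c i * (t i - T (h i) (a i) (t i))) ∂(PP' h) := by
  obtain ⟨t0, ht0⟩ := (H i).exists (x := 0) (by linarith [(H i).pos]) (H i).pos.le
  have h1 := assoc_nonneg H c i t0 ht0
  have h2 := mean_sg H c
  have hsgm : Measurable (fun t : Fin n → ℝ => sg (∑ j, c j * T (h j) (a j) (t j))) :=
    sg_meas.comp (Finset.measurable_sum _ fun j _ =>
      ((H j).cont.measurable.comp (measurable_pi_apply j)).const_mul _)
  have int1 : Integrable (fun t : Fin n → ℝ => sg (∑ j, c j * T (h j) (a j) (t j)) *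
      (c i * ((t i - T (h i) (a i) (t i)) - (t0 - T (h i) (a i) t0)))) (PP' h) := by
    refine integ H _ (hsgm.mul ?_) (|c i| * (R + a i + |t0|)) ?_
    · have := (H i).cont.measurable.comp (measurable_pi_apply (X := fun _ : Fin n => ℝ) i)
      exact ((((measurable_pi_apply i).sub this).sub_const _)).const_mul _
    · intro t ht
      rw [abs_mul, abs_mul, ht0]
      have h3 := ht i
      have h4 := (H i).le (t i)
      have h5 := ge (h := h i) (a := a i) (t i)
      have h6 : |T (h i) (a i) (t i)| ≤ a i := abs_le.2 ⟨h5, h4⟩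
      have h7 : |t i - T (h i) (a i) (t i) - (t0 - 0)| ≤ R + a i + |t0| := by
        calc |t i - T (h i) (a i) (t i) - (t0 - 0)|
            ≤ |t i - T (h i) (a i) (t i)| + |t0 - 0| := abs_sub _ _
          _ ≤ (|t i| + |T (h i) (a i) (t i)|) + |t0 - 0| := by gcongr; exact abs_sub _ _
          _ ≤ R + a i + |t0| := by rw [sub_zero]; gcongr
      calc _ ≤ 1 * (|c i| * (R + a i + |t0|)) := by
            gcongr; exact abs_sg_le _
        _ = _ := one_mul _
  have int2 : Integrable (fun t : Fin n → ℝ => sg (∑ j, c j * T (h j) (a j) (t j)) *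
      (c i * (t0 - T (h i) (a i) t0))) (PP' h) := by
    refine integ H _ (hsgm.mul_const _) (1 * |c i * (t0 - T (h i) (a i) t0)|) ?_
    intro t _
    rw [abs_mul]
    gcongr
    exact abs_sg_le _
  have h3 : ∫ t, sg (∑ j, c j * T (h j) (a j) (t j)) *
      (c i * (t i - T (h i) (a i) (t i))) ∂(PP' h) =
      ∫ t, (sg (∑ j, c j * T (h j) (a j) (t j)) *
      (c i * ((t i - T (h i) (a i) (t i)) - (t0 - T (h i) (a i) t0))) +
      sg (∑ j, c j * T (h j) (a j) (t j)) * (c i * (t0 - T (h i) (a i) t0))) ∂(PP' h) := by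
    congr 1
    funext t
    ring
  rw [h3, integral_add int1 int2, integral_mul_const, h2, zero_mul, add_zero]
  exact h1

/-- the real inequality -/
theorem real_ineq (H : ∀ i, Den (h i) R (a i)) (c : Fin n → ℝ) :
    Integrable (fun t : Fin n → ℝ => |∑ i, c i * T (h i) (a i) (t i)|) (PP' h) ∧
    Integrable (fun t : Fin n → ℝ => |∑ i, c i * t i|) (PP' h) ∧
    ∫ t, |∑ i, c i * T (h i) (a i) (t i)| ∂(PP' h) ≤ ∫ t, |∑ i, c i * t i| ∂(PP' h) := by
  have hTm : ∀ i, Measurable (fun t : Fin n → ℝ => T (h i) (a i) (t i)) := fun i =>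
    (H i).cont.measurable.comp (measurable_pi_apply i)
  have hSm : Measurable (fun t : Fin n → ℝ => ∑ i, c i * T (h i) (a i) (t i)) :=
    Finset.measurable_sum _ fun j _ => (hTm j).const_mul _
  have hsm : Measurable (fun t : Fin n → ℝ => ∑ i, c i * t i) :=
    Finset.measurable_sum _ fun j _ => (measurable_pi_apply j).const_mul _
  have hsgm : Measurable (fun t : Fin n → ℝ => sg (∑ j, c j * T (h j) (a j) (t j))) :=
    sg_meas.comp hSm
  have hTb : ∀ i (x : ℝ), |T (h i) (a i) x| ≤ a i := fun i x =>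
    abs_le.2 ⟨ge (h := h i) (a := a i) x, (H i).le x⟩
  have I1 : Integrable (fun t : Fin n → ℝ => |∑ i, c i * T (h i) (a i) (t i)|) (PP' h) := by
    refine integ H _ hSm.abs (∑ i, |c i| * a i) ?_
    intro t _
    rw [abs_abs]
    refine (Finset.abs_sum_le_sum_abs _ _).trans (Finset.sum_le_sum fun i _ => ?_)
    rw [abs_mul]
    gcongr
    exact hTb i _
  have I2 : Integrable (fun t : Fin n → ℝ => |∑ i, c i * t i|) (PP' h) := by
    refine integ H _ hsm.abs (∑ i, |c i| * R) ?_
    intro t ht
    rw [abs_abs]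
    refine (Finset.abs_sum_le_sum_abs _ _).trans (Finset.sum_le_sum fun i _ => ?_)
    rw [abs_mul]
    gcongr
    exact ht i
  have I3 : ∀ i, Integrable (fun t : Fin n → ℝ => sg (∑ j, c j * T (h j) (a j) (t j)) *
      (c i * (t i - T (h i) (a i) (t i)))) (PP' h) := by
    intro i
    refine integ H _ (hsgm.mul (((measurable_pi_apply i).sub (hTm i)).const_mul _))
      (1 * (|c i| * (R + a i))) ?_
    intro t ht
    rw [abs_mul, abs_mul]
    have h7 : |t i - T (h i) (a i) (t i)| ≤ R + a i :=
      (abs_sub _ _).trans (add_le_add (ht i) (hTb i _))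
    have := abs_sg_le (∑ j, c j * T (h j) (a j) (t j))
    gcongr
  refine ⟨I1, I2, ?_⟩
  have hsum : 0 ≤ ∑ i, ∫ t, sg (∑ j, c j * T (h j) (a j) (t j)) *
      (c i * (t i - T (h i) (a i) (t i))) ∂(PP' h) := Finset.sum_nonneg fun i _ => assoc' H c i
  rw [← integral_finsetSum _ (fun i _ => I3 i)] at hsum
  have hpt : ∀ t : Fin n → ℝ, |∑ i, c i * T (h i) (a i) (t i)| +
      ∑ i, sg (∑ j, c j * T (h j) (a j) (t j)) * (c i * (t i - T (h i) (a i) (t i))) ≤
      |∑ i, c i * t i| := by
    intro t
    have h1 := sg_mul_le (∑ j, c j * T (h j) (a j) (t j)) (∑ i, c i * t i)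
    have h2 := sg_mul_self (∑ j, c j * T (h j) (a j) (t j))
    have h3 : ∑ i, sg (∑ j, c j * T (h j) (a j) (t j)) * (c i * (t i - T (h i) (a i) (t i))) =
        sg (∑ j, c j * T (h j) (a j) (t j)) * (∑ i, c i * t i) -
        sg (∑ j, c j * T (h j) (a j) (t j)) * (∑ i, c i * T (h i) (a i) (t i)) := by
      rw [← Finset.mul_sum, ← mul_sub, ← Finset.sum_sub_distrib]
      congr 1
      exact Finset.sum_congr rfl fun i _ => by ring
    rw [h3, h2]
    linarith
  have I4 : Integrable (fun t : Fin n → ℝ => ∑ i, sg (∑ j, c j * T (h j) (a j) (t j)) *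
      (c i * (t i - T (h i) (a i) (t i)))) (PP' h) := integrable_finsetSum _ fun i _ => I3 i
  have hfin := integral_mono (I1.add I4) I2 hpt
  have hadd : ∫ t, (|∑ i, c i * T (h i) (a i) (t i)| +
      ∑ i, sg (∑ j, c j * T (h j) (a j) (t j)) * (c i * (t i - T (h i) (a i) (t i)))) ∂(PP' h) =
      ∫ t, |∑ i, c i * T (h i) (a i) (t i)| ∂(PP' h) + ∫ t, ∑ i,
        sg (∑ j, c j * T (h j) (a j) (t j)) * (c i * (t i - T (h i) (a i) (t i))) ∂(PP' h) :=
    integral_add I1 I4
  have hfin' : ∫ t, (|∑ i, c i * T (h i) (a i) (t i)| +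
      ∑ i, sg (∑ j, c j * T (h j) (a j) (t j)) * (c i * (t i - T (h i) (a i) (t i)))) ∂(PP' h) ≤
      ∫ t, |∑ i, c i * t i| ∂(PP' h) := hfin
  rw [hadd] at hfin'
  linarith

end multi

end OD

/-- `E|∑ c_i X_i| ≥ E|∑ c_i X_i^*|` for densities `0 ≤ h_i ≤ 1`, `X_i^*` uniform on the centred
interval of length `∫ h_i`. -/
theorem one_dim {n : ℕ} (c : Fin n → ℝ) (h : Fin n → ℝ → ℝ≥0∞) (hm : ∀ i, Measurable (h i))
    (h1 : ∀ i t, h i t ≤ 1) (R : ℝ) (hR : ∀ i t, R < |t| → h i t = 0) :
    ∫⁻ t : Fin n → ℝ, ENNReal.ofReal |∑ i, c i * t i| *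
        ∏ i, ({s : ℝ | ENNReal.ofReal (2 * |s|) < ∫⁻ s', h i s'}.indicator (1 : ℝ → ℝ≥0∞) (t i)) ≤
      ∫⁻ t : Fin n → ℝ, ENNReal.ofReal |∑ i, c i * t i| * ∏ i, h i (t i) := by
  have hfin : ∀ i, ∫⁻ s, h i s ≠ ∞ := by
    intro i
    have h2 : ∫⁻ s, h i s ≤ ∫⁻ s, (Icc (-R) R).indicator 1 s := by
      refine lintegral_mono fun s => ?_
      by_cases hs : s ∈ Icc (-R) R
      · rw [indicator_of_mem hs]; exact h1 i s
      · rw [indicator_of_notMem hs]
        have : R < |s| := by
          by_contra hcon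
          push Not at hcon
          exact hs (abs_le.1 hcon)
        rw [hR i s this]
    rw [lintegral_indicator_one measurableSet_Icc] at h2
    exact ne_top_of_le_ne_top measure_Icc_lt_top.ne h2
  by_cases hz : ∃ i, ∫⁻ s, h i s = 0
  · obtain ⟨i, hi⟩ := hz
    have h3 : ∀ t : Fin n → ℝ, ENNReal.ofReal |∑ i, c i * t i| *
        ∏ i, ({s : ℝ | ENNReal.ofReal (2 * |s|) < ∫⁻ s', h i s'}.indicator
          (1 : ℝ → ℝ≥0∞) (t i)) = 0 := by
      intro t
      have : ∏ i, ({s : ℝ | ENNReal.ofReal (2 * |s|) < ∫⁻ s', h i s'}.indicator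
          (1 : ℝ → ℝ≥0∞) (t i)) = 0 := by
        rw [Finset.prod_eq_zero_iff]
        refine ⟨i, Finset.mem_univ i, ?_⟩
        rw [hi]
        simp
      rw [this, mul_zero]
    simp_rw [h3]
    simp
  · push Not at hz
    set a : Fin n → ℝ := fun i => (∫⁻ s, h i s).toReal / 2 with ha
    have H : ∀ i, OD.Den (h i) R (a i) := by
      intro i
      refine ⟨hm i, h1 i, hR i, ?_, ?_⟩
      · rw [ha]
        simp only
        rw [mul_div_cancel₀ _ (two_ne_zero), ENNReal.ofReal_toReal (hfin i)]
      · rw [ha]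
        simp only
        have := ENNReal.toReal_pos (hz i) (hfin i)
        linarith
    have hset : ∀ i, {s : ℝ | ENNReal.ofReal (2 * |s|) < ∫⁻ s', h i s'} = Ioo (-(a i)) (a i) := by
      intro i
      ext s
      rw [(H i).int]
      have h4 : ENNReal.ofReal (2 * |s|) < ENNReal.ofReal (2 * a i) ↔ |s| < a i := by
        rw [ENNReal.ofReal_lt_ofReal_iff (by linarith [(H i).pos])]
        constructor <;> intro h5 <;> linarith
      show ENNReal.ofReal (2 * |s|) < ENNReal.ofReal (2 * a i) ↔ s ∈ Ioo (-(a i)) (a i)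
      rw [h4, abs_lt, mem_Ioo]
    have hcm : Measurable (fun t : Fin n → ℝ => ENNReal.ofReal |∑ i, c i * t i|) :=
      (Finset.measurable_sum _ fun j _ => (measurable_pi_apply j).const_mul _).abs.ennreal_ofReal
    have hTm : Measurable (fun (t : Fin n → ℝ) i => OD.T (h i) (a i) (t i)) :=
      measurable_pi_lambda _ fun i => (H i).cont.measurable.comp (measurable_pi_apply i)
    have hL : ∫⁻ t : Fin n → ℝ, ENNReal.ofReal |∑ i, c i * t i| *
        ∏ i, ({s : ℝ | ENNReal.ofReal (2 * |s|) < ∫⁻ s', h i s'}.indicator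
          (1 : ℝ → ℝ≥0∞) (t i)) =
        ∫⁻ t, ENNReal.ofReal |∑ i, c i * OD.T (h i) (a i) (t i)| ∂(OD.PP' h) := by
      have h5 : ∀ i, Measurable ((Ioo (-(a i)) (a i)).indicator (1 : ℝ → ℝ≥0∞)) := fun i =>
        measurable_one.indicator measurableSet_Ioo
      have h6 := OD.pi_density (fun i => (Ioo (-(a i)) (a i)).indicator (1 : ℝ → ℝ≥0∞)) h5
        (fun i => by
          rw [lintegral_indicator_one measurableSet_Ioo]
          exact measure_Ioo_lt_top.ne)
      simp_rw [hset]
      have h7 : ∀ i, (volume : Measure ℝ).withDensity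
          ((Ioo (-(a i)) (a i)).indicator (1 : ℝ → ℝ≥0∞)) =
          (volume : Measure ℝ).restrict (Ioo (-(a i)) (a i)) := fun i =>
        withDensity_indicator_one measurableSet_Ioo
      simp_rw [h7] at h6
      have h8 : ∫⁻ t, ENNReal.ofReal |∑ i, c i * OD.T (h i) (a i) (t i)| ∂(OD.PP' h) =
          ∫⁻ s, ENNReal.ofReal |∑ i, c i * s i|
            ∂(Measure.pi fun i => (volume : Measure ℝ).restrict (Ioo (-(a i)) (a i))) := by
        rw [← OD.map_T H, lintegral_map hcm hTm]
      rw [h8, h6, lintegral_withDensity_eq_lintegral_mul _ _ hcm]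
      · refine lintegral_congr fun t => ?_
        rw [Pi.mul_apply, mul_comm]
      · exact Finset.measurable_prod _ fun i _ => (h5 i).comp (measurable_pi_apply i)
    have hRt : ∫⁻ t : Fin n → ℝ, ENNReal.ofReal |∑ i, c i * t i| * ∏ i, h i (t i) =
        ∫⁻ t, ENNReal.ofReal |∑ i, c i * t i| ∂(OD.PP' h) := by
      have h6 := OD.pi_density h hm hfin
      show _ = ∫⁻ t, ENNReal.ofReal |∑ i, c i * t i|
        ∂(Measure.pi (fun i => (volume : Measure ℝ).withDensity (h i)))
      rw [h6, lintegral_withDensity_eq_lintegral_mul _ _ hcm]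
      · refine lintegral_congr fun t => ?_
        rw [Pi.mul_apply, mul_comm]
      · exact Finset.measurable_prod _ fun i _ => (hm i).comp (measurable_pi_apply i)
    obtain ⟨I1, I2, I3⟩ := OD.real_ineq H c
    rw [hL, hRt, ← ofReal_integral_eq_lintegral_ofReal I1
      (Filter.Eventually.of_forall fun t => abs_nonneg _),
      ← ofReal_integral_eq_lintegral_ofReal I2
      (Filter.Eventually.of_forall fun t => abs_nonneg _)]
    exact ENNReal.ofReal_le_ofReal I3

end StarMM
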