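import Pool.Agent.StarMM.Def

/-! # Module F1: the pair functional and the distance to the ball

`B = ball 0 r`, `δ := ∫_{Bᶜ} f = ∫_B (1-f)` (mass equality; everything is finite).
`EE2 f - EE2 B = ∫_{Bᶜ} |x|² f - ∫_B |x|² (1-f)`, which is `≥ r² δ - r² δ = 0` (`bal_le`) and
`≤ R² δ`. `QQ ≥ ∫_{x ∉ B} ∫_{x' ∈ B} f(x) (1-f(x')) (|x|²-|x'|²)` (`x' = x + z`) `=
(∫_{Bᶜ} |x|² f) δ - δ ∫_B |x'|² (1-f) = δ (EE2 f - EE2 B)`. Hence
`(EE2 f - EE2 B)² ≤ R² δ (EE2 f - EE2 B) ≤ R² QQ`. -/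

open MeasureTheory Set Metric Module
open scoped ENNReal

namespace StarMM

section

variable {m : ℕ} {R r : ℝ} {f : Eu m → ℝ≥0∞}

/-- the weight `|x|²` -/
noncomputable def Pairs_w (m : ℕ) (x : Eu m) : ℝ≥0∞ := ENNReal.ofReal (‖x‖ ^ 2)

theorem Pairs_w_meas (m : ℕ) : Measurable (Pairs_w m) := by
  unfold Pairs_w
  exact (measurable_norm.pow_const 2).ennreal_ofReal

theorem Pairs_fin (hv : ∫⁻ x, f x = volume (ball (0 : Eu m) r)) (s : Set (Eu m)) :
    ∫⁻ x in s, f x ≠ ⊤ := by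
  have h1 : ∫⁻ x in s, f x ≤ ∫⁻ x, f x := setLIntegral_le_lintegral s f
  rw [hv] at h1
  exact (h1.trans_lt measure_ball_lt_top).ne

theorem Pairs_D (hf : Dens m R f) (hv : ∫⁻ x, f x = volume (ball (0 : Eu m) r)) :
    ∫⁻ x in (ball (0 : Eu m) r)ᶜ, f x = ∫⁻ x in ball (0 : Eu m) r, (1 - f x) := by
  have h1 : (∫⁻ x in ball (0 : Eu m) r, f x) + ∫⁻ x in (ball (0 : Eu m) r)ᶜ, f x =
      volume (ball (0 : Eu m) r) := by
    rw [lintegral_add_compl f measurableSet_ball]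
    exact hv
  have h2 : (∫⁻ x in ball (0 : Eu m) r, f x) + ∫⁻ x in ball (0 : Eu m) r, (1 - f x) =
      volume (ball (0 : Eu m) r) := by
    rw [← lintegral_add_left hf.meas]
    have h3 : ∀ x, f x + (1 - f x) = 1 := fun x => add_tsub_cancel_of_le (hf.le_one x)
    simp only [h3]
    simp
  exact (ENNReal.add_right_inj (Pairs_fin hv _)).mp (h1.trans h2.symm)

theorem Pairs_E :
    EE2 m f = (∫⁻ x in ball (0 : Eu m) r, Pairs_w m x * f x) +
      ∫⁻ x in (ball (0 : Eu m) r)ᶜ, Pairs_w m x * f x := by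
  rw [lintegral_add_compl _ measurableSet_ball]
  rfl

theorem Pairs_B (hf : Dens m R f) :
    EE2 m (bal m r) = (∫⁻ x in ball (0 : Eu m) r, Pairs_w m x * f x) +
      ∫⁻ x in ball (0 : Eu m) r, Pairs_w m x * (1 - f x) := by
  have h1 : EE2 m (bal m r) = ∫⁻ x in ball (0 : Eu m) r, Pairs_w m x := by
    rw [← lintegral_indicator measurableSet_ball]
    unfold EE2 bal Pairs_w
    refine lintegral_congr fun x => ?_
    by_cases hx : x ∈ ball (0 : Eu m) r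
    · rw [indicator_of_mem hx, indicator_of_mem hx]
      simp
    · rw [indicator_of_notMem hx, indicator_of_notMem hx, mul_zero]
  have hm : Measurable fun x => Pairs_w m x * f x := (Pairs_w_meas m).mul hf.meas
  rw [h1, ← lintegral_add_left hm]
  refine lintegral_congr fun x => ?_
  rw [← mul_add, add_tsub_cancel_of_le (hf.le_one x), mul_one]

theorem Pairs_c_le (hr : 0 ≤ r) :
    ∫⁻ x in ball (0 : Eu m) r, Pairs_w m x * (1 - f x) ≤
      ENNReal.ofReal (r ^ 2) * ∫⁻ x in ball (0 : Eu m) r, (1 - f x) := by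
  rw [← lintegral_const_mul' _ _ ENNReal.ofReal_ne_top]
  refine setLIntegral_mono' measurableSet_ball fun x hx => ?_
  gcongr
  unfold Pairs_w
  apply ENNReal.ofReal_le_ofReal
  have h1 : ‖x‖ < r := by simpa using hx
  have := norm_nonneg x
  nlinarith

theorem Pairs_b_ge (hr : 0 ≤ r) :
    ENNReal.ofReal (r ^ 2) * ∫⁻ x in (ball (0 : Eu m) r)ᶜ, f x ≤
      ∫⁻ x in (ball (0 : Eu m) r)ᶜ, Pairs_w m x * f x := by
  rw [← lintegral_const_mul' _ _ ENNReal.ofReal_ne_top]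
  refine setLIntegral_mono' measurableSet_ball.compl fun x hx => ?_
  gcongr
  unfold Pairs_w
  apply ENNReal.ofReal_le_ofReal
  have h1 : r ≤ ‖x‖ := by
    have h2 : ¬ ‖x‖ < r := by simpa using hx
    exact not_lt.mp h2
  nlinarith

theorem Pairs_b_le (hR : 0 ≤ R) (hf : Dens m R f) :
    ∫⁻ x in (ball (0 : Eu m) r)ᶜ, Pairs_w m x * f x ≤
      ENNReal.ofReal (R ^ 2) * ∫⁻ x in (ball (0 : Eu m) r)ᶜ, f x := by
  rw [← lintegral_const_mul' _ _ ENNReal.ofReal_ne_top]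
  refine lintegral_mono fun x => ?_
  rcases le_or_gt ‖x‖ R with h | h
  · show Pairs_w m x * f x ≤ ENNReal.ofReal (R ^ 2) * f x
    gcongr
    unfold Pairs_w
    apply ENNReal.ofReal_le_ofReal
    have := norm_nonneg x
    nlinarith
  · show Pairs_w m x * f x ≤ ENNReal.ofReal (R ^ 2) * f x
    rw [hf.supp x h, mul_zero, mul_zero]

theorem Pairs_a_fin (hr : 0 ≤ r)
    (hv : ∫⁻ x, f x = volume (ball (0 : Eu m) r)) :
    ∫⁻ x in ball (0 : Eu m) r, Pairs_w m x * f x ≠ ⊤ := by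
  have h1 : ∫⁻ x in ball (0 : Eu m) r, Pairs_w m x * f x ≤
      ENNReal.ofReal (r ^ 2) * ∫⁻ x in ball (0 : Eu m) r, f x := by
    rw [← lintegral_const_mul' _ _ ENNReal.ofReal_ne_top]
    refine setLIntegral_mono' measurableSet_ball fun x hx => ?_
    gcongr
    unfold Pairs_w
    apply ENNReal.ofReal_le_ofReal
    have h1 : ‖x‖ < r := by simpa using hx
    have := norm_nonneg x
    nlinarith
  exact (h1.trans_lt (ENNReal.mul_lt_top ENNReal.ofReal_lt_top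
    (lt_top_iff_ne_top.mpr (Pairs_fin hv _)))).ne

/-- the pair functional dominates the exchange of mass between `Bᶜ` and `B` -/
theorem Pairs_Q (hf : Dens m R f) :
    (∫⁻ x in (ball (0 : Eu m) r)ᶜ, Pairs_w m x * f x) * ∫⁻ x in ball (0 : Eu m) r, (1 - f x) ≤
      QQ m f + (∫⁻ x in ball (0 : Eu m) r, Pairs_w m x * (1 - f x)) *
        ∫⁻ x in (ball (0 : Eu m) r)ᶜ, f x := by
  set D := ∫⁻ x in ball (0 : Eu m) r, (1 - f x) with hD
  set c := ∫⁻ x in ball (0 : Eu m) r, Pairs_w m x * (1 - f x) with hc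
  have h1 : ∀ x : Eu m, Pairs_w m x * D ≤ (∫⁻ z : Eu m, (1 - f (x + z)) *
      ENNReal.ofReal (‖x‖ ^ 2 - ‖x + z‖ ^ 2)) + c := by
    intro x
    have h2 : ∫⁻ z : Eu m, (1 - f (x + z)) * ENNReal.ofReal (‖x‖ ^ 2 - ‖x + z‖ ^ 2) =
        ∫⁻ z : Eu m, (1 - f z) * ENNReal.ofReal (‖x‖ ^ 2 - ‖z‖ ^ 2) :=
      lintegral_add_left_eq_self
        (fun z : Eu m => (1 - f z) * ENNReal.ofReal (‖x‖ ^ 2 - ‖z‖ ^ 2)) x
    rw [h2]
    have h3 : ∫⁻ z in ball (0 : Eu m) r, (1 - f z) * ENNReal.ofReal (‖x‖ ^ 2 - ‖z‖ ^ 2) ≤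
        ∫⁻ z : Eu m, (1 - f z) * ENNReal.ofReal (‖x‖ ^ 2 - ‖z‖ ^ 2) :=
      setLIntegral_le_lintegral _ _
    refine le_trans ?_ (add_le_add_left h3 c)
    have hm : Measurable fun z : Eu m => (1 - f z) * ENNReal.ofReal (‖x‖ ^ 2 - ‖z‖ ^ 2) := by
      apply Measurable.mul
      · exact measurable_const.sub hf.meas
      · exact (measurable_const.sub (measurable_norm.pow_const 2)).ennreal_ofReal
    rw [hc, ← lintegral_add_left hm, hD, ← lintegral_const_mul' (Pairs_w m x) _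
      (show Pairs_w m x ≠ ⊤ from ENNReal.ofReal_ne_top)]
    refine lintegral_mono fun z => ?_
    show Pairs_w m x * (1 - f z) ≤ (1 - f z) * ENNReal.ofReal (‖x‖ ^ 2 - ‖z‖ ^ 2) +
      Pairs_w m z * (1 - f z)
    rw [mul_comm (Pairs_w m z), ← mul_add, mul_comm]
    gcongr
    unfold Pairs_w
    rw [ENNReal.ofReal_sub _ (by positivity)]
    exact le_tsub_add
  have h4 : (∫⁻ x in (ball (0 : Eu m) r)ᶜ, f x * ((∫⁻ z : Eu m, (1 - f (x + z)) *
      ENNReal.ofReal (‖x‖ ^ 2 - ‖x + z‖ ^ 2)) + c)) ≤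
      QQ m f + c * ∫⁻ x in (ball (0 : Eu m) r)ᶜ, f x := by
    simp only [mul_add]
    have hm : Measurable fun x : Eu m => f x * c := hf.meas.mul_const c
    rw [lintegral_add_right _ hm]
    apply add_le_add
    · refine (setLIntegral_le_lintegral _ _).trans ?_
      unfold QQ
      refine lintegral_mono fun x => ?_
      have hfx : f x ≠ ⊤ := ne_top_of_le_ne_top ENNReal.one_ne_top (hf.le_one x)
      show f x * (∫⁻ z : Eu m, (1 - f (x + z)) * ENNReal.ofReal (‖x‖ ^ 2 - ‖x + z‖ ^ 2)) ≤ _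
      rw [← lintegral_const_mul' _ _ hfx]
      simp only [mul_assoc]
      exact le_rfl
    · rw [lintegral_mul_const _ hf.meas, mul_comm]
  refine le_trans ?_ h4
  have hm : Measurable fun x => Pairs_w m x * f x := (Pairs_w_meas m).mul hf.meas
  rw [← lintegral_mul_const _ hm]
  refine lintegral_mono fun x => ?_
  show Pairs_w m x * f x * D ≤ _
  calc Pairs_w m x * f x * D = f x * (Pairs_w m x * D) := by ring
    _ ≤ _ := by
      gcongr
      exact h1 x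

end

/-- bathtub principle -/
theorem bal_le (m : ℕ) {R r : ℝ} (hr : 0 ≤ r) (f : Eu m → ℝ≥0∞) (hf : Dens m R f)
    (hv : ∫⁻ x, f x = volume (ball (0 : Eu m) r)) :
    EE2 m (bal m r) ≤ EE2 m f := by
  rw [Pairs_B hf, Pairs_E (r := r) (f := f)]
  refine add_le_add le_rfl ?_
  refine (Pairs_c_le hr).trans ?_
  rw [← Pairs_D hf hv]
  exact Pairs_b_ge hr

/-- with `δ = ∫_{|x| ≥ r} f = ∫_{|x| < r} (1 - f)`: `QQ ≥ δ (EE2 f - EE2 (bal r))` and
`EE2 f - EE2 (bal r) ≤ R² δ` -/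
theorem QQ_lower (m : ℕ) {R r : ℝ} (hR : 0 ≤ R) (hr : 0 ≤ r) (f : Eu m → ℝ≥0∞) (hf : Dens m R f)
    (hv : ∫⁻ x, f x = volume (ball (0 : Eu m) r)) :
    (EE2 m f - EE2 m (bal m r)) ^ 2 ≤ ENNReal.ofReal (R ^ 2) * QQ m f := by
  rw [Pairs_B hf, Pairs_E (r := r) (f := f)]
  have ha := Pairs_a_fin hr hv
  have hQ := Pairs_Q (r := r) hf
  rw [← Pairs_D hf hv] at hQ
  have hb := Pairs_b_le (r := r) hR hf
  have hfin := Pairs_fin hv (ball (0 : Eu m) r)ᶜ
  have hc := Pairs_c_le (r := r) (f := f) hr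
  rw [← Pairs_D hf hv] at hc
  set a := ∫⁻ x in ball (0 : Eu m) r, Pairs_w m x * f x
  set b := ∫⁻ x in (ball (0 : Eu m) r)ᶜ, Pairs_w m x * f x
  set c := ∫⁻ x in ball (0 : Eu m) r, Pairs_w m x * (1 - f x)
  set D := ∫⁻ x in (ball (0 : Eu m) r)ᶜ, f x
  rw [ENNReal.add_sub_add_eq_sub_left ha]
  have h1 : (b - c) * D ≤ QQ m f := by
    rw [ENNReal.sub_mul (fun _ _ => hfin)]
    rw [tsub_le_iff_right]
    exact hQ
  calc (b - c) ^ 2 = (b - c) * (b - c) := sq _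
    _ ≤ (b - c) * (ENNReal.ofReal (R ^ 2) * D) := by
        gcongr
        exact tsub_le_self.trans hb
    _ = ENNReal.ofReal (R ^ 2) * ((b - c) * D) := by ring
    _ ≤ _ := by gcongr

end StarMM
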