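import Pool.Agent.StarMM.Gain
import Pool.Agent.StarMM.Avg
import Pool.Agent.StarMM.Pairs
import Pool.Agent.StarMM.Close
import Pool.Agent.StarMM.Lin
import Pool.Agent.StarMM.BP

/-! # Module H: the random simplex inequality -/

open MeasureTheory Set Metric Module
open scoped ENNReal

namespace StarMM

theorem norm_e0 (m : ℕ) : ‖e0 m‖ = 1 := by
  simp [e0]

/-- one Steiner symmetrisation in a good direction -/
theorem step_dir (m : ℕ) (R : ℝ) (hR : 0 < R) :
    ∃ k : ℝ, 0 < k ∧ ∀ f : Eu (m + 1) → ℝ≥0∞, Dens (m + 1) R f →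
      ∃ g : Eu (m + 1) → ℝ≥0∞, Dens (m + 1) R g ∧ ∫⁻ x, g x = ∫⁻ x, f x ∧
        II (m + 1) g ≤ II (m + 1) f ∧
        EE2 (m + 1) g + ENNReal.ofReal k * QQ (m + 1) f ≤ EE2 (m + 1) f := by
  obtain ⟨c, hc, hdir⟩ := exists_dir (m + 1) (by omega) R hR
  refine ⟨c / (2 * R), by positivity, fun f hf => ?_⟩
  obtain ⟨u, hu, hQ⟩ := hdir f hf
  obtain ⟨A, hA⟩ := exists_isom (m + 1) (e0 m) u (norm_e0 m) hu
  have hfA := dens_isometry (m + 1) A f hf
  refine ⟨symm (fun x => f (A x)), symm_dens _ hfA, ?_, ?_, ?_⟩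
  · rw [symm_mass _ hfA]
    exact A.measurePreserving.lintegral_comp hf.meas
  · calc II (m + 1) (symm (fun x => f (A x))) ≤ II (m + 1) (fun x => f (A x)) := II_symm_le _ hfA
      _ = II (m + 1) f := II_isometry _ A f hf.meas
  · have h1 := gain hR.le _ hfA
    rw [EE2_isometry _ A f hf.meas, PP_isometry _ A f hf.meas, hA] at h1
    have h2 : ENNReal.ofReal c * QQ (m + 1) f +
        ENNReal.ofReal (2 * R) * EE2 (m + 1) (symm fun x => f (A x)) ≤
        ENNReal.ofReal (2 * R) * EE2 (m + 1) f := le_trans (by gcongr) h1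
    have h3 : ENNReal.ofReal (2 * R) *
        (EE2 (m + 1) (symm fun x => f (A x)) + ENNReal.ofReal (c / (2 * R)) * QQ (m + 1) f) ≤
        ENNReal.ofReal (2 * R) * EE2 (m + 1) f := by
      refine le_trans (le_of_eq ?_) h2
      rw [mul_add, ← mul_assoc, ← ENNReal.ofReal_mul (by positivity), add_comm]
      congr 3
      field_simp
    have h4 : ENNReal.ofReal (2 * R) ≠ 0 := by
      rw [Ne, ENNReal.ofReal_eq_zero, not_le]; positivity
    exact (ENNReal.mul_le_mul_iff_right h4 ENNReal.ofReal_ne_top).1 h3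

theorem EE2_lt_top {m : ℕ} {R : ℝ} {f : Eu m → ℝ≥0∞} (hf : Dens m R f) : EE2 m f < ∞ := by
  have h1 : EE2 m f ≤ ∫⁻ x in closedBall (0 : Eu m) R, ENNReal.ofReal (R ^ 2) := by
    rw [← lintegral_indicator measurableSet_closedBall]
    apply lintegral_mono
    intro x
    by_cases hx : x ∈ closedBall (0 : Eu m) R
    · rw [indicator_of_mem hx]
      rw [mem_closedBall_zero_iff] at hx
      calc ENNReal.ofReal (‖x‖ ^ 2) * f x ≤ ENNReal.ofReal (R ^ 2) * 1 := by
            gcongr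
            exact hf.le_one x
        _ = _ := mul_one _
    · rw [indicator_of_notMem hx]
      rw [mem_closedBall_zero_iff, not_le] at hx
      simp [hf.supp x hx]
  refine lt_of_le_of_lt h1 ?_
  rw [lintegral_const, Measure.restrict_apply MeasurableSet.univ, univ_inter]
  exact ENNReal.mul_lt_top ENNReal.ofReal_lt_top measure_closedBall_lt_top

theorem dens_bal (m : ℕ) (r : ℝ) : Dens m r (bal m r) := by
  refine ⟨measurable_one.indicator measurableSet_ball, fun x => ?_, fun x hx => ?_⟩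
  · unfold bal
    by_cases h : x ∈ ball (0 : Eu m) r
    · rw [indicator_of_mem h]; rfl
    · rw [indicator_of_notMem h]; exact zero_le_one
  · unfold bal
    rw [indicator_of_notMem]
    rw [mem_ball_zero_iff]
    exact not_lt.2 hx.le

theorem simplex_bal (m : ℕ) (hm : 1 ≤ m) {R r : ℝ} (hR : 0 < R) (hr : 0 ≤ r) (f : Eu m → ℝ≥0∞)
    (hf : Dens m R f) (hv : ∫⁻ x, f x = volume (ball (0 : Eu m) r)) :
    II m (bal m r) ≤ II m f := by
  obtain ⟨n, rfl⟩ : ∃ n, m = n + 1 := ⟨m - 1, by omega⟩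
  set b := EE2 (n + 1) (bal (n + 1) r) with hb
  have hbt : b < ∞ := EE2_lt_top (dens_bal _ r)
  obtain ⟨k, hk, hstep⟩ := step_dir n R hR
  set S : Set ℝ≥0∞ := {a | ∃ g : Eu (n + 1) → ℝ≥0∞, Dens (n + 1) R g ∧
    ∫⁻ x, g x = volume (ball (0 : Eu (n + 1)) r) ∧ II (n + 1) g ≤ II (n + 1) f ∧
    EE2 (n + 1) g = a} with hS
  have hSf : EE2 (n + 1) f ∈ S := ⟨f, hf, hv, le_rfl, rfl⟩
  have hinf : sInf S ≤ b := by
    by_contra hcon
    rw [not_le] at hcon
    set a0 := sInf S with ha0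
    have ha0t : a0 < ∞ := lt_of_le_of_lt (sInf_le hSf) (EE2_lt_top hf)
    set w : ℝ≥0∞ := ENNReal.ofReal (k / R ^ 2) * (a0 - b) ^ 2 with hw
    have hw0 : w ≠ 0 := by
      apply mul_ne_zero
      · rw [Ne, ENNReal.ofReal_eq_zero, not_le]; positivity
      · exact pow_ne_zero 2 (tsub_pos_of_lt hcon).ne'
    have hlt : a0 < a0 + w := ENNReal.lt_add_right ha0t.ne hw0
    obtain ⟨a, ⟨g, hg, hgv, hgI, rfl⟩, hga⟩ := sInf_lt_iff.1 hlt
    obtain ⟨g', hg', hg'v, hg'I, hg'E⟩ := hstep g hg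
    have h1 : a0 ≤ EE2 (n + 1) g := sInf_le ⟨g, hg, hgv, hgI, rfl⟩
    have h2 : a0 ≤ EE2 (n + 1) g' := sInf_le ⟨g', hg', hg'v.trans hgv, hg'I.trans hgI, rfl⟩
    have h3 := QQ_lower (n + 1) hR.le hr g hg hgv
    have h4 : w ≤ ENNReal.ofReal k * QQ (n + 1) g := by
      calc w ≤ ENNReal.ofReal (k / R ^ 2) * (EE2 (n + 1) g - b) ^ 2 := by
            rw [hw]; gcongr
        _ ≤ ENNReal.ofReal (k / R ^ 2) * (ENNReal.ofReal (R ^ 2) * QQ (n + 1) g) := by
            gcongr
        _ = ENNReal.ofReal k * QQ (n + 1) g := by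
            rw [← mul_assoc, ← ENNReal.ofReal_mul (by positivity)]
            congr 2
            field_simp
    have h5 : a0 + w ≤ EE2 (n + 1) g := le_trans (add_le_add h2 h4) hg'E
    exact absurd hga (not_lt.2 h5)
  obtain ⟨C, hC, hIb⟩ := II_bal_le (n + 1) hr
  have key : ∀ ε : ℝ, 0 < ε → II (n + 1) (bal (n + 1) r) ≤ II (n + 1) f +
      ENNReal.ofReal (C * ε) := by
    intro ε hε
    obtain ⟨η, hη, hcl⟩ := close (n + 1) hr ε hε
    have hlt : sInf S < b + ENNReal.ofReal η :=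
      lt_of_le_of_lt hinf (ENNReal.lt_add_right hbt.ne (by
        rw [Ne, ENNReal.ofReal_eq_zero, not_le]; exact hη))
    obtain ⟨a, ⟨g, hg, hgv, hgI, rfl⟩, hga⟩ := sInf_lt_iff.1 hlt
    have h1 := hcl R g hg hgv hga.le
    calc II (n + 1) (bal (n + 1) r) ≤ II (n + 1) g + ENNReal.ofReal C *
          ∫⁻ x in ball (0 : Eu (n + 1)) r, (1 - g x) := hIb R g hg
      _ ≤ II (n + 1) f + ENNReal.ofReal C * ENNReal.ofReal ε := by gcongr
      _ = _ := by rw [← ENNReal.ofReal_mul hC]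
  apply ENNReal.le_of_forall_pos_le_add
  intro ε hε _
  refine le_trans (key (ε / (C + 1)) (by positivity)) ?_
  gcongr
  rw [← ENNReal.ofReal_coe_nnreal]
  apply ENNReal.ofReal_le_ofReal
  rw [mul_div_assoc', div_le_iff₀ (by positivity)]
  nlinarith [ε.coe_nonneg]

theorem Dens.mono {m : ℕ} {R R' : ℝ} (h : R ≤ R') {f : Eu m → ℝ≥0∞} (hf : Dens m R f) :
    Dens m R' f := ⟨hf.meas, hf.le_one, fun x hx => hf.supp x (lt_of_le_of_lt h hx)⟩

theorem Dens.lintegral_le {m : ℕ} {R : ℝ} {f : Eu m → ℝ≥0∞} (hf : Dens m R f) :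
    ∫⁻ x, f x ≤ volume (closedBall (0 : Eu m) R) := by
  rw [← lintegral_indicator_one measurableSet_closedBall]
  apply lintegral_mono
  intro x
  by_cases hx : x ∈ closedBall (0 : Eu m) R
  · rw [indicator_of_mem hx]; exact hf.le_one x
  · rw [indicator_of_notMem hx]
    rw [mem_closedBall_zero_iff, not_le] at hx
    exact (hf.supp x hx).le

theorem II_bal_lt_top (m : ℕ) (hm : 1 ≤ m) (r : ℝ) (hr : 0 ≤ r) : II m (bal m r) < ∞ := by
  obtain ⟨C, hC, h⟩ := II_bal_le m hr
  have h0 : Dens m 0 (fun _ : Eu m => (0 : ℝ≥0∞)) :=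
    ⟨measurable_const, fun _ => zero_le, fun _ _ => rfl⟩
  have h1 := h 0 _ h0
  have h2 : II m (fun _ : Eu m => (0 : ℝ≥0∞)) = 0 := by
    unfold II
    have : ∀ x : Fin m → Eu m, ENNReal.ofReal |(Matrix.of fun i j => x i j).det| *
        ∏ i : Fin m, (0 : ℝ≥0∞) = 0 := by
      intro x
      rw [Finset.prod_const, Finset.card_univ, Fintype.card_fin, zero_pow (by omega), mul_zero]
    simp_rw [this]
    simp
  rw [h2, zero_add] at h1
  refine lt_of_le_of_lt h1 (ENNReal.mul_lt_top ENNReal.ofReal_lt_top ?_)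
  simp only [tsub_zero]
  rw [lintegral_const, Measure.restrict_apply MeasurableSet.univ, univ_inter, one_mul]
  exact measure_ball_lt_top

theorem lintegral_bal (m : ℕ) (r : ℝ) : ∫⁻ x, bal m r x = volume (ball (0 : Eu m) r) := by
  unfold bal
  exact lintegral_indicator_one measurableSet_ball

theorem II_bal_ne_zero (m : ℕ) : II m (bal m 1) ≠ 0 := by
  intro h
  unfold II at h
  have hmeas : Measurable (fun x : Fin m → Eu m =>
      ENNReal.ofReal |(Matrix.of fun i j => x i j).det| * ∏ i, bal m 1 (x i)) := by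
    apply Measurable.mul
    · apply ENNReal.measurable_ofReal.comp
      apply Continuous.measurable
      have : Continuous fun x : Fin m → Eu m => (Matrix.of fun i j => x i j).det := by
        apply Continuous.matrix_det
        fun_prop
      exact this.abs
    · apply Finset.measurable_prod
      intro i _
      exact (dens_bal m 1).meas.comp (measurable_pi_apply i)
  rw [lintegral_eq_zero_iff hmeas] at h
  have h2 := ae_det_ne_zero m
  have h3 : ∀ᵐ x : Fin m → Eu m, x ∉ Set.univ.pi fun _ : Fin m => ball (0 : Eu m) 1 := by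
    filter_upwards [h, h2] with x hx hx2 hmem
    rw [Pi.zero_apply, mul_eq_zero] at hx
    rcases hx with hx | hx
    · rw [ENNReal.ofReal_eq_zero] at hx
      exact hx2 (abs_eq_zero.1 (le_antisymm hx (abs_nonneg _)))
    · rw [Finset.prod_eq_zero_iff] at hx
      obtain ⟨i, _, hi⟩ := hx
      have : x i ∈ ball (0 : Eu m) 1 := hmem i (mem_univ i)
      unfold bal at hi
      rw [indicator_of_mem this] at hi
      exact one_ne_zero hi
  have h4 : volume (Set.univ.pi fun _ : Fin m => ball (0 : Eu m) 1) = 0 := by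
    have h5 := ae_iff.1 h3
    simp only [not_not] at h5
    exact h5
  rw [volume_pi_pi, Finset.prod_eq_zero_iff] at h4
  obtain ⟨i, _, hi⟩ := h4
  exact (measure_ball_pos volume (0 : Eu m) one_pos).ne' hi

theorem lintegral_bal_linear (m : ℕ) (A : Eu m ≃ₗ[ℝ] Eu m) :
    ENNReal.ofReal |LinearMap.det (A : Eu m →ₗ[ℝ] Eu m)| * ∫⁻ x, bal m 1 (A x) =
      volume (ball (0 : Eu m) 1) := by
  have h1 : ∫⁻ x, bal m 1 (A x) = volume (A ⁻¹' (ball (0 : Eu m) 1)) := by
    rw [← lintegral_indicator_one]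
    · rfl
    · exact (A.toContinuousLinearEquiv.continuous.measurable) measurableSet_ball
  have hdet : LinearMap.det (A : Eu m →ₗ[ℝ] Eu m) ≠ 0 := (LinearEquiv.isUnit_det' A).ne_zero
  rw [h1, Measure.addHaar_preimage_linearEquiv, ← mul_assoc, ← ENNReal.ofReal_mul (abs_nonneg _),
    ← abs_mul]
  have h2 : LinearMap.det (A : Eu m →ₗ[ℝ] Eu m) * LinearMap.det (A.symm : Eu m →ₗ[ℝ] Eu m) = 1 := by
    rw [LinearEquiv.det_mul_det_symm]
  rw [h2]
  simp

/-- Busemann's random simplex inequality, with equality for ellipsoids -/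
theorem simplex (m : ℕ) (hm : 1 ≤ m) :
    ∃ κ : ℝ, 0 < κ ∧
      (∀ (R : ℝ) (f : Eu m → ℝ≥0∞), Dens m R f →
        ENNReal.ofReal κ * (∫⁻ x, f x) ^ (m + 1) ≤ II m f) ∧
      (∀ A : Eu m ≃ₗ[ℝ] Eu m,
        II m (fun x => bal m 1 (A x)) = ENNReal.ofReal κ * (∫⁻ x, bal m 1 (A x)) ^ (m + 1)) := by
  set V := volume (ball (0 : Eu m) 1) with hV
  have hV0 : V ≠ 0 := (measure_ball_pos volume (0 : Eu m) one_pos).ne'
  have hVt : V ≠ ∞ := measure_ball_lt_top.ne
  have hI0 := II_bal_ne_zero m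
  have hIt := (II_bal_lt_top m hm 1 zero_le_one).ne
  set K : ℝ≥0∞ := II m (bal m 1) / V ^ (m + 1) with hK
  have hKt : K ≠ ∞ := ENNReal.div_ne_top hIt (pow_ne_zero _ hV0)
  have hK0 : K ≠ 0 := by
    rw [hK, Ne, ENNReal.div_eq_zero_iff, not_or]
    exact ⟨hI0, ENNReal.pow_ne_top hVt⟩
  have hKof : ENNReal.ofReal K.toReal = K := ENNReal.ofReal_toReal hKt
  have hKV : K * V ^ (m + 1) = II m (bal m 1) :=
    ENNReal.div_mul_cancel (pow_ne_zero _ hV0) (ENNReal.pow_ne_top hVt)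
  have hell : ∀ A : Eu m ≃ₗ[ℝ] Eu m,
      II m (fun x => bal m 1 (A x)) = K * (∫⁻ x, bal m 1 (A x)) ^ (m + 1) := by
    intro A
    have h1 := II_linear m A (bal m 1) (dens_bal m 1).meas
    have h2 := lintegral_bal_linear m A
    have hdet : LinearMap.det (A : Eu m →ₗ[ℝ] Eu m) ≠ 0 := (LinearEquiv.isUnit_det' A).ne_zero
    set D := |LinearMap.det (A : Eu m →ₗ[ℝ] Eu m)| with hD
    have hD0 : 0 < D := abs_pos.2 hdet
    have hDn : ENNReal.ofReal (D ^ (m + 1)) ≠ 0 := by
      rw [Ne, ENNReal.ofReal_eq_zero, not_le]; positivity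
    apply (ENNReal.mul_right_inj hDn ENNReal.ofReal_ne_top).1
    rw [← h1, ← hKV, hV, ← h2, mul_pow, ENNReal.ofReal_pow hD0.le]
    ring
  refine ⟨K.toReal, ENNReal.toReal_pos hK0 hKt, fun R f hf => ?_, fun A => ?_⟩
  · rw [hKof]
    by_cases h0 : ∫⁻ x, f x = 0
    · rw [h0, zero_pow (by omega), mul_zero]; exact zero_le
    have hft : ∫⁻ x, f x ≠ ∞ := (lt_of_le_of_lt hf.lintegral_le measure_closedBall_lt_top).ne
    set v := (∫⁻ x, f x).toReal with hv
    have hv0 : 0 < v := ENNReal.toReal_pos h0 hft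
    have hVr : 0 < V.toReal := ENNReal.toReal_pos hV0 hVt
    set r : ℝ := (v / V.toReal) ^ ((m : ℝ)⁻¹) with hr
    have hr0 : 0 < r := by positivity
    have hm0 : (m : ℝ) ≠ 0 := by
      have : 0 < m := by omega
      exact_mod_cast this.ne'
    have hrm : r ^ m = v / V.toReal := by
      rw [hr, ← Real.rpow_natCast, ← Real.rpow_mul (by positivity), inv_mul_cancel₀ hm0,
        Real.rpow_one]
    have hnt : Nontrivial (Eu m) := by
      apply Module.nontrivial_of_finrank_pos (R := ℝ)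
      rw [finrank_euclideanSpace, Fintype.card_fin]; omega
    have hvol : ∫⁻ x, f x = volume (ball (0 : Eu m) r) := by
      rw [Measure.addHaar_ball volume _ hr0.le, finrank_euclideanSpace, Fintype.card_fin, hrm,
        ← ENNReal.ofReal_toReal hft, ← hv, ← hV, ← ENNReal.ofReal_toReal hVt,
        ← ENNReal.ofReal_mul (by positivity)]
      congr 1
      rw [ENNReal.toReal_ofReal hVr.le]
      field_simp
    have hsim := simplex_bal m hm (R := max R 1) (by positivity) hr0.le f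
      (hf.mono (le_max_left _ _)) hvol
    refine le_trans (le_of_eq ?_) hsim
    have hA : (fun x => bal m 1 ((LinearEquiv.smulOfNeZero ℝ (Eu m) r⁻¹ (inv_ne_zero hr0.ne')) x)) =
        bal m r := by
      funext x
      unfold bal
      simp only [LinearEquiv.smulOfNeZero_apply, indicator, mem_ball_zero_iff, norm_smul, norm_inv,
        Real.norm_of_nonneg hr0.le]
      have : r⁻¹ * ‖x‖ < 1 ↔ ‖x‖ < r := by
        rw [inv_mul_lt_iff₀ hr0, mul_one]
      simp only [this]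
      rfl
    have h3 := hell (LinearEquiv.smulOfNeZero ℝ (Eu m) r⁻¹ (inv_ne_zero hr0.ne'))
    have h4 : ∀ x, bal m 1 ((LinearEquiv.smulOfNeZero ℝ (Eu m) r⁻¹ (inv_ne_zero hr0.ne')) x) =
        bal m r x := fun x => congrFun hA x
    simp_rw [h4] at h3
    rw [hvol, ← lintegral_bal]
    exact h3.symm
  · rw [hKof]; exact hell A

end StarMM
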