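import Pool.Agent.StarMM.OneDim

/-! # Module B: the random simplex functional decreases under Steiner symmetrisation

`lintegral_pt`: `MeasurableEquiv.piFinSuccAbove` (`volume_preserving_piFinSuccAbove`) and
`EuclideanSpace.volume_preserving_...` (`PiLp.volume_preserving_toLp/ofLp`).
`II_symm_le`: transport `∫ over x : Fin (m+1) → Eu (m+1)` to `∫ over y : Fin (m+1) → (Fin m → ℝ)` and
`t : Fin (m+1) → ℝ` (`x i = pt (t i) (y i)`; `volume_preserving_pi` and
`volume_measurePreserving_arrowProdEquivProdArrow`). For fixed `y` the determinant is linear in `t`: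
`Matrix.det_succ_column_zero`: `det = ∑ i, t i * c i`, `c i = (-1)^i det (y (i.succAbove ·))`; then
`one_dim` with `h i t = f (pt t (y i))` (support: `‖pt t y‖² = t² + ∑ y j² ≥ t²`). -/

open MeasureTheory Set Metric Module
open scoped ENNReal

namespace StarMM

private theorem steiner_mp (m : ℕ) :
    MeasurePreserving (fun p : ℝ × (Fin m → ℝ) => pt p.1 p.2) := by
  have h1 := (volume_preserving_piFinSuccAbove (fun _ : Fin (m + 1) => ℝ) 0).symm
  have h2 := (PiLp.volume_preserving_toLp (Fin (m + 1))).comp h1
  refine (congrArg (fun F => MeasurePreserving F volume volume) ?_).mp h2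
  funext p
  simp only [Function.comp_apply, pt]
  congr 1
  funext j
  simp only [MeasurableEquiv.piFinSuccAbove, MeasurableEquiv.symm_mk, MeasurableEquiv.coe_mk,
    Fin.insertNthEquiv, Equiv.symm_symm, Equiv.coe_fn_mk, Fin.insertNth_zero']

theorem measurable_pt {m : ℕ} : Measurable (fun p : ℝ × (Fin m → ℝ) => pt p.1 p.2) :=
  (steiner_mp m).measurable

/-- coordinates `(t,y)` in `ℝ^{m+1}` -/
theorem lintegral_pt {m : ℕ} (f : Eu (m + 1) → ℝ≥0∞) (hf : Measurable f) :
    ∫⁻ x, f x = ∫⁻ y : Fin m → ℝ, ∫⁻ t : ℝ, f (pt t y) := by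
  rw [← (steiner_mp m).lintegral_comp hf, Measure.volume_eq_prod]
  exact lintegral_prod_symm _ (hf.comp measurable_pt).aemeasurable

theorem measurable_symm {m : ℕ} (f : Eu (m + 1) → ℝ≥0∞) (hf : Measurable f) :
    Measurable (symm f) := by
  refine measurable_one.indicator ?_
  have hc : ∀ j : Fin (m + 1), Measurable (fun x : Eu (m + 1) => x j) := fun j =>
    (measurable_pi_apply j).comp (PiLp.volume_preserving_ofLp (Fin (m + 1))).measurable
  refine measurableSet_lt ?_ ?_
  · exact ENNReal.measurable_ofReal.comp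
      (measurable_const.mul (continuous_abs.measurable.comp (hc 0)))
  · have hl : Measurable (len f) := by
      unfold len
      exact Measurable.lintegral_prod_left' (f := fun p : ℝ × (Fin m → ℝ) => f (pt p.1 p.2))
        (hf.comp measurable_pt)
    exact hl.comp (measurable_pi_lambda _ fun j => hc j.succ)

private theorem steiner_II {m : ℕ} (g : Eu (m + 1) → ℝ≥0∞) (hg : Measurable g) :
    II (m + 1) g = ∫⁻ y : Fin (m + 1) → (Fin m → ℝ), ∫⁻ t : Fin (m + 1) → ℝ,
      ENNReal.ofReal |∑ i : Fin (m + 1), ((-1) ^ (i : ℕ) *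
        (Matrix.of fun k l => y (i.succAbove k) l).det) * t i| * ∏ i, g (pt (t i) (y i)) := by
  have hdet : Measurable (fun x : Fin (m + 1) → Eu (m + 1) =>
      ENNReal.ofReal |(Matrix.of fun i j => x i j).det| * ∏ i, g (x i)) := by
    have hc : ∀ i j : Fin (m + 1), Measurable (fun x : Fin (m + 1) → Eu (m + 1) => x i j) :=
      fun i j => ((measurable_pi_apply j).comp
        (PiLp.volume_preserving_ofLp (Fin (m + 1))).measurable).comp (measurable_pi_apply i)
    have hd : Measurable (fun x : Fin (m + 1) → Eu (m + 1) => (Matrix.of fun i j => x i j).det) := by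
      simp only [Matrix.det_apply]
      refine Finset.measurable_sum _ fun s _ => ?_
      refine Measurable.const_smul ?_ _
      exact Finset.measurable_prod _ fun i _ => hc (s i) i
    refine (ENNReal.measurable_ofReal.comp (continuous_abs.measurable.comp hd)).mul ?_
    exact Finset.measurable_prod _ fun i _ => hg.comp (measurable_pi_apply i)
  have h1 := volume_preserving_pi (fun _ : Fin (m + 1) => steiner_mp m)
  have h2 := (volume_measurePreserving_arrowProdEquivProdArrow ℝ (Fin m → ℝ) (Fin (m + 1))).symm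
  have h3 := h1.comp h2
  unfold II
  rw [← h3.lintegral_comp hdet, Measure.volume_eq_prod]
  refine (lintegral_prod_symm _ (hdet.comp h3.measurable).aemeasurable).trans ?_
  refine lintegral_congr fun y => lintegral_congr fun t => ?_
  have e1 : ∀ i, ((fun (a : Fin (m + 1) → ℝ × (Fin m → ℝ)) i => pt (a i).1 (a i).2) ∘
      (MeasurableEquiv.arrowProdEquivProdArrow ℝ (Fin m → ℝ) (Fin (m + 1))).symm) (t, y) i =
      pt (t i) (y i) := fun i => rfl
  simp only [Function.comp_def] at e1 ⊢
  simp only [e1]
  congr 2
  rw [Matrix.det_succ_column_zero]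
  refine congrArg abs (Finset.sum_congr rfl fun i _ => ?_)
  have e2 : (Matrix.of fun i j => (pt (t i) (y i)) j) i 0 = t i := by simp [pt]
  have e3 : (Matrix.of fun i j => (pt (t i) (y i)) j).submatrix i.succAbove Fin.succ =
      Matrix.of fun k l => y (i.succAbove k) l := by
    ext k l
    simp [pt]
  rw [e2, e3]
  ring

theorem II_symm_le {m : ℕ} {R : ℝ} (f : Eu (m + 1) → ℝ≥0∞) (hf : Dens (m + 1) R f) :
    II (m + 1) (symm f) ≤ II (m + 1) f := by
  rw [steiner_II _ (measurable_symm f hf.meas), steiner_II _ hf.meas]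
  refine lintegral_mono fun y => ?_
  have hsy : ∀ (t : ℝ) (z : Fin m → ℝ), symm f (pt t z) =
      {s : ℝ | ENNReal.ofReal (2 * |s|) < ∫⁻ s', f (pt s' z)}.indicator (1 : ℝ → ℝ≥0∞) t := by
    intro t z
    unfold symm
    have e1 : (pt t z) 0 = t := by simp [pt]
    have e2 : (fun j : Fin m => (pt t z) j.succ) = z := by
      funext j
      simp [pt]
    by_cases h : ENNReal.ofReal (2 * |t|) < ∫⁻ s', f (pt s' z)
    · rw [Set.indicator_of_mem, Set.indicator_of_mem]
      · rfl
      · exact h
      · show ENNReal.ofReal (2 * |(pt t z) 0|) < len f (fun j => (pt t z) j.succ)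
        rw [e1, e2]
        exact h
    · rw [Set.indicator_of_notMem, Set.indicator_of_notMem]
      · exact h
      · show ¬ ENNReal.ofReal (2 * |(pt t z) 0|) < len f (fun j => (pt t z) j.succ)
        rw [e1, e2]
        exact h
  simp only [hsy]
  refine one_dim _ (fun i t => f (pt t (y i))) (fun i => ?_) (fun i t => hf.le_one _) R ?_
  · exact hf.meas.comp (measurable_pt.comp (measurable_id.prodMk measurable_const))
  · intro i t ht
    refine hf.supp _ (lt_of_lt_of_le ht ?_)
    have := PiLp.norm_apply_le (pt t (y i)) 0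
    rw [show (pt t (y i)) 0 = t from by simp [pt], Real.norm_eq_abs] at this
    exact this

end StarMM
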